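import Mathlib

/-!
# Radial homeomorphisms

For a centre `v`, a radius `ρ > 0` and an exponent `α > 0` the map that sends `v + x` to
`v + ρ (‖x‖/ρ)^α x/‖x‖` for `‖x‖ ≤ ρ` and fixes all other points.
-/

set_option autoImplicit false

namespace Pool.Agent.V11159.Radial

/-- The profile. -/
noncomputable def prof (ρ α r : ℝ) : ℝ := if r ≤ ρ then ρ * (r / ρ) ^ α else r

variable {ρ α : ℝ}

theorem prof_of_le {r : ℝ} (h : r ≤ ρ) : prof ρ α r = ρ * (r / ρ) ^ α := if_pos h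

theorem prof_of_ge (hρ : 0 < ρ) {r : ℝ} (h : ρ ≤ r) : prof ρ α r = r := by
  rcases eq_or_lt_of_le h with h | h
  · rw [prof_of_le h.ge, ← h, div_self hρ.ne', Real.one_rpow, mul_one]
  · exact if_neg (not_le.2 h)

theorem prof_zero (hα : 0 < α) (hρ : 0 < ρ) : prof ρ α 0 = 0 := by
  rw [prof_of_le hρ.le, zero_div, Real.zero_rpow hα.ne', mul_zero]

theorem prof_pos (hρ : 0 < ρ) {r : ℝ} (hr : 0 < r) : 0 < prof ρ α r := by
  unfold prof
  split_ifs
  · have : 0 < r / ρ := by positivity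
    positivity
  · exact hr

theorem prof_nonneg (hρ : 0 < ρ) {r : ℝ} (hr : 0 ≤ r) : 0 ≤ prof ρ α r := by
  unfold prof
  split_ifs
  · have : 0 ≤ r / ρ := by positivity
    positivity
  · exact hr

theorem prof_le (hρ : 0 < ρ) (hα : 0 < α) {r : ℝ} (hr : 0 ≤ r) (h : r ≤ ρ) : prof ρ α r ≤ ρ := by
  rw [prof_of_le h]
  have h1 : (r / ρ) ^ α ≤ 1 := Real.rpow_le_one (by positivity) ((div_le_one hρ).2 h) hα.le
  nlinarith

theorem prof_mono (hρ : 0 < ρ) (hα : 0 < α) {r s : ℝ} (hr : 0 ≤ r) (h : r ≤ s) :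
    prof ρ α r ≤ prof ρ α s := by
  rcases le_total s ρ with h1 | h1
  · rw [prof_of_le (h.trans h1), prof_of_le h1]
    have : (r / ρ) ^ α ≤ (s / ρ) ^ α :=
      Real.rpow_le_rpow (by positivity) (by gcongr) hα.le
    nlinarith
  · rw [prof_of_ge hρ h1]
    rcases le_total r ρ with h2 | h2
    · exact (prof_le hρ hα hr h2).trans h1
    · rw [prof_of_ge hρ h2]; exact h

theorem prof_inv (hρ : 0 < ρ) (hα : 0 < α) {r : ℝ} (hr : 0 ≤ r) :
    prof ρ α⁻¹ (prof ρ α r) = r := by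
  rcases le_total r ρ with h | h
  · rw [prof_of_le (prof_le hρ hα hr h), prof_of_le h, mul_div_cancel_left₀ _ hρ.ne',
      ← Real.rpow_mul (by positivity), mul_inv_cancel₀ hα.ne', Real.rpow_one,
      mul_div_cancel₀ _ hρ.ne']
  · rw [prof_of_ge hρ h, prof_of_ge hρ h]

theorem prof_continuous (hρ : 0 < ρ) (hα : 0 < α) : Continuous (prof ρ α) := by
  unfold prof
  refine Continuous.if_le ?_ continuous_id continuous_id continuous_const ?_
  · exact continuous_const.mul ((continuous_id.div_const ρ).rpow_const fun _ => Or.inr hα.le)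
  · intro r hr
    have hr' : r = ρ := hr
    rw [hr', div_self hρ.ne', Real.one_rpow, mul_one]

variable {E : Type*} [NormedAddCommGroup E] [NormedSpace ℝ E]

/-- The radial map. -/
noncomputable def rad (ρ α : ℝ) (v p : E) : E := v + (prof ρ α ‖p - v‖ / ‖p - v‖) • (p - v)

theorem rad_self (v : E) : rad ρ α v v = v := by simp [rad]

theorem norm_rad_sub (hρ : 0 < ρ) (hα : 0 < α) (v p : E) :
    ‖rad ρ α v p - v‖ = prof ρ α ‖p - v‖ := by
  unfold rad
  rw [add_sub_cancel_left, norm_smul, Real.norm_eq_abs,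
    abs_of_nonneg (div_nonneg (prof_nonneg hρ (norm_nonneg _)) (norm_nonneg _))]
  by_cases h : ‖p - v‖ = 0
  · rw [h, prof_zero hα hρ]; simp
  · rw [div_mul_cancel₀ _ h]

theorem rad_inv (hρ : 0 < ρ) (hα : 0 < α) (v p : E) : rad ρ α⁻¹ v (rad ρ α v p) = p := by
  by_cases h : p = v
  · rw [h, rad_self, rad_self]
  · have h1 : 0 < ‖p - v‖ := norm_pos_iff.2 (sub_ne_zero.2 h)
    have h2 : 0 < prof ρ α ‖p - v‖ := prof_pos hρ h1
    have h3 := norm_rad_sub hρ hα v p
    conv_lhs => unfold rad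
    rw [show rad ρ α v p - v = (prof ρ α ‖p - v‖ / ‖p - v‖) • (p - v) by
      unfold rad; rw [add_sub_cancel_left]] at *
    have h4 : v + (prof ρ α ‖p - v‖ / ‖p - v‖) • (p - v) - v =
        (prof ρ α ‖p - v‖ / ‖p - v‖) • (p - v) := by rw [add_sub_cancel_left]
    rw [h4, h3, prof_inv hρ hα h1.le, smul_smul]
    have h5 : ‖p - v‖ / prof ρ α ‖p - v‖ * (prof ρ α ‖p - v‖ / ‖p - v‖) = 1 := by
      field_simp
    rw [h5, one_smul, add_sub_cancel]

theorem rad_continuous (hρ : 0 < ρ) (hα : 0 < α) (v : E) : Continuous (rad ρ α v) := by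
  rw [continuous_iff_continuousAt]
  intro p
  by_cases h : p = v
  · subst h
    rw [Metric.continuousAt_iff']
    intro ε hε
    have hc : Continuous fun q : E => prof ρ α ‖q - p‖ :=
      (prof_continuous hρ hα).comp (continuous_norm.comp (continuous_id.sub continuous_const))
    have h0 : Filter.Tendsto (fun q : E => prof ρ α ‖q - p‖) (nhds p) (nhds 0) := by
      have := hc.tendsto p
      simp only [sub_self, norm_zero, prof_zero hα hρ] at this
      exact this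
    filter_upwards [h0.eventually (gt_mem_nhds hε)] with q hq
    rw [rad_self, dist_eq_norm, norm_rad_sub hρ hα]
    exact hq
  · have h1 : ‖p - v‖ ≠ 0 := (norm_pos_iff.2 (sub_ne_zero.2 h)).ne'
    unfold rad
    refine ContinuousAt.add continuousAt_const (ContinuousAt.smul ?_ (by fun_prop))
    refine ContinuousAt.div ?_ (by fun_prop) h1
    exact ((prof_continuous hρ hα).comp (continuous_norm.comp
      (continuous_id.sub continuous_const))).continuousAt

/-- The radial homeomorphism. -/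
noncomputable def radH (hρ : 0 < ρ) (hα : 0 < α) (v : E) : E ≃ₜ E where
  toFun := rad ρ α v
  invFun := rad ρ α⁻¹ v
  left_inv := rad_inv hρ hα v
  right_inv := by
    have := rad_inv (α := α⁻¹) hρ (inv_pos.2 hα) v
    rwa [inv_inv] at this
  continuous_toFun := rad_continuous hρ hα v
  continuous_invFun := rad_continuous hρ (inv_pos.2 hα) v

theorem radH_apply (hρ : 0 < ρ) (hα : 0 < α) (v p : E) : radH hρ hα v p = rad ρ α v p := rfl

theorem rad_outside (hρ : 0 < ρ) (v p : E) (h : ρ ≤ ‖p - v‖) : rad ρ α v p = p := by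
  unfold rad
  rw [prof_of_ge hρ h, div_self (by linarith : ‖p - v‖ ≠ 0), one_smul, add_sub_cancel]

theorem rad_ray (hρ : 0 < ρ) (hα : 0 < α) (v w : E) (hw : w ≠ 0) {t : ℝ} (ht : 0 ≤ t) :
    rad ρ α v (v + t • w) = v + (prof ρ α (t * ‖w‖) / ‖w‖) • w := by
  have hw0 : 0 < ‖w‖ := norm_pos_iff.2 hw
  unfold rad
  rw [add_sub_cancel_left, norm_smul, Real.norm_eq_abs, abs_of_nonneg ht, smul_smul]
  congr 2
  rcases eq_or_lt_of_le ht with h | h
  · rw [← h, zero_mul, prof_zero hα hρ]; simp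
  · field_simp

theorem segment_ray (v w : E) {A : ℝ} (hA : 0 ≤ A) :
    segment ℝ v (v + A • w) = {p | ∃ t : ℝ, 0 ≤ t ∧ t ≤ A ∧ p = v + t • w} := by
  ext p
  rw [segment_eq_image']
  constructor
  · rintro ⟨θ, ⟨h0, h1⟩, rfl⟩
    refine ⟨θ * A, by positivity, by nlinarith, ?_⟩
    simp only [add_sub_cancel_left, smul_smul]
  · rintro ⟨t, h0, h1, rfl⟩
    rcases eq_or_lt_of_le hA with h | h
    · refine ⟨0, ⟨le_rfl, zero_le_one⟩, ?_⟩
      have : t = 0 := by linarith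
      simp [this]
    · refine ⟨t / A, ⟨by positivity, (div_le_one h).2 h1⟩, ?_⟩
      simp only [add_sub_cancel_left, smul_smul, div_mul_cancel₀ _ h.ne']

theorem rad_mapsTo (hρ : 0 < ρ) (hα : 0 < α) (v w : E) (hw : w ≠ 0) {A B : ℝ} (hA : 0 ≤ A)
    (hB : 0 ≤ B) (h : prof ρ α (A * ‖w‖) = B * ‖w‖) :
    Set.MapsTo (rad ρ α v) (segment ℝ v (v + A • w)) (segment ℝ v (v + B • w)) := by
  have hw0 : 0 < ‖w‖ := norm_pos_iff.2 hw
  rw [segment_ray v w hA, segment_ray v w hB]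
  rintro p ⟨t, h0, h1, rfl⟩
  refine ⟨_, div_nonneg (prof_nonneg hρ (by positivity)) hw0.le, ?_, rad_ray hρ hα v w hw h0⟩
  rw [div_le_iff₀ hw0, ← h]
  exact prof_mono hρ hα (by positivity) (by gcongr)

theorem radH_image (hρ : 0 < ρ) (hα : 0 < α) (v w : E) (hw : w ≠ 0) {A B : ℝ} (hA : 0 ≤ A)
    (hB : 0 ≤ B) (h : prof ρ α (A * ‖w‖) = B * ‖w‖) :
    radH hρ hα v '' (segment ℝ v (v + A • w)) = segment ℝ v (v + B • w) := by
  have h' : prof ρ α⁻¹ (B * ‖w‖) = A * ‖w‖ := by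
    rw [← h, prof_inv hρ hα (by positivity)]
  apply Set.Subset.antisymm
  · rintro _ ⟨p, hp, rfl⟩
    exact rad_mapsTo hρ hα v w hw hA hB h hp
  · intro p hp
    refine ⟨rad ρ α⁻¹ v p, rad_mapsTo hρ (inv_pos.2 hα) v w hw hB hA h' hp, ?_⟩
    exact (radH hρ hα v).right_inv p

/-- The exponent moving `a` to `b`. -/
theorem exists_exponent (hρ : 0 < ρ) {a b : ℝ} (ha : 0 < a) (ha' : a < ρ) (hb : 0 < b) (hb' : b < ρ) :
    ∃ α : ℝ, 0 < α ∧ prof ρ α a = b := by
  have h1 : 0 < a / ρ := by positivity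
  have h2 : a / ρ < 1 := (div_lt_one hρ).2 ha'
  have h3 : 0 < b / ρ := by positivity
  have h4 : b / ρ < 1 := (div_lt_one hρ).2 hb'
  refine ⟨Real.logb (a / ρ) (b / ρ), Real.logb_pos_of_base_lt_one h1 h2 h3 h4, ?_⟩
  rw [prof_of_le ha'.le, Real.rpow_logb h1 h2.ne h3, mul_div_cancel₀ _ hρ.ne']

end Pool.Agent.V11159.Radial
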