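import Mathlib

/-!
Disk-polygons, part 1: the support point of an intersection of discs of radius `r` in a direction.
-/

set_option autoImplicit false

namespace Pool.Agent.V11159.DP

open Real

/-- The plane. -/
abbrev E2 : Type := EuclideanSpace ℝ (Fin 2)

/-- Squared distance. -/
def Dsq (p q : E2) : ℝ := (p 0 - q 0) ^ 2 + (p 1 - q 1) ^ 2

theorem Dsq_nonneg (p q : E2) : 0 ≤ Dsq p q := by unfold Dsq; positivity

theorem Dsq_comm (p q : E2) : Dsq p q = Dsq q p := by unfold Dsq; ring

theorem dist_eq (p q : E2) : dist p q = √(Dsq p q) := by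
  rw [EuclideanSpace.dist_eq, Fin.sum_univ_two, Real.dist_eq, Real.dist_eq, sq_abs, sq_abs]
  rfl

theorem dist_sq (p q : E2) : dist p q ^ 2 = Dsq p q := by
  rw [dist_eq, Real.sq_sqrt (Dsq_nonneg p q)]

theorem dist_le_iff {p q : E2} {r : ℝ} (hr : 0 ≤ r) : dist p q ≤ r ↔ Dsq p q ≤ r ^ 2 := by
  rw [dist_eq, Real.sqrt_le_left hr]

theorem dist_eq_iff {p q : E2} {r : ℝ} (hr : 0 ≤ r) : dist p q = r ↔ Dsq p q = r ^ 2 := by
  rw [dist_eq, Real.sqrt_eq_iff_eq_sq (Dsq_nonneg p q) hr]

theorem Dsq_eq_zero {p q : E2} (h : Dsq p q = 0) : p = q := by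
  have := dist_sq p q
  rw [h] at this
  exact dist_eq_zero.1 (pow_eq_zero_iff (by norm_num) |>.1 this)

/-- Point with given coordinates. -/
noncomputable def mk (x y : ℝ) : E2 := !₂[x, y]

@[simp] theorem mk_zero (x y : ℝ) : mk x y 0 = x := rfl
@[simp] theorem mk_one (x y : ℝ) : mk x y 1 = y := rfl

theorem ext2 {p q : E2} (h0 : p 0 = q 0) (h1 : p 1 = q 1) : p = q := by
  ext i
  fin_cases i
  · exact h0
  · exact h1

/-- Coordinate along the direction `θ`. -/
noncomputable def S (θ : ℝ) (p : E2) : ℝ := p 0 * cos θ + p 1 * sin θ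

/-- Coordinate orthogonal to the direction `θ`. -/
noncomputable def T (θ : ℝ) (p : E2) : ℝ := p 1 * cos θ - p 0 * sin θ

theorem Dsq_ST (θ : ℝ) (p q : E2) : Dsq p q = (S θ p - S θ q) ^ 2 + (T θ p - T θ q) ^ 2 := by
  unfold Dsq S T
  linear_combination (-(p 0 - q 0) ^ 2 - (p 1 - q 1) ^ 2) * Real.sin_sq_add_cos_sq θ

/-- Point with given coordinates with respect to the direction `θ`. -/
noncomputable def mkST (θ s t : ℝ) : E2 := mk (s * cos θ - t * sin θ) (s * sin θ + t * cos θ)

theorem S_mkST (θ s t : ℝ) : S θ (mkST θ s t) = s := by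
  unfold S mkST
  rw [mk_zero, mk_one]
  linear_combination s * Real.sin_sq_add_cos_sq θ

theorem T_mkST (θ s t : ℝ) : T θ (mkST θ s t) = t := by
  unfold T mkST
  rw [mk_zero, mk_one]
  linear_combination t * Real.sin_sq_add_cos_sq θ

theorem ext_ST (θ : ℝ) {p q : E2} (h0 : S θ p = S θ q) (h1 : T θ p = T θ q) : p = q := by
  apply Dsq_eq_zero
  rw [Dsq_ST θ, h0, h1]; ring

/-- The intersection of the discs of radius `r` with centres in `C`. -/
def DD (C : Finset E2) (r : ℝ) : Set E2 := {p | ∀ c ∈ C, Dsq p c ≤ r ^ 2}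

theorem DD_eq (C : Finset E2) {r : ℝ} (hr : 0 ≤ r) : DD C r = ⋂ c ∈ C, Metric.closedBall c r := by
  ext p
  simp only [DD, Set.mem_setOf_eq, Set.mem_iInter, Metric.mem_closedBall]
  exact forall₂_congr fun c _ => (dist_le_iff hr).symm

/-- `q` is the support point of `DD C r` in the direction `θ`. -/
def Sup (C : Finset E2) (r θ : ℝ) (q : E2) : Prop := q ∈ DD C r ∧ ∀ p ∈ DD C r, S θ p ≤ S θ q

/-- The main inequality for support points (rolling ball property). -/
theorem Sup.ineq {C : Finset E2} (hC : C.Nonempty) {r θ : ℝ} (hr : 0 < r) {q : E2} (h : Sup C r θ q)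
    {p : E2} (hp : p ∈ DD C r) : Dsq p q + 2 * r * (S θ p - S θ q) ≤ 0 := by
  obtain ⟨hq, hm⟩ := h
  set d := Dsq p q with hd
  have hd0 : 0 ≤ d := Dsq_nonneg p q
  have key : ∀ s : ℝ, 0 < s → s ≤ 1 → (S θ p - S θ q) + (1 - s) * d / (2 * r) ≤ 0 := by
    intro s hs hs1
    set ρ := s * (1 - s) * d / (2 * r) with hρ
    have hρ0 : 0 ≤ ρ := by
      have : 0 ≤ 1 - s := by linarith
      positivity
    have hρr : 2 * r * ρ = s * (1 - s) * d := by
      rw [hρ]; field_simp
    set m : E2 := mkST θ ((1 - s) * S θ q + s * S θ p + ρ) ((1 - s) * T θ q + s * T θ p) with hmdef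
    have hmem : m ∈ DD C r := by
      intro c hc
      have h1 := hq c hc
      have h2 := hp c hc
      rw [Dsq_ST θ] at h1 h2 ⊢
      rw [hmdef, S_mkST, T_mkST]
      rw [Dsq_ST θ] at hd
      set a := S θ q - S θ c
      set b := T θ q - T θ c
      set a' := S θ p - S θ c
      set b' := T θ p - T θ c
      have e1 : (1 - s) * S θ q + s * S θ p + ρ - S θ c = ((1 - s) * a + s * a') + ρ := by
        simp only [a, a']; ring
      have e2 : (1 - s) * T θ q + s * T θ p - T θ c = (1 - s) * b + s * b' := by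
        simp only [b, b']; ring
      have e3 : d = (a' - a) ^ 2 + (b' - b) ^ 2 := by
        rw [hd]; simp only [a, a', b, b']; ring
      rw [e1, e2]
      set A := (1 - s) * a + s * a' with hA
      set B := (1 - s) * b + s * b' with hB
      have hAB : A ^ 2 + B ^ 2 ≤ r ^ 2 - 2 * r * ρ := by
        rw [hρr, e3, hA, hB]
        nlinarith [mul_le_mul_of_nonneg_left h1 (show 0 ≤ 1 - s by linarith),
          mul_le_mul_of_nonneg_left h2 hs.le]
      have hρle : ρ ≤ r := by
        have : 0 ≤ r ^ 2 - 2 * r * ρ := le_trans (by positivity) hAB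
        nlinarith
      have hA' : A ≤ r - ρ := by
        apply le_of_sq_le_sq _ (by linarith)
        nlinarith [sq_nonneg B, sq_nonneg ρ]
      nlinarith
    have h3 := hm m hmem
    rw [hmdef, S_mkST] at h3
    have h4 : s * ((S θ p - S θ q) + (1 - s) * d / (2 * r)) ≤ 0 := by
      have : s * ((1 - s) * d / (2 * r)) = ρ := by rw [hρ]; ring
      nlinarith
    by_contra hcon
    push Not at hcon
    nlinarith [mul_pos hs hcon]
  have h5 : (S θ p - S θ q) + d / (2 * r) ≤ 0 := by
    by_contra hcon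
    push Not at hcon
    have hA := hm p hp
    set A := S θ p - S θ q
    set B := d / (2 * r) with hB
    have hBpos : 0 < B := by
      have : A ≤ 0 := by simp only [A]; linarith
      linarith
    have h6 := key ((A + B) / (2 * B)) (by positivity) (by
      rw [div_le_one (by linarith)]
      have : A ≤ 0 := by simp only [A]; linarith
      linarith)
    have h7 : (1 - (A + B) / (2 * B)) * d / (2 * r) = B - (A + B) / 2 := by
      have : (1 - (A + B) / (2 * B)) * d / (2 * r) = (1 - (A + B) / (2 * B)) * B := by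
        rw [hB]; ring
      rw [this]; field_simp
    rw [h7] at h6
    linarith
  have h8 : 2 * r * ((S θ p - S θ q) + d / (2 * r)) ≤ 0 := by nlinarith
  have h9 : 2 * r * (d / (2 * r)) = d := by field_simp
  nlinarith

end Pool.Agent.V11159.DP
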