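import Pool.Agent.V11159.DP1

/-!
Disk-polygons, part 2: existence of support points, optimality conditions.
-/

set_option autoImplicit false

namespace Pool.Agent.V11159.DP

open Real Filter Topology

theorem continuous_S (θ : ℝ) : Continuous (S θ) := by
  unfold S
  fun_prop

theorem isCompact_DD {C : Finset E2} (hC : C.Nonempty) {r : ℝ} (hr : 0 ≤ r) :
    IsCompact (DD C r) := by
  obtain ⟨c, hc⟩ := hC
  rw [DD_eq C hr]
  apply (isCompact_closedBall c r).of_isClosed_subset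
  · exact isClosed_biInter fun c _ => Metric.isClosed_closedBall
  · exact Set.biInter_subset_of_mem hc

theorem exists_Sup {C : Finset E2} (hC : C.Nonempty) {r : ℝ} (hr : 0 ≤ r)
    (hne : (DD C r).Nonempty) (θ : ℝ) : ∃ q, Sup C r θ q := by
  obtain ⟨q, hq, hm⟩ := (isCompact_DD hC hr).exists_isMaxOn hne (continuous_S θ).continuousOn
  exact ⟨q, hq, fun p hp => hm hp⟩

theorem Sup.unique {C : Finset E2} (hC : C.Nonempty) {r θ : ℝ} (hr : 0 < r) {q q' : E2}
    (h : Sup C r θ q) (h' : Sup C r θ q') : q = q' := by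
  have h1 := h.ineq hC hr h'.1
  have h2 : S θ q ≤ S θ q' := h'.2 q h.1
  have h3 := Dsq_nonneg q' q
  have h4 : Dsq q' q = 0 := by nlinarith
  exact (Dsq_eq_zero h4).symm

/-- One-sided optimality condition. -/
theorem Sup.active {C : Finset E2} {r θ : ℝ} {q : E2} (h : Sup C r θ q)
    (σ : ℝ) (hσ : σ ^ 2 = 1) :
    ∃ c ∈ C, Dsq q c = r ^ 2 ∧ 0 ≤ σ * (T θ q - T θ c) := by
  by_contra hcon
  push Not at hcon
  obtain ⟨hq, hm⟩ := h
  have key : ∀ c ∈ C, ∀ᶠ δ in 𝓝[>] (0 : ℝ),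
      Dsq (mkST θ (S θ q + δ ^ 2) (T θ q + σ * δ)) c ≤ r ^ 2 := by
    intro c hc
    have hf : ∀ δ : ℝ, Dsq (mkST θ (S θ q + δ ^ 2) (T θ q + σ * δ)) c = Dsq q c +
        δ * (2 * (σ * (T θ q - T θ c)) + 2 * δ * (S θ q - S θ c) + δ + δ ^ 3) := by
      intro δ
      rw [Dsq_ST θ, Dsq_ST θ q c, S_mkST, T_mkST]
      linear_combination δ ^ 2 * hσ
    rcases lt_or_eq_of_le (hq c hc) with hlt | heq
    · have hc1 : Continuous fun δ : ℝ => Dsq q c +
        δ * (2 * (σ * (T θ q - T θ c)) + 2 * δ * (S θ q - S θ c) + δ + δ ^ 3) := by fun_prop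
      have h1 : ∀ᶠ δ in 𝓝 (0 : ℝ), Dsq q c +
          δ * (2 * (σ * (T θ q - T θ c)) + 2 * δ * (S θ q - S θ c) + δ + δ ^ 3) < r ^ 2 := by
        apply hc1.continuousAt.eventually_lt continuousAt_const
        simpa using hlt
      filter_upwards [nhdsWithin_le_nhds h1] with δ hδ
      rw [hf]; exact hδ.le
    · have h2 := hcon c hc heq
      have hc1 : Continuous fun δ : ℝ =>
        2 * (σ * (T θ q - T θ c)) + 2 * δ * (S θ q - S θ c) + δ + δ ^ 3 := by fun_prop
      have h1 : ∀ᶠ δ in 𝓝 (0 : ℝ),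
          2 * (σ * (T θ q - T θ c)) + 2 * δ * (S θ q - S θ c) + δ + δ ^ 3 < 0 := by
        apply hc1.continuousAt.eventually_lt continuousAt_const
        simp only [mul_zero, zero_mul, add_zero, ne_eq, OfNat.ofNat_ne_zero, not_false_eq_true,
          zero_pow]
        linarith
      filter_upwards [nhdsWithin_le_nhds h1, self_mem_nhdsWithin] with δ hδ hδ0
      rw [hf, heq]
      have : 0 < δ := hδ0
      nlinarith
  have h1 : ∀ᶠ δ in 𝓝[>] (0 : ℝ), ∀ c ∈ C,
      Dsq (mkST θ (S θ q + δ ^ 2) (T θ q + σ * δ)) c ≤ r ^ 2 := by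
    rw [Filter.eventually_all_finset]
    exact key
  obtain ⟨δ, hδ, hδ0⟩ := (h1.and self_mem_nhdsWithin).exists
  have h2 := hm _ hδ
  rw [S_mkST] at h2
  have : (0 : ℝ) < δ := hδ0
  nlinarith [pow_pos this 2]

/-- Optimality conditions for support points. -/
theorem Sup.kkt {C : Finset E2} (hC : C.Nonempty) {r θ : ℝ} (hr : 0 < r) {q z : E2}
    (h : Sup C r θ q) (hz : ∀ c ∈ C, Dsq z c < r ^ 2) :
    (∃ c ∈ C, q = mkST θ (S θ c + r) (T θ c)) ∨
    ∃ c ∈ C, ∃ c' ∈ C, Dsq q c = r ^ 2 ∧ Dsq q c' = r ^ 2 ∧ T θ q - T θ c < 0 ∧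
      0 < T θ q - T θ c' ∧
      0 < (S θ q - S θ c) * (T θ q - T θ c') - (T θ q - T θ c) * (S θ q - S θ c') := by
  have hzD : z ∈ DD C r := fun c hc => (hz c hc).le
  obtain ⟨c', hc', ha', ht'⟩ := h.active 1 (by norm_num)
  obtain ⟨c, hc, ha, ht⟩ := h.active (-1) (by norm_num)
  rw [one_mul] at ht'
  have ht : T θ q - T θ c ≤ 0 := by linarith
  -- active constraints with vanishing second coordinate
  have hzero : ∀ x ∈ C, Dsq q x = r ^ 2 → T θ q - T θ x = 0 → q = mkST θ (S θ x + r) (T θ x) := by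
    intro x hx hax htx
    have h1 : (S θ q - S θ x - r) * (S θ q - S θ x + r) = 0 := by
      rw [Dsq_ST θ, htx] at hax
      linarith [hax]
    have h2 : S θ q - S θ x + r ≠ 0 := by
      intro h2
      have h3 := h.2 z hzD
      have h4 := hz x hx
      rw [Dsq_ST θ] at h4
      have h5 : S θ z - S θ x ≤ -r := by linarith
      nlinarith [sq_nonneg (T θ z - T θ x)]
    have h3 : S θ q - S θ x - r = 0 := by
      rcases mul_eq_zero.1 h1 with h | h
      · exact h
      · exact absurd h h2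
    apply ext_ST θ
    · rw [S_mkST]; linarith
    · rw [T_mkST]; linarith
  rcases eq_or_lt_of_le ht with h0 | h0
  · exact Or.inl ⟨c, hc, hzero c hc ha h0⟩
  rcases eq_or_lt_of_le ht' with h0' | h0'
  · exact Or.inl ⟨c', hc', hzero c' hc' ha' h0'.symm⟩
  refine Or.inr ⟨c, hc, c', hc', ha, ha', h0, h0', ?_⟩
  -- Slater half-plane
  have hzq : Dsq z q ≠ 0 := by
    intro hcon
    have := Dsq_eq_zero hcon
    have h1 := hz c hc
    rw [this, ha] at h1
    exact lt_irrefl _ h1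
  have hpos : 0 < S θ q - S θ z := by
    have h1 := h.ineq hC hr hzD
    have h2 : 0 < Dsq z q := lt_of_le_of_ne (Dsq_nonneg _ _) (Ne.symm hzq)
    nlinarith
  have hh : ∀ x ∈ C, Dsq q x = r ^ 2 →
      0 < (S θ q - S θ x) * (S θ q - S θ z) + (T θ q - T θ x) * (T θ q - T θ z) := by
    intro x hx hax
    have h1 := hz x hx
    rw [Dsq_ST θ] at h1 hax
    nlinarith [sq_nonneg (S θ q - S θ z), sq_nonneg (T θ q - T θ z)]
  have e1 := hh c hc ha
  have e2 := hh c' hc' ha'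
  set a := S θ q - S θ z
  set b := T θ q - T θ z
  have e3 : 0 < a * ((S θ q - S θ c) * (T θ q - T θ c') - (T θ q - T θ c) * (S θ q - S θ c')) := by
    nlinarith [mul_pos h0' e1, mul_pos (neg_pos.2 h0) e2]
  exact (mul_pos_iff_of_pos_left hpos).1 e3

end Pool.Agent.V11159.DP
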