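import Pool.Agent.V11159.DP1

/-!
Disk-polygons, part 3: Jung's theorem in the plane.
-/

set_option autoImplicit false

namespace Pool.Agent.V11159.DP

open Real

/-- At most three points with pairwise squared distances at most `D` lie in a disc of squared
radius `D / 3`. -/
theorem jung_three (I : Finset E2) (hI : I.Nonempty) (hcard : I.card ≤ 3) (D : ℝ)
    (hD : ∀ x ∈ I, ∀ y ∈ I, Dsq x y ≤ D) : ∃ z : E2, ∀ x ∈ I, Dsq z x ≤ D / 3 := by
  classical
  have hD0 : 0 ≤ D := by
    obtain ⟨x, hx⟩ := hI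
    have := hD x hx x hx
    exact le_trans (Dsq_nonneg x x) this
  let N : (I → ℝ) → ℝ := fun l => ∑ i, l i * ((i : E2) 0 ^ 2 + (i : E2) 1 ^ 2)
  let X : (I → ℝ) → ℝ := fun l => ∑ i, l i * (i : E2) 0
  let Y : (I → ℝ) → ℝ := fun l => ∑ i, l i * (i : E2) 1
  let g : (I → ℝ) → ℝ := fun l => N l - X l ^ 2 - Y l ^ 2
  have hg : Continuous g := by
    simp only [g, N, X, Y]
    fun_prop
  have hne : (stdSimplex ℝ I).Nonempty := by
    obtain ⟨x, hx⟩ := hI
    exact ⟨_, single_mem_stdSimplex ℝ ⟨x, hx⟩⟩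
  obtain ⟨l, hl, hmax⟩ := (isCompact_stdSimplex ℝ I).exists_isMaxOn hne hg.continuousOn
  -- upper bound for `g l`
  have hgl : g l ≤ D / 3 := by
    have h1 : 2 * g l = ∑ i, ∑ j, l i * l j * Dsq (i : E2) (j : E2) := by
      have hs : ∑ i, l i = 1 := hl.2
      have e1 : ∑ i, ∑ j, l i * l j * Dsq (i : E2) (j : E2) =
          ∑ i, ∑ j, (l j * (l i * ((i : E2) 0 ^ 2 + (i : E2) 1 ^ 2)) +
            l i * (l j * ((j : E2) 0 ^ 2 + (j : E2) 1 ^ 2)) -
            2 * ((l i * (i : E2) 0) * (l j * (j : E2) 0)) -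
            2 * ((l i * (i : E2) 1) * (l j * (j : E2) 1))) := by
        apply Finset.sum_congr rfl; intro i _
        apply Finset.sum_congr rfl; intro j _
        unfold Dsq; ring
      rw [e1]
      simp only [Finset.sum_sub_distrib, Finset.sum_add_distrib, ← Finset.mul_sum, ← Finset.sum_mul,
        hs, one_mul]
      simp only [g, N, X, Y]
      ring
    have h2 : ∑ i, ∑ j, l i * l j * Dsq (i : E2) (j : E2) ≤ D * (1 - ∑ i, l i ^ 2) := by
      have hs : ∑ i, l i = 1 := hl.2
      have e2 : D * (1 - ∑ i, l i ^ 2) = ∑ i, ∑ j, (if i = j then 0 else l i * l j * D) := by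
        have e3 : ∀ i j : I, (if i = j then (0 : ℝ) else l i * l j * D) =
            l i * l j * D - if i = j then l i * l j * D else 0 := by
          intro i j; split_ifs <;> ring
        simp only [e3, Finset.sum_sub_distrib, Finset.sum_ite_eq, Finset.mem_univ, if_true]
        have e4 : ∑ i, ∑ j, l i * l j * D = D := by
          simp only [← Finset.sum_mul, ← Finset.mul_sum, hs, one_mul, mul_one]
        rw [e4]
        have e5 : ∑ i, l i * l i * D = D * ∑ i, l i ^ 2 := by
          rw [Finset.mul_sum]; exact Finset.sum_congr rfl fun i _ => by ring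
        rw [e5]; ring
      rw [e2]
      apply Finset.sum_le_sum; intro i _
      apply Finset.sum_le_sum; intro j _
      split_ifs with h
      · rw [h]
        have : Dsq (j : E2) j = 0 := by unfold Dsq; ring
        rw [this, mul_zero]
      · exact mul_le_mul_of_nonneg_left (hD _ i.2 _ j.2) (mul_nonneg (hl.1 i) (hl.1 j))
    have h3 : 1 ≤ 3 * ∑ i, l i ^ 2 := by
      have hs : ∑ i, l i = 1 := hl.2
      have := sq_sum_le_card_mul_sum_sq (s := (Finset.univ : Finset I)) (f := l)
      rw [hs, Finset.card_univ, Fintype.card_coe] at this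
      have h4 : (I.card : ℝ) ≤ 3 := by exact_mod_cast hcard
      have h5 : 0 ≤ ∑ i, l i ^ 2 := Finset.sum_nonneg fun i _ => sq_nonneg _
      nlinarith
    nlinarith
  refine ⟨mk (X l) (Y l), fun x hx => ?_⟩
  -- optimality
  have key : ∀ s : ℝ, 0 < s → s ≤ 1 →
      Dsq (mk (X l) (Y l)) x ≤ g l + s * Dsq (mk (X l) (Y l)) x := by
    intro s hs hs1
    let m : I → ℝ := fun i => (1 - s) * l i + s * (Pi.single (⟨x, hx⟩ : I) (1 : ℝ) : I → ℝ) i
    have hm : m ∈ stdSimplex ℝ I :=
      (convex_stdSimplex ℝ I) hl (single_mem_stdSimplex ℝ ⟨x, hx⟩) (by linarith) hs.le (by ring)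
    have h1 : g m ≤ g l := hmax hm
    have e1 : ∀ f : I → ℝ, ∑ i, m i * f i = (1 - s) * ∑ i, l i * f i + s * f ⟨x, hx⟩ := by
      intro f
      simp only [m, add_mul, Finset.sum_add_distrib, Finset.mul_sum]
      congr 1
      · exact Finset.sum_congr rfl fun i _ => by ring
      · rw [Finset.sum_eq_single (⟨x, hx⟩ : I)]
        · simp
        · intro b _ hb; simp [hb]
        · simp
    have e2 : N m = (1 - s) * N l + s * (x 0 ^ 2 + x 1 ^ 2) := e1 _
    have e3 : X m = (1 - s) * X l + s * x 0 := e1 _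
    have e4 : Y m = (1 - s) * Y l + s * x 1 := e1 _
    have e5 : g m = N m - X m ^ 2 - Y m ^ 2 := rfl
    have e6 : g l = N l - X l ^ 2 - Y l ^ 2 := rfl
    rw [e5, e2, e3, e4] at h1
    have h2 : s * (Dsq (mk (X l) (Y l)) x - (g l + s * Dsq (mk (X l) (Y l)) x)) ≤ 0 := by
      unfold Dsq
      rw [mk_zero, mk_one]
      nlinarith
    by_contra hcon
    push Not at hcon
    nlinarith [mul_pos hs (sub_pos.2 hcon)]
  have hfin : Dsq (mk (X l) (Y l)) x ≤ g l := by
    by_contra hcon
    push Not at hcon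
    set d := Dsq (mk (X l) (Y l)) x
    have hg0 : 0 ≤ g l := by
      have := key 1 one_pos le_rfl
      linarith
    have hd : 0 < d := lt_of_le_of_lt hg0 hcon
    have := key ((d - g l) / (2 * d)) (by
      have : 0 < d - g l := by linarith
      positivity) (by
      rw [div_le_one (by linarith)]; linarith)
    have h3 : (d - g l) / (2 * d) * d = (d - g l) / 2 := by field_simp
    rw [h3] at this
    linarith
  linarith

/-- Jung's theorem: a finite set of diameter less than `√3` lies in an open unit disc. -/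
theorem jung (C : Finset E2) (hC : C.Nonempty) (D : ℝ)
    (hD : ∀ x ∈ C, ∀ y ∈ C, Dsq x y ≤ D) : ∃ z : E2, ∀ x ∈ C, Dsq z x ≤ D / 3 := by
  have hD0 : 0 ≤ D := by
    obtain ⟨x, hx⟩ := hC
    have := hD x hx x hx
    exact le_trans (Dsq_nonneg x x) this
  have h := Convex.helly_theorem' (𝕜 := ℝ) (F := fun c : E2 => Metric.closedBall c (√(D / 3)))
    (s := C) (fun c _ => convex_closedBall c _) (by
      intro I hI hcard
      have hfr : Module.finrank ℝ E2 = 2 := by simp [E2]
      rw [hfr] at hcard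
      rcases I.eq_empty_or_nonempty with h0 | h0
      · rw [h0]; simp
      · obtain ⟨z, hz⟩ := jung_three I h0 hcard D (fun x hx y hy => hD x (hI hx) y (hI hy))
        refine ⟨z, ?_⟩
        rw [Set.mem_iInter₂]
        intro x hx
        rw [Metric.mem_closedBall, dist_le_iff (Real.sqrt_nonneg _), Real.sq_sqrt (by positivity)]
        exact hz x hx)
  obtain ⟨z, hz⟩ := h
  refine ⟨z, fun x hx => ?_⟩
  rw [Set.mem_iInter₂] at hz
  have := hz x hx
  rwa [Metric.mem_closedBall, dist_le_iff (Real.sqrt_nonneg _), Real.sq_sqrt (by positivity)] at this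

end Pool.Agent.V11159.DP
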