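import Pool.Agent.V11159.DP2

/-!
Disk-polygons, part 4: lower bound for the one-dimensional Hausdorff measure of the boundary.
-/

set_option autoImplicit false

namespace Pool.Agent.V11159.DP

open Real Filter Topology MeasureTheory Set
open scoped NNReal ENNReal

/-- The point of the circle of radius `r` about `c` in direction `θ`. -/
noncomputable def pt (c : E2) (r θ : ℝ) : E2 := mk (c 0 + r * cos θ) (c 1 + r * sin θ)

theorem pt_eq (c : E2) (r θ : ℝ) : pt c r θ = mkST θ (S θ c + r) (T θ c) := by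
  apply ext_ST θ
  · rw [S_mkST]
    unfold pt S
    rw [mk_zero, mk_one]
    linear_combination r * Real.sin_sq_add_cos_sq θ
  · rw [T_mkST]
    unfold pt T
    rw [mk_zero, mk_one]
    ring

theorem Dsq_pt_self (c : E2) (r θ : ℝ) : Dsq (pt c r θ) c = r ^ 2 := by
  unfold Dsq pt
  rw [mk_zero, mk_one]
  linear_combination r ^ 2 * Real.sin_sq_add_cos_sq θ

theorem continuous_pt (c : E2) (r : ℝ) : Continuous (pt c r) := by
  have : pt c r = fun θ => !₂[c 0 + r * cos θ, c 1 + r * sin θ] := rfl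
  rw [this]
  fun_prop

theorem continuous_Dsq_left (c : E2) : Continuous fun p => Dsq p c := by
  unfold Dsq
  fun_prop

theorem Dsq_pt_pt (c : E2) (θ θ' : ℝ) :
    Dsq (pt c 1 θ) (pt c 1 θ') = (2 * sin ((θ - θ') / 2)) ^ 2 := by
  have h1 : (2 * sin ((θ - θ') / 2)) ^ 2 = 2 - 2 * cos (θ - θ') := by
    have := Real.cos_sq ((θ - θ') / 2)
    have h2 : 2 * ((θ - θ') / 2) = θ - θ' := by ring
    rw [h2] at this
    have h3 := Real.sin_sq_add_cos_sq ((θ - θ') / 2)
    nlinarith
  rw [h1, Real.cos_sub]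
  unfold Dsq pt
  simp only [mk_zero, mk_one]
  linear_combination Real.sin_sq_add_cos_sq θ + Real.sin_sq_add_cos_sq θ'

theorem injOn_pt (c : E2) : InjOn (pt c 1) (Ico 0 (2 * π)) := by
  intro θ hθ θ' hθ' h
  have h1 := Dsq_pt_pt c θ θ'
  rw [h] at h1
  have h0 : Dsq (pt c 1 θ') (pt c 1 θ') = 0 := by unfold Dsq; ring
  rw [h0] at h1
  have h2 : sin ((θ - θ') / 2) = 0 := by nlinarith [sq_nonneg (sin ((θ - θ') / 2))]
  have h3 : (θ - θ') / 2 = 0 := by
    apply (Real.sin_eq_zero_iff_of_lt_of_lt ?_ ?_).1 h2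
    · have := hθ.1; have := hθ'.2; linarith
    · have := hθ.2; have := hθ'.1; linarith
  linarith

theorem abs_sub_le_of_near {K : ℝ} (hK : 1 < K) : ∃ δ : ℝ, 0 < δ ∧ ∀ (c : E2) (θ θ' : ℝ),
    |θ - θ'| ≤ δ → |θ - θ'| ≤ K * dist (pt c 1 θ) (pt c 1 θ') := by
  refine ⟨√(24 * (1 - 1 / K)), Real.sqrt_pos.2 ?_, ?_⟩
  · have : 1 / K < 1 := by rw [div_lt_one (by linarith)]; exact hK
    linarith
  · intro c θ θ' h
    rw [dist_eq, Dsq_pt_pt, Real.sqrt_sq_eq_abs]
    rcases eq_or_ne θ θ' with h0 | h0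
    · rw [h0]; simp
    set x := |θ - θ'| / 2 with hx
    have hx0 : 0 < x := by
      have : 0 < |θ - θ'| := abs_pos.2 (sub_ne_zero.2 h0)
      positivity
    have h1 : |2 * sin ((θ - θ') / 2)| = 2 * |sin x| := by
      rw [abs_mul, abs_two, hx]
      rcases abs_cases (θ - θ') with h | h
      · rw [h.1]
      · rw [h.1, neg_div, Real.sin_neg, abs_neg]
    rw [h1]
    have h2 := Real.sin_gt_sub_cube hx0
    have h3 : x ^ 2 ≤ 6 * (1 - 1 / K) := by
      have h4 : |θ - θ'| ^ 2 ≤ 24 * (1 - 1 / K) := by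
        have h5 : 0 ≤ 24 * (1 - 1 / K) := by
          have : 1 / K < 1 := by rw [div_lt_one (by linarith)]; exact hK
          linarith
        calc |θ - θ'| ^ 2 ≤ √(24 * (1 - 1 / K)) ^ 2 := by gcongr
          _ = _ := Real.sq_sqrt h5
      rw [hx]; nlinarith
    have h4 : x * (1 / K) ≤ sin x := by
      have : x ^ 3 / 6 ≤ x * (1 - 1 / K) := by nlinarith
      nlinarith
    have h5 : |θ - θ'| = 2 * x := by rw [hx]; ring
    rw [h5]
    have h6 : x ≤ K * sin x := by
      have hK0 : 0 < K := by linarith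
      have := mul_le_mul_of_nonneg_left h4 hK0.le
      have h7 : K * (x * (1 / K)) = x := by field_simp
      linarith
    have h8 : sin x ≤ |sin x| := le_abs_self _
    nlinarith

theorem volume_le_mul (c : E2) {s : Set ℝ} {K : ℝ≥0} (hs : InjOn (pt c 1) s)
    (h : ∀ θ ∈ s, ∀ θ' ∈ s, |θ - θ'| ≤ K * dist (pt c 1 θ) (pt c 1 θ')) :
    volume s ≤ K * Measure.hausdorffMeasure 1 (pt c 1 '' s) := by
  have h1 : LipschitzOnWith K (Function.invFunOn (pt c 1) s) (pt c 1 '' s) := by
    apply LipschitzOnWith.of_dist_le_mul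
    rintro _ ⟨θ, hθ, rfl⟩ _ ⟨θ', hθ', rfl⟩
    rw [hs.leftInvOn_invFunOn hθ, hs.leftInvOn_invFunOn hθ', Real.dist_eq]
    exact h θ hθ θ' hθ'
  have h2 := h1.hausdorffMeasure_image_le (zero_le_one' ℝ)
  rw [hs.leftInvOn_invFunOn.image_image, hausdorffMeasure_real, ENNReal.rpow_one] at h2
  exact h2

theorem volume_le_hausdorff_aux (c : E2) {s : Set ℝ} (hs : MeasurableSet s)
    (hsub : s ⊆ Ico 0 (2 * π)) {K : ℝ≥0} (hK : 1 < K) :
    volume s ≤ K * Measure.hausdorffMeasure 1 (pt c 1 '' s) := by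
  have hK' : (1 : ℝ) < K := by exact_mod_cast hK
  obtain ⟨δ, hδ, hnear⟩ := abs_sub_le_of_near hK'
  obtain ⟨n, hn⟩ := exists_nat_gt (2 * π / δ)
  have hJ : s = ⋃ k ∈ Finset.range n, s ∩ Ico (k * δ) ((k + 1) * δ) := by
    ext θ
    simp only [mem_iUnion, mem_inter_iff, mem_Ico, Finset.mem_range, exists_prop]
    constructor
    · intro h
      have h0 := hsub h
      refine ⟨⌊θ / δ⌋₊, ?_, h, ?_, ?_⟩
      · rw [Nat.floor_lt (div_nonneg h0.1 hδ.le)]
        have : θ / δ < 2 * π / δ := by
          apply div_lt_div_of_pos_right h0.2 hδ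
        linarith
      · have := Nat.floor_le (div_nonneg h0.1 hδ.le)
        rwa [le_div_iff₀ hδ] at this
      · have := Nat.lt_floor_add_one (θ / δ)
        rwa [div_lt_iff₀ hδ] at this
    · rintro ⟨k, -, h, -⟩
      exact h
  have hinj := (injOn_pt c).mono hsub
  calc volume s = volume (⋃ k ∈ Finset.range n, s ∩ Ico (k * δ) ((k + 1) * δ)) := by rw [← hJ]
    _ ≤ ∑ k ∈ Finset.range n, volume (s ∩ Ico (k * δ) ((k + 1) * δ)) :=
        measure_biUnion_finset_le _ _
    _ ≤ ∑ k ∈ Finset.range n,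
        K * Measure.hausdorffMeasure 1 (pt c 1 '' (s ∩ Ico (k * δ) ((k + 1) * δ))) := by
        apply Finset.sum_le_sum
        intro k _
        apply volume_le_mul c (hinj.mono inter_subset_left)
        intro θ hθ θ' hθ'
        apply hnear
        have h1 := hθ.2
        have h2 := hθ'.2
        simp only [mem_Ico] at h1 h2
        rw [abs_le]
        constructor <;> nlinarith
    _ = K * ∑ k ∈ Finset.range n,
        Measure.hausdorffMeasure 1 (pt c 1 '' (s ∩ Ico (k * δ) ((k + 1) * δ))) := by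
        rw [Finset.mul_sum]
    _ = K * Measure.hausdorffMeasure 1
        (⋃ k ∈ Finset.range n, pt c 1 '' (s ∩ Ico (k * δ) ((k + 1) * δ))) := by
        rw [measure_biUnion_finset]
        · intro i _ j _ hij
          apply disjoint_iff_inter_eq_empty.2
          rw [← hinj.image_inter inter_subset_left inter_subset_left]
          have : s ∩ Ico (i * δ) ((i + 1) * δ) ∩ (s ∩ Ico (j * δ) ((j + 1) * δ)) = ∅ := by
            apply eq_empty_of_forall_notMem
            rintro θ ⟨⟨_, h1⟩, ⟨_, h2⟩⟩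
            apply hij
            have a1 : (i : ℝ) < j + 1 := by
              have : (i : ℝ) * δ < (j + 1) * δ := lt_of_le_of_lt h1.1 h2.2
              exact lt_of_mul_lt_mul_right this hδ.le
            have a2 : (j : ℝ) < i + 1 := by
              have : (j : ℝ) * δ < (i + 1) * δ := lt_of_le_of_lt h2.1 h1.2
              exact lt_of_mul_lt_mul_right this hδ.le
            have b1 : i < j + 1 := by exact_mod_cast a1
            have b2 : j < i + 1 := by exact_mod_cast a2
            omega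
          rw [this, image_empty]
        · intro k _
          exact (hs.inter measurableSet_Ico).image_of_continuousOn_injOn
            (continuous_pt c 1).continuousOn (hinj.mono inter_subset_left)
    _ = K * Measure.hausdorffMeasure 1 (pt c 1 '' s) := by
        rw [← image_iUnion₂, ← hJ]

theorem volume_le_hausdorff (c : E2) {s : Set ℝ} (hs : MeasurableSet s)
    (hsub : s ⊆ Ico 0 (2 * π)) :
    volume s ≤ Measure.hausdorffMeasure 1 (pt c 1 '' s) := by
  by_cases htop : Measure.hausdorffMeasure 1 (pt c 1 '' s) = ∞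
  · rw [htop]; exact le_top
  · set m := Measure.hausdorffMeasure 1 (pt c 1 '' s)
    have h1 : Tendsto (fun n : ℕ => ((1 + 1 / ((n : ℝ≥0) + 1) : ℝ≥0) : ℝ≥0∞) * m) atTop
        (𝓝 (((1 : ℝ≥0) : ℝ≥0∞) * m)) := by
      apply ENNReal.Tendsto.mul_const _ (Or.inr htop)
      rw [ENNReal.tendsto_coe]
      have := (tendsto_one_div_add_atTop_nhds_zero_nat (𝕜 := ℝ≥0)).const_add 1
      simpa using this
    rw [ENNReal.coe_one, one_mul] at h1
    apply ge_of_tendsto' h1
    intro n
    apply volume_le_hausdorff_aux c hs hsub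
    have : (0 : ℝ≥0) < 1 / ((n : ℝ≥0) + 1) := by positivity
    exact lt_add_of_pos_right 1 this

theorem finite_inter_circles {c c' : E2} (h : c ≠ c') (r : ℝ) :
    {p : E2 | dist p c = r ∧ dist p c' = r}.Finite := by
  have hfr : Module.finrank ℝ E2 = 2 := by simp [E2]
  by_cases hs : {p : E2 | dist p c = r ∧ dist p c' = r}.Subsingleton
  · exact hs.finite
  · rw [Set.not_subsingleton_iff] at hs
    obtain ⟨p₁, hp₁, p₂, hp₂, hne⟩ := hs
    apply Set.Finite.subset (Set.toFinite {p₁, p₂})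
    intro p hp
    rcases EuclideanGeometry.eq_of_dist_eq_of_dist_eq_of_finrank_eq_two hfr h hne hp₁.1 hp₂.1 hp.1
      hp₁.2 hp₂.2 hp.2 with h | h
    · exact Or.inl h
    · exact Or.inr h

/-- The good directions. -/
def Good (C : Finset E2) (r : ℝ) : Set ℝ := {θ | ∃ c ∈ C, pt c r θ ∈ DD C r}

theorem isClosed_DD (C : Finset E2) (r : ℝ) : IsClosed (DD C r) := by
  have : DD C r = ⋂ c ∈ C, {p | Dsq p c ≤ r ^ 2} := by
    ext p
    simp only [mem_iInter]
    rfl
  rw [this]
  exact isClosed_biInter fun c _ => isClosed_le (continuous_Dsq_left c) continuous_const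

theorem mem_frontier {C : Finset E2} {c : E2} (hc : c ∈ C) {p : E2} (hp : p ∈ DD C 1)
    (h : Dsq p c = 1) : p ∈ frontier (DD C 1) := by
  rw [(isClosed_DD C 1).frontier_eq]
  refine ⟨hp, fun hint => ?_⟩
  have h1 : DD C 1 ⊆ Metric.closedBall c 1 := by
    rw [DD_eq C zero_le_one]
    exact Set.biInter_subset_of_mem hc
  have h2 := interior_mono h1 hint
  rw [interior_closedBall c one_ne_zero, Metric.mem_ball] at h2
  have h3 : dist p c = 1 := (dist_eq_iff zero_le_one).2 (by rw [h]; norm_num)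
  linarith

theorem partA (C : Finset E2) :
    volume (Good C 1 ∩ Ico 0 (2 * π)) ≤ Measure.hausdorffMeasure 1 (frontier (DD C 1)) := by
  classical
  let A : E2 → Set ℝ := fun c => {θ | pt c 1 θ ∈ DD C 1} ∩ Ico 0 (2 * π)
  have hmeas : ∀ c, MeasurableSet (A c) := fun c =>
    (((isClosed_DD C 1).preimage (continuous_pt c 1)).measurableSet).inter measurableSet_Ico
  have h1 : Good C 1 ∩ Ico 0 (2 * π) = ⋃ c ∈ C, A c := by
    ext θ
    simp only [Good, A, mem_inter_iff, mem_iUnion, exists_prop]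
    constructor
    · rintro ⟨⟨c, hc, h⟩, h'⟩
      exact ⟨c, hc, h, h'⟩
    · rintro ⟨c, hc, h, h'⟩
      exact ⟨⟨c, hc, h⟩, h'⟩
  rw [h1]
  calc volume (⋃ c ∈ C, A c) ≤ ∑ c ∈ C, volume (A c) := measure_biUnion_finset_le _ _
    _ ≤ ∑ c ∈ C, Measure.hausdorffMeasure 1 (pt c 1 '' A c) := by
        apply Finset.sum_le_sum
        intro c _
        exact volume_le_hausdorff c (hmeas c) inter_subset_right
    _ = Measure.hausdorffMeasure 1 (⋃ c ∈ C, pt c 1 '' A c) := by
        rw [measure_biUnion_finset₀]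
        · intro c hc c' hc' hne
          have hfin := finite_inter_circles hne 1
          haveI : NullSingletonClass (Measure.hausdorffMeasure 1 : Measure E2) :=
            Measure.nullSingletonClass_hausdorff E2 one_pos
          apply measure_mono_null _ (hfin.measure_zero _)
          rintro p ⟨⟨θ, _, rfl⟩, ⟨θ', _, h'⟩⟩
          refine ⟨(dist_eq_iff zero_le_one).2 (Dsq_pt_self c 1 θ), ?_⟩
          rw [← h']
          exact (dist_eq_iff zero_le_one).2 (Dsq_pt_self c' 1 θ')
        · intro c _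
          exact ((hmeas c).image_of_continuousOn_injOn (continuous_pt c 1).continuousOn
            ((injOn_pt c).mono inter_subset_right)).nullMeasurableSet
    _ ≤ Measure.hausdorffMeasure 1 (frontier (DD C 1)) := by
        apply measure_mono
        intro p hp
        simp only [mem_iUnion, exists_prop] at hp
        obtain ⟨c, hc, θ, hθ, rfl⟩ := hp
        exact mem_frontier hc hθ.1 (by rw [Dsq_pt_self]; norm_num)

end Pool.Agent.V11159.DP
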