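import Pool.Agent.V11159.DP4

/-!
Disk-polygons, part 5: half of the directions are good when the radius is at least the diameter.
-/

set_option autoImplicit false

namespace Pool.Agent.V11159.DP

open Real Filter Topology MeasureTheory Set
open scoped NNReal ENNReal

theorem Sup_pt {C : Finset E2} {t : ℝ} (ht : 0 < t) {c : E2} (hc : c ∈ C) {θ : ℝ}
    (h : pt c t θ ∈ DD C t) : Sup C t θ (pt c t θ) := by
  refine ⟨h, fun p hp => ?_⟩
  rw [pt_eq, S_mkST]
  have h1 := hp c hc
  rw [Dsq_ST θ] at h1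
  have h2 : S θ p - S θ c ≤ t := by
    apply le_of_sq_le_sq _ ht.le
    nlinarith [sq_nonneg (T θ p - T θ c)]
  linarith

theorem Sup.lip {C : Finset E2} (hC : C.Nonempty) {t : ℝ} (ht : 0 < t) {θ θ' : ℝ} {q q' : E2}
    (h : Sup C t θ q) (h' : Sup C t θ' q') : dist q q' ≤ 2 * t * |θ - θ'| := by
  have h1 := h.ineq hC ht h'.1
  have h2 := h'.ineq hC ht h.1
  rw [Dsq_comm] at h2
  set D := Dsq q' q with hD
  have hD0 : 0 ≤ D := Dsq_nonneg _ _
  have e1 : D ≤ t * ((q' 0 - q 0) * (cos θ' - cos θ) + (q' 1 - q 1) * (sin θ' - sin θ)) := by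
    unfold S at h1 h2
    nlinarith
  have a0 : |q' 0 - q 0| ≤ √D := by
    rw [← Real.sqrt_sq_eq_abs]
    apply Real.sqrt_le_sqrt
    rw [hD]; unfold Dsq; nlinarith [sq_nonneg (q' 1 - q 1)]
  have a1 : |q' 1 - q 1| ≤ √D := by
    rw [← Real.sqrt_sq_eq_abs]
    apply Real.sqrt_le_sqrt
    rw [hD]; unfold Dsq; nlinarith [sq_nonneg (q' 0 - q 0)]
  have b0 := Real.abs_cos_sub_cos_le θ' θ
  have b1 := Real.abs_sin_sub_sin_le θ' θ
  have hab : |θ' - θ| = |θ - θ'| := abs_sub_comm _ _
  rw [hab] at b0 b1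
  have c0 : (q' 0 - q 0) * (cos θ' - cos θ) ≤ √D * |θ - θ'| :=
    (le_abs_self _).trans (by rw [abs_mul]; gcongr)
  have c1 : (q' 1 - q 1) * (sin θ' - sin θ) ≤ √D * |θ - θ'| :=
    (le_abs_self _).trans (by rw [abs_mul]; gcongr)
  have e2 : √D * √D ≤ √D * (2 * t * |θ - θ'|) := by
    rw [Real.mul_self_sqrt hD0]
    nlinarith
  rw [dist_eq, Dsq_comm, ← hD]
  rcases eq_or_lt_of_le (Real.sqrt_nonneg D) with h0 | h0
  · rw [← h0]; positivity
  · exact le_of_mul_le_mul_left e2 h0

section

variable {C : Finset E2} (hC : C.Nonempty) {t : ℝ} (ht : 0 < t) {q : ℝ → E2}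
  (hq : ∀ θ, Sup C t θ (q θ))

include hC ht hq

theorem continuous_q : Continuous q := by
  have : LipschitzWith (Real.toNNReal (2 * t)) q := by
    apply LipschitzWith.of_dist_le_mul
    intro θ θ'
    rw [Real.coe_toNNReal _ (by positivity), Real.dist_eq]
    exact (hq θ).lip hC ht (hq θ')
  exact this.continuous

theorem q_good {θ : ℝ} {c : E2} (hc : c ∈ C) (h : pt c t θ ∈ DD C t) : q θ = pt c t θ :=
  (hq θ).unique hC ht (Sup_pt ht hc h)

theorem q_per (θ : ℝ) : q (θ + 2 * π) = q θ := by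
  apply (hq _).unique hC ht
  refine ⟨(hq θ).1, fun p hp => ?_⟩
  have := (hq θ).2 p hp
  unfold S at this ⊢
  rw [Real.cos_add_two_pi, Real.sin_add_two_pi]
  exact this

theorem width {z : E2} (hz : z ∈ DD C t) (hdiam : ∀ c ∈ C, c ∈ DD C t) (θ : ℝ) :
    t ≤ S θ (q θ) + S (θ + π) (q (θ + π)) := by
  have hy : mkST θ (S θ (q θ) - t) (T θ (q θ)) ∈ DD C t := by
    intro c hc
    have h1 := (hq θ).ineq hC ht (hdiam c hc)
    have h2 := (hq θ).1 c hc
    rw [Dsq_comm] at h1
    rw [Dsq_ST θ] at h1 h2 ⊢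
    rw [S_mkST, T_mkST]
    nlinarith
  have h3 := (hq (θ + π)).2 _ hy
  have h4 : ∀ p : E2, S (θ + π) p = - S θ p := by
    intro p; unfold S; rw [Real.cos_add_pi, Real.sin_add_pi]; ring
  rw [h4 (mkST _ _ _), S_mkST] at h3
  linarith

end

theorem hasDerivAt_T (c : E2) (θ : ℝ) : HasDerivAt (fun θ => T θ c) (-S θ c) θ := by
  unfold T S
  have h1 := (Real.hasDerivAt_cos θ).const_mul (c 1)
  have h2 := (Real.hasDerivAt_sin θ).const_mul (c 0)
  have h3 := h1.sub h2
  have e : -(c 0 * cos θ + c 1 * sin θ) = c 1 * -sin θ - c 0 * cos θ := by ring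
  rw [e]
  exact h3

theorem injOn_pt' (c : E2) {t : ℝ} (ht : 0 < t) : InjOn (pt c t) (Ico 0 (2 * π)) := by
  intro θ hθ θ' hθ' h
  apply injOn_pt c hθ hθ'
  have h0 := congrArg (fun p : E2 => p 0) h
  have h1 := congrArg (fun p : E2 => p 1) h
  unfold pt at h0 h1 ⊢
  simp only [mk_zero, mk_one] at h0 h1
  have e0 : cos θ = cos θ' := by
    have : t * cos θ = t * cos θ' := by linarith
    exact mul_left_cancel₀ ht.ne' this
  have e1 : sin θ = sin θ' := by
    have : t * sin θ = t * sin θ' := by linarith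
    exact mul_left_cancel₀ ht.ne' this
  rw [e0, e1]

theorem isClosed_A (C : Finset E2) (c : E2) (t : ℝ) : IsClosed {θ | pt c t θ ∈ DD C t} :=
  (isClosed_DD C t).preimage (continuous_pt c t)

theorem Good_eq (C : Finset E2) (t : ℝ) : Good C t = ⋃ c ∈ C, {θ | pt c t θ ∈ DD C t} := by
  ext θ
  simp only [Good, mem_iUnion, exists_prop]
  rfl

theorem isClosed_Good (C : Finset E2) (t : ℝ) : IsClosed (Good C t) := by
  rw [Good_eq]
  exact C.finite_toSet.isClosed_biUnion fun c _ => isClosed_A C c t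

/-- The exceptional directions. -/
def Exc (C : Finset E2) (t : ℝ) : Set ℝ :=
  ⋃ c ∈ C, ⋃ c' ∈ C, {θ | c ≠ c' ∧ θ ∈ Ico 0 (2 * π) ∧ Dsq (pt c t θ) c' = t ^ 2}

theorem finite_Exc (C : Finset E2) {t : ℝ} (ht : 0 < t) : (Exc C t).Finite := by
  apply C.finite_toSet.biUnion
  intro c _
  apply C.finite_toSet.biUnion
  intro c' _
  by_cases h : c = c'
  · apply Set.Finite.subset Set.finite_empty
    rintro θ ⟨h1, -⟩
    exact h1 h
  · apply Set.Finite.of_finite_image (f := pt c t)
    · apply (finite_inter_circles h t).subset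
      rintro _ ⟨θ, ⟨-, -, h1⟩, rfl⟩
      exact ⟨(dist_eq_iff ht.le).2 (Dsq_pt_self c t θ), (dist_eq_iff ht.le).2 h1⟩
    · exact (injOn_pt' c ht).mono fun θ h => h.2.1

theorem hasDerivAt_G {C : Finset E2} (hC : C.Nonempty) {t : ℝ} (ht : 0 < t) {q : ℝ → E2}
    (hq : ∀ θ, Sup C t θ (q θ)) {z : E2} (hz : ∀ c ∈ C, Dsq z c < t ^ 2) {θ : ℝ}
    (hθ : θ ∈ Ioo 0 (2 * π)) (hex : θ ∉ Exc C t) :
    HasDerivAt (fun θ => T θ (q θ)) ((Good C t).indicator (fun _ => t) θ - S θ (q θ)) θ := by
  classical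
  have hcont := continuous_q hC ht hq
  by_cases hg : θ ∈ Good C t
  · obtain ⟨c, hc, hcθ⟩ := hg
    have hint : ∀ᶠ φ in 𝓝 θ, pt c t φ ∈ DD C t := by
      have : ∀ c' ∈ C, ∀ᶠ φ in 𝓝 θ, Dsq (pt c t φ) c' ≤ t ^ 2 := by
        intro c' hc'
        by_cases h : c = c'
        · rw [← h]
          exact Eventually.of_forall fun φ => (Dsq_pt_self c t φ).le
        · have hlt : Dsq (pt c t θ) c' < t ^ 2 := by
            refine lt_of_le_of_ne (hcθ c' hc') fun heq => hex ?_
            simp only [Exc, mem_iUnion]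
            exact ⟨c, hc, c', hc', h, ⟨hθ.1.le, hθ.2⟩, heq⟩
          have hc1 : Continuous fun φ => Dsq (pt c t φ) c' :=
            (continuous_Dsq_left c').comp (continuous_pt c t)
          filter_upwards [hc1.continuousAt.eventually_lt continuousAt_const hlt] with φ hφ
          exact hφ.le
      exact (Filter.eventually_all_finset C).2 this
    have hev : (fun θ => T θ (q θ)) =ᶠ[𝓝 θ] fun θ => T θ c := by
      filter_upwards [hint] with φ hφ
      rw [q_good hC ht hq hc hφ, pt_eq, T_mkST]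
    have h1 := (hasDerivAt_T c θ).congr_of_eventuallyEq hev
    have hmem : θ ∈ Good C t := ⟨c, hc, hcθ⟩
    have e : (Good C t).indicator (fun _ => t) θ - S θ (q θ) = -S θ c := by
      rw [indicator_of_mem hmem, q_good hC ht hq hc hcθ, pt_eq, S_mkST]
      ring
    rw [e]
    exact h1
  · -- bad directions
    let F : Set E2 := ⋃ c ∈ C, ⋃ c' ∈ C, {p | c ≠ c' ∧ dist p c = t ∧ dist p c' = t}
    have hF : F.Finite := by
      apply C.finite_toSet.biUnion
      intro c _
      apply C.finite_toSet.biUnion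
      intro c' _
      by_cases h : c = c'
      · apply Set.Finite.subset Set.finite_empty
        rintro θ ⟨h1, -⟩
        exact h1 h
      · apply (finite_inter_circles h t).subset
        rintro p ⟨-, h1⟩
        exact h1
    have hqF : ∀ φ, φ ∉ Good C t → q φ ∈ F := by
      intro φ hφ
      rcases (hq φ).kkt hC ht hz with ⟨c, hc, h⟩ | ⟨c, hc, c', hc', h1, h2, h3, h4, -⟩
      · exfalso
        apply hφ
        refine ⟨c, hc, ?_⟩
        rw [pt_eq, ← h]
        exact (hq φ).1
      · simp only [F, mem_iUnion]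
        refine ⟨c, hc, c', hc', ?_, (dist_eq_iff ht.le).2 h1, (dist_eq_iff ht.le).2 h2⟩
        rintro rfl
        linarith
    have hopen : ∀ᶠ φ in 𝓝 θ, φ ∉ Good C t := (isClosed_Good C t).isOpen_compl.mem_nhds hg
    have hcl : IsClosed (F \ {q θ}) := (hF.subset sdiff_subset).isClosed
    have hnear : ∀ᶠ φ in 𝓝 θ, q φ ∉ F \ {q θ} :=
      (hcont.continuousAt (x := θ)).preimage_mem_nhds (hcl.isOpen_compl.mem_nhds (by simp))
    have hev : (fun φ => T φ (q φ)) =ᶠ[𝓝 θ] fun φ => T φ (q θ) := by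
      filter_upwards [hopen, hnear] with φ h1 h2
      have h3 := hqF φ h1
      have h4 : q φ = q θ := by
        by_contra hne
        exact h2 ⟨h3, hne⟩
      rw [h4]
    have h1 := (hasDerivAt_T (q θ) θ).congr_of_eventuallyEq hev
    have e : (Good C t).indicator (fun _ => t) θ - S θ (q θ) = -S θ (q θ) := by
      rw [indicator_of_notMem hg]
      ring
    rw [e]
    exact h1

theorem partC {C : Finset E2} (hC : C.Nonempty) {t : ℝ} (ht : 0 < t) {z : E2}
    (hz : ∀ c ∈ C, Dsq z c < t ^ 2) (hdiam : ∀ c ∈ C, c ∈ DD C t) :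
    ENNReal.ofReal π ≤ volume (Good C t ∩ Ico 0 (2 * π)) := by
  have hzD : z ∈ DD C t := fun c hc => (hz c hc).le
  choose q hq using fun θ => exists_Sup hC ht.le ⟨z, hzD⟩ θ
  have hcont := continuous_q hC ht hq
  have hS : Continuous fun θ => S θ (q θ) := by
    unfold S
    fun_prop
  have hT : Continuous fun θ => T θ (q θ) := by
    unfold T
    fun_prop
  have hmeas : MeasurableSet (Good C t) := (isClosed_Good C t).measurableSet
  have hind : IntervalIntegrable ((Good C t).indicator fun _ => t) volume 0 (2 * π) := by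
    rw [intervalIntegrable_iff]
    exact (integrableOn_const (by rw [uIoc_of_le (by positivity), Real.volume_Ioc]; exact ENNReal.ofReal_ne_top)).indicator hmeas
  have hSi : ∀ a b : ℝ, IntervalIntegrable (fun θ => S θ (q θ)) volume a b := fun a b =>
    hS.intervalIntegrable a b
  have h1 : ∫ θ in (0 : ℝ)..(2 * π), ((Good C t).indicator (fun _ => t) θ - S θ (q θ)) =
      T (2 * π) (q (2 * π)) - T 0 (q 0) := by
    apply MeasureTheory.integral_eq_of_hasDerivAt_off_countable_of_le
      (fun θ => T θ (q θ)) _ (by positivity) (finite_Exc C ht).countable hT.continuousOn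
    · rintro θ ⟨h1, h2⟩
      exact hasDerivAt_G hC ht hq hz h1 h2
    · exact hind.sub (hSi _ _)
  have h2 : T (2 * π) (q (2 * π)) - T 0 (q 0) = 0 := by
    have := q_per hC ht hq 0
    rw [zero_add] at this
    rw [this]
    unfold T
    rw [Real.cos_two_pi, Real.sin_two_pi, Real.cos_zero, Real.sin_zero]
    ring
  rw [h2, intervalIntegral.integral_sub hind (hSi _ _)] at h1
  have h3 : ∫ θ in (0 : ℝ)..(2 * π), (Good C t).indicator (fun _ => t) θ =
      t * (volume (Good C t ∩ Ico 0 (2 * π))).toReal := by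
    rw [intervalIntegral.integral_of_le (by positivity), setIntegral_indicator hmeas,
      setIntegral_const, smul_eq_mul, mul_comm, Measure.real]
    congr 2
    rw [inter_comm]
    apply measure_congr
    exact (ae_eq_refl _).inter Ioc_ae_eq_Icc |>.trans ((ae_eq_refl _).inter Ico_ae_eq_Icc.symm)
  have h4 : ∫ θ in (0 : ℝ)..(2 * π), S θ (q θ) =
      ∫ θ in (0 : ℝ)..π, (S θ (q θ) + S (θ + π) (q (θ + π))) := by
    rw [← intervalIntegral.integral_add_adjacent_intervals (hSi 0 π) (hSi π (2 * π)),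
      intervalIntegral.integral_add (hSi _ _)]
    · congr 1
      have := intervalIntegral.integral_comp_add_right (a := 0) (b := π)
        (fun θ => S θ (q θ)) π
      rw [this]
      congr 1 <;> ring
    · apply Continuous.intervalIntegrable
      exact hS.comp (continuous_id.add continuous_const)
  have h5 : t * π ≤ ∫ θ in (0 : ℝ)..π, (S θ (q θ) + S (θ + π) (q (θ + π))) := by
    have h6 : ∫ _ in (0 : ℝ)..π, t = t * π := by
      rw [intervalIntegral.integral_const, smul_eq_mul]; ring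
    rw [← h6]
    apply intervalIntegral.integral_mono_on Real.pi_pos.le
    · simp
    · apply Continuous.intervalIntegrable
      exact hS.add (hS.comp (continuous_id.add continuous_const))
    · intro θ _
      exact width hC ht hq hzD hdiam θ
  have h7 : t * π ≤ t * (volume (Good C t ∩ Ico 0 (2 * π))).toReal := by
    rw [← h3]; linarith
  have h8 := le_of_mul_le_mul_left h7 ht
  rw [ENNReal.ofReal_le_iff_le_toReal]
  · exact h8
  · apply ne_of_lt
    calc volume (Good C t ∩ Ico 0 (2 * π)) ≤ volume (Ico 0 (2 * π)) := measure_mono inter_subset_right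
      _ < ∞ := by rw [Real.volume_Ico]; exact ENNReal.ofReal_lt_top

end Pool.Agent.V11159.DP
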