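import Pool.Agent.V11159.DP5

/-!
Disk-polygons, part 6: geometry of the edges.
-/

set_option autoImplicit false

namespace Pool.Agent.V11159.DP

open Real Filter Topology MeasureTheory Set

/-- Position of a centre whose large circle is good between two hull neighbours. -/
theorem lens_pos {A B k h t σ κ : ℝ} (hk : 0 < k) (hh : 0 ≤ h) (hkh : k ^ 2 + h ^ 2 = 1)
    (ht : 0 < t) (hσκ : σ ^ 2 + κ ^ 2 = 1) (hκ : 0 < κ) (hσ : |t * σ| < k)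
    (h1 : A ^ 2 + (B - h) ^ 2 ≤ 1)
    (h2 : (A + t * σ - k) ^ 2 + (B + t * κ) ^ 2 ≤ t ^ 2)
    (h3 : (A + t * σ + k) ^ 2 + (B + t * κ) ^ 2 ≤ t ^ 2) : B ≤ 0 ∧ |A| ≤ k := by
  have hσ1 := (abs_lt.1 hσ).1
  have hσ2 := (abs_lt.1 hσ).2
  have e2 : (A - k) ^ 2 + B ^ 2 + 2 * (t * σ) * (A - k) + 2 * t * κ * B ≤ 0 := by
    have : t ^ 2 * (σ ^ 2 + κ ^ 2) = t ^ 2 := by rw [hσκ, mul_one]
    nlinarith
  have e3 : (A + k) ^ 2 + B ^ 2 + 2 * (t * σ) * (A + k) + 2 * t * κ * B ≤ 0 := by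
    have : t ^ 2 * (σ ^ 2 + κ ^ 2) = t ^ 2 := by rw [hσκ, mul_one]
    nlinarith
  have htκ : 0 < t * κ := mul_pos ht hκ
  have hB : B ≤ 0 := by
    by_contra hB
    push Not at hB
    have hBκ : 0 < t * κ * B := mul_pos htκ hB
    rcases lt_trichotomy A (-k) with h | h | h
    · -- A < -k
      have h4 : (A - k) * ((A - k) + 2 * (t * σ)) ≤ 0 := by nlinarith [sq_nonneg B]
      nlinarith
    · rw [h] at e2
      nlinarith [sq_nonneg B]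
    · rcases le_or_gt A k with h' | h'
      · nlinarith [mul_le_mul_of_nonneg_left e2 (show 0 ≤ A + k by linarith),
          mul_le_mul_of_nonneg_left e3 (show 0 ≤ k - A by linarith), sq_nonneg B,
          mul_nonneg (show 0 ≤ A + k by linarith) (show 0 ≤ k - A by linarith)]
      · have h4 : (A + k) * ((A + k) + 2 * (t * σ)) ≤ 0 := by nlinarith [sq_nonneg B]
        nlinarith
  refine ⟨hB, ?_⟩
  apply abs_le_of_sq_le_sq _ hk.le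
  nlinarith [mul_nonneg (neg_nonneg.2 hB) hh]

/-- Such a centre is redundant. -/
theorem lens_red {A B k h x y : ℝ} (hk : 0 < k) (hh : 0 ≤ h) (hkh : k ^ 2 + h ^ 2 = 1)
    (h1 : A ^ 2 + (B - h) ^ 2 ≤ 1) (hB : B ≤ 0) (hA : |A| ≤ k)
    (hx : (x - k) ^ 2 + y ^ 2 ≤ 1) (hy : (x + k) ^ 2 + y ^ 2 ≤ 1) :
    (x - A) ^ 2 + (y - B) ^ 2 ≤ 1 := by
  have hA1 := (abs_le.1 hA).1
  have hA2 := (abs_le.1 hA).2
  have hyh : y ≤ h := by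
    apply le_of_sq_le_sq _ hh
    nlinarith [sq_nonneg x]
  have e1 : 2 * k * (x ^ 2 - 2 * A * x + k ^ 2 + y ^ 2) ≤ 2 * k := by
    nlinarith [mul_le_mul_of_nonneg_left hx (show 0 ≤ k + A by linarith),
      mul_le_mul_of_nonneg_left hy (show 0 ≤ k - A by linarith)]
  have e2 : x ^ 2 - 2 * A * x + k ^ 2 + y ^ 2 ≤ 1 := by
    by_contra hcon
    push Not at hcon
    nlinarith
  nlinarith [mul_nonneg (neg_nonneg.2 hB) (sub_nonneg.2 hyh)]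

/-- Redundancy of a centre on the unit circle about a vertex. -/
theorem circle_red {s₁ τ₁ s₂ τ₂ s τ x y : ℝ} (hu : s₁ ^ 2 + τ₁ ^ 2 = 1) (hv : s₂ ^ 2 + τ₂ ^ 2 = 1)
    (hw : s ^ 2 + τ ^ 2 = 1) (h1 : 0 < s₁ * τ - τ₁ * s) (h2 : 0 < s * τ₂ - τ * s₂)
    (h3 : 0 < s₁ * τ₂ - τ₁ * s₂) (hx : (x + s₁) ^ 2 + (y + τ₁) ^ 2 ≤ 1)
    (hy : (x + s₂) ^ 2 + (y + τ₂) ^ 2 ≤ 1) : (x + s) ^ 2 + (y + τ) ^ 2 ≤ 1 := by
  set D := s₁ * τ₂ - τ₁ * s₂ with hD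
  set a := s * τ₂ - τ * s₂ with ha
  set b := s₁ * τ - τ₁ * s with hb
  have e1 : D * s = a * s₁ + b * s₂ := by rw [hD, ha, hb]; ring
  have e2 : D * τ = a * τ₁ + b * τ₂ := by rw [hD, ha, hb]; ring
  have hDab : D ≤ a + b := by
    apply le_of_sq_le_sq _ (by positivity)
    have e3 : D ^ 2 = (a * s₁ + b * s₂) ^ 2 + (a * τ₁ + b * τ₂) ^ 2 := by
      rw [← e1, ← e2]
      linear_combination (-D ^ 2) * hw
    have e4 : s₁ * s₂ + τ₁ * τ₂ ≤ 1 := by nlinarith [sq_nonneg (s₁ - s₂), sq_nonneg (τ₁ - τ₂)]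
    have e5 : (a * s₁ + b * s₂) ^ 2 + (a * τ₁ + b * τ₂) ^ 2 =
        a ^ 2 + b ^ 2 + 2 * (a * b) * (s₁ * s₂ + τ₁ * τ₂) := by
      linear_combination a ^ 2 * hu + b ^ 2 * hv
    rw [e3, e5]
    nlinarith [mul_le_mul_of_nonneg_left e4 (mul_pos h2 h1).le]
  have f1 : x ^ 2 + y ^ 2 + 2 * (x * s₁ + y * τ₁) ≤ 0 := by nlinarith
  have f2 : x ^ 2 + y ^ 2 + 2 * (x * s₂ + y * τ₂) ≤ 0 := by nlinarith
  have f3 : D * (x ^ 2 + y ^ 2 + 2 * (x * s + y * τ)) ≤ 0 := by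
    have e5 : D * (x ^ 2 + y ^ 2 + 2 * (x * s + y * τ)) = D * (x ^ 2 + y ^ 2) +
        2 * (x * (D * s) + y * (D * τ)) := by ring
    rw [e5, e1, e2]
    nlinarith [mul_le_mul_of_nonneg_left f1 h2.le, mul_le_mul_of_nonneg_left f2 h1.le,
      mul_le_mul_of_nonneg_right hDab (show 0 ≤ x ^ 2 + y ^ 2 by positivity)]
  have f4 : x ^ 2 + y ^ 2 + 2 * (x * s + y * τ) ≤ 0 := by
    by_contra hcon
    push Not at hcon
    nlinarith [mul_pos h3 hcon]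
  nlinarith

/-- Two unit vectors in an open half-plane with vanishing determinant are equal. -/
theorem unit_eq {s₁ τ₁ s₂ τ₂ a b : ℝ} (hu : s₁ ^ 2 + τ₁ ^ 2 = 1) (hv : s₂ ^ 2 + τ₂ ^ 2 = 1)
    (h : s₁ * τ₂ - τ₁ * s₂ = 0) (h1 : 0 < a * s₁ + b * τ₁) (h2 : 0 < a * s₂ + b * τ₂) :
    s₁ = s₂ ∧ τ₁ = τ₂ := by
  have e : (s₁ * s₂ + τ₁ * τ₂ - 1) * (s₁ * s₂ + τ₁ * τ₂ + 1) = 0 := by
    have : (s₁ * s₂ + τ₁ * τ₂) ^ 2 + (s₁ * τ₂ - τ₁ * s₂) ^ 2 = 1 := by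
      have : (s₁ * s₂ + τ₁ * τ₂) ^ 2 + (s₁ * τ₂ - τ₁ * s₂) ^ 2 =
        (s₁ ^ 2 + τ₁ ^ 2) * (s₂ ^ 2 + τ₂ ^ 2) := by ring
      rw [this, hu, hv]; norm_num
    rw [h] at this
    nlinarith
  rcases mul_eq_zero.1 e with e | e
  · have h3 : (s₁ - s₂) ^ 2 + (τ₁ - τ₂) ^ 2 = 0 := by nlinarith
    constructor
    · nlinarith [sq_nonneg (s₁ - s₂), sq_nonneg (τ₁ - τ₂)]
    · nlinarith [sq_nonneg (s₁ - s₂), sq_nonneg (τ₁ - τ₂)]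
  · exfalso
    have h3 : (s₁ + s₂) ^ 2 + (τ₁ + τ₂) ^ 2 = 0 := by nlinarith
    have h4 : s₁ + s₂ = 0 := by nlinarith [sq_nonneg (s₁ + s₂), sq_nonneg (τ₁ + τ₂)]
    have h5 : τ₁ + τ₂ = 0 := by nlinarith [sq_nonneg (s₁ + s₂), sq_nonneg (τ₁ + τ₂)]
    have h6 : s₂ = -s₁ := by linarith
    have h7 : τ₂ = -τ₁ := by linarith
    rw [h6, h7] at h2
    linarith

theorem exists_angle {x y : ℝ} (h : x ^ 2 + y ^ 2 = 1) : ∃ α : ℝ, cos α = x ∧ sin α = y := by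
  have hn : ‖(⟨x, y⟩ : ℂ)‖ = 1 := by
    rw [Complex.norm_def, Complex.normSq_mk, Real.sqrt_eq_one]
    nlinarith
  have hz : (⟨x, y⟩ : ℂ) ≠ 0 := by
    intro h0; rw [h0, norm_zero] at hn; exact zero_ne_one hn
  refine ⟨Complex.arg ⟨x, y⟩, ?_, ?_⟩
  · rw [Complex.cos_arg hz, hn, div_one]
  · rw [Complex.sin_arg, hn, div_one]

end Pool.Agent.V11159.DP
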