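import Pool.Agent.V11159.DP6

/-!
Disk-polygons, part 7: the arcs of the edges.
-/

set_option autoImplicit false

namespace Pool.Agent.V11159.DP

open Real Filter Topology MeasureTheory Set

/-- The data of an edge: two centres on the unit circle about the vertex `q`. -/
structure EdgeData (C : Finset E2) (c c' q : E2) (ν a : ℝ) : Prop where
  mem : c ∈ C
  mem' : c' ∈ C
  hq : q ∈ DD C 1
  ha : 0 < a
  ha' : a < π / 2
  h0 : c 0 = q 0 - cos (ν - a)
  h1 : c 1 = q 1 - sin (ν - a)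
  h0' : c' 0 = q 0 - cos (ν + a)
  h1' : c' 1 = q 1 - sin (ν + a)

/-- The open arc with centre `ν` and half-length `a`. -/
def Arc (ν a : ℝ) : Set ℝ := {θ | cos a < cos (θ - ν)}

theorem S_of {c q : E2} {β : ℝ} (h0 : c 0 = q 0 - cos β) (h1 : c 1 = q 1 - sin β) (θ : ℝ) :
    S θ c = S θ q - cos (β - θ) := by
  unfold S; rw [h0, h1, Real.cos_sub]; ring

theorem T_of {c q : E2} {β : ℝ} (h0 : c 0 = q 0 - cos β) (h1 : c 1 = q 1 - sin β) (θ : ℝ) :
    T θ c = T θ q - sin (β - θ) := by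
  unfold T; rw [h0, h1, Real.sin_sub]; ring

theorem arc_facts {ν a θ : ℝ} (ha : 0 < a) (ha' : a < π / 2) (h : θ ∈ Arc ν a) :
    0 < cos (θ - ν) ∧ |sin (θ - ν)| < sin a ∧ 0 < sin (θ - ν + a) ∧ 0 < sin (a - (θ - ν)) := by
  have hca : 0 < cos a := Real.cos_pos_of_mem_Ioo ⟨by linarith, ha'⟩
  have hsa : 0 < sin a := Real.sin_pos_of_pos_of_lt_pi ha (by linarith [Real.pi_pos])
  have h' : cos a < cos (θ - ν) := h
  set x := θ - ν
  have hcx : 0 < cos x := hca.trans h'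
  have hs : |sin x| < sin a := by
    apply abs_lt_of_sq_lt_sq _ hsa.le
    nlinarith [Real.sin_sq_add_cos_sq x, Real.sin_sq_add_cos_sq a]
  have h1 := (abs_lt.1 hs).1
  have h2 := (abs_lt.1 hs).2
  refine ⟨hcx, hs, ?_, ?_⟩
  · rw [Real.sin_add]
    rcases le_or_gt 0 (sin x) with h | h
    · have := mul_pos hcx hsa
      have := mul_nonneg h hca.le
      linarith
    · nlinarith [mul_pos hca hsa]
  · rw [Real.sin_sub]
    rcases le_or_gt 0 (sin x) with h | h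
    · nlinarith [mul_pos hca hsa]
    · nlinarith [mul_pos hcx hsa, mul_pos hca (neg_pos.2 h)]

theorem mem_arc {ν a θ : ℝ} (ha : 0 < a) (ha' : a < π / 2) (h1 : sin (ν - a - θ) < 0)
    (h2 : 0 < sin (ν + a - θ)) : θ ∈ Arc ν a := by
  have hca : 0 < cos a := Real.cos_pos_of_mem_Ioo ⟨by linarith, ha'⟩
  have hsa : 0 < sin a := Real.sin_pos_of_pos_of_lt_pi ha (by linarith [Real.pi_pos])
  have e1 : ν - a - θ = -(θ - ν + a) := by ring
  have e2 : ν + a - θ = a - (θ - ν) := by ring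
  rw [e1, Real.sin_neg] at h1
  rw [e2] at h2
  show cos a < cos (θ - ν)
  set x := θ - ν
  have h1' : 0 < sin (x + a) := by linarith
  have e3 : sin (x + a) + sin (a - x) = 2 * sin a * cos x := by
    rw [Real.sin_add x a, Real.sin_sub a x]; ring
  have hcx : 0 < cos x := by
    have : 0 < 2 * sin a * cos x := by rw [← e3]; linarith
    have h3 : 0 < 2 * sin a := by linarith
    exact (mul_pos_iff_of_pos_left h3).1 this
  have e4 : sin (x + a) * sin (a - x) = cos x ^ 2 - cos a ^ 2 := by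
    rw [Real.sin_add x a, Real.sin_sub a x]
    have k1 := Real.sin_sq_add_cos_sq x
    have k2 := Real.sin_sq_add_cos_sq a
    linear_combination (cos a ^ 2) * (-k1) + (cos x ^ 2) * k2
  have h4 : cos a ^ 2 < cos x ^ 2 := by
    have := mul_pos h1' h2
    rw [e4] at this
    linarith
  exact lt_of_pow_lt_pow_left₀ 2 hcx.le h4

theorem EdgeData.active {C : Finset E2} {c c' q : E2} {ν a : ℝ} (h : EdgeData C c c' q ν a) :
    Dsq q c = 1 ∧ Dsq q c' = 1 := by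
  unfold Dsq
  rw [h.h0, h.h1, h.h0', h.h1']
  constructor
  · have := Real.sin_sq_add_cos_sq (ν - a)
    nlinarith
  · have := Real.sin_sq_add_cos_sq (ν + a)
    nlinarith

theorem EdgeData.Sup {C : Finset E2} {c c' q : E2} {ν a θ : ℝ} (h : EdgeData C c c' q ν a)
    (hθ : θ ∈ Arc ν a) : Sup C 1 θ q := by
  obtain ⟨hcx, -, h1, h2⟩ := arc_facts h.ha h.ha' hθ
  refine ⟨h.hq, fun p hp => ?_⟩
  have f1 := hp c h.mem
  have f2 := hp c' h.mem'
  rw [Dsq_ST θ, S_of h.h0 h.h1, T_of h.h0 h.h1] at f1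
  rw [Dsq_ST θ, S_of h.h0' h.h1', T_of h.h0' h.h1'] at f2
  have e1 : ν - a - θ = -(θ - ν + a) := by ring
  have e2 : ν + a - θ = a - (θ - ν) := by ring
  rw [e1, Real.cos_neg, Real.sin_neg] at f1
  rw [e2] at f2
  set x := θ - ν
  set y := S θ p - S θ q with hy
  set w := T θ p - T θ q with hw
  have g1 : y ^ 2 + w ^ 2 + 2 * (y * cos (x + a) - w * sin (x + a)) ≤ 0 := by
    have := Real.sin_sq_add_cos_sq (x + a)
    nlinarith
  have g2 : y ^ 2 + w ^ 2 + 2 * (y * cos (a - x) + w * sin (a - x)) ≤ 0 := by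
    have := Real.sin_sq_add_cos_sq (a - x)
    nlinarith
  have g3 : sin (a - x) * cos (x + a) + sin (x + a) * cos (a - x) = 2 * (sin a * cos a) := by
    have : sin (a - x) * cos (x + a) + sin (x + a) * cos (a - x) = sin ((a - x) + (x + a)) := by
      rw [Real.sin_add (a - x) (x + a)]; ring
    rw [this]
    have e : a - x + (x + a) = 2 * a := by ring
    rw [e, Real.sin_two_mul]; ring
  have hca : 0 < cos a := Real.cos_pos_of_mem_Ioo ⟨by linarith [h.ha, h.ha'], h.ha'⟩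
  have hsa : 0 < sin a := Real.sin_pos_of_pos_of_lt_pi h.ha (by linarith [Real.pi_pos, h.ha'])
  have g4 : y * (sin a * cos a) ≤ 0 := by
    have k1 := mul_le_mul_of_nonneg_left g1 h2.le
    have k2 := mul_le_mul_of_nonneg_left g2 h1.le
    have k3 : 0 ≤ (sin (a - x) + sin (x + a)) * (y ^ 2 + w ^ 2) := by positivity
    have k4 : sin (a - x) * (y ^ 2 + w ^ 2 + 2 * (y * cos (x + a) - w * sin (x + a))) +
      sin (x + a) * (y ^ 2 + w ^ 2 + 2 * (y * cos (a - x) + w * sin (a - x))) =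
      (sin (a - x) + sin (x + a)) * (y ^ 2 + w ^ 2) + 2 * y *
        (sin (a - x) * cos (x + a) + sin (x + a) * cos (a - x)) := by ring
    rw [g3] at k4
    nlinarith
  have g5 : y ≤ 0 := by
    by_contra hcon
    push Not at hcon
    nlinarith [mul_pos hcon (mul_pos hsa hca)]
  linarith

/-- Irredundancy. -/
def Irr (C : Finset E2) : Prop :=
  ∀ m ∈ C, ¬ ∀ z, (∀ x ∈ C, x ≠ m → Dsq z x ≤ 1) → Dsq z m ≤ 1

theorem no_between {C : Finset E2} (hI : Irr C) {c m c' q : E2} (hc : c ∈ C) (hm : m ∈ C)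
    (hc' : c' ∈ C) (θ : ℝ) (a1 : Dsq q c = 1) (a2 : Dsq q m = 1) (a3 : Dsq q c' = 1)
    (d1 : 0 < (S θ q - S θ c) * (T θ q - T θ m) - (T θ q - T θ c) * (S θ q - S θ m))
    (d2 : 0 < (S θ q - S θ m) * (T θ q - T θ c') - (T θ q - T θ m) * (S θ q - S θ c'))
    (d3 : 0 < (S θ q - S θ c) * (T θ q - T θ c') - (T θ q - T θ c) * (S θ q - S θ c')) :
    False := by
  apply hI m hm
  intro z hz
  have hcm : c ≠ m := by
    rintro rfl
    have : (S θ q - S θ c) * (T θ q - T θ c) - (T θ q - T θ c) * (S θ q - S θ c) = 0 := by ring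
    linarith
  have hcm' : c' ≠ m := by
    rintro rfl
    have : (S θ q - S θ c') * (T θ q - T θ c') - (T θ q - T θ c') * (S θ q - S θ c') = 0 := by ring
    linarith
  have h1 := hz c hc hcm
  have h2 := hz c' hc' hcm'
  rw [Dsq_ST θ] at a1 a2 a3 h1 h2 ⊢
  have key := circle_red a1 a3 a2 d1 d2 d3 (x := S θ z - S θ q) (y := T θ z - T θ q)
    (by nlinarith) (by nlinarith)
  nlinarith

/-- Edges with overlapping arcs coincide. -/
theorem edge_unique {C : Finset E2} (hI : Irr C) {z : E2} (hz : ∀ x ∈ C, Dsq z x < 1)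
    {c₁ c₁' q₁ c₂ c₂' q₂ : E2} {ν₁ a₁ ν₂ a₂ θ : ℝ} (h₁ : EdgeData C c₁ c₁' q₁ ν₁ a₁)
    (h₂ : EdgeData C c₂ c₂' q₂ ν₂ a₂) (hθ₁ : θ ∈ Arc ν₁ a₁) (hθ₂ : θ ∈ Arc ν₂ a₂) :
    c₁ = c₂ ∧ c₁' = c₂' := by
  have hC : C.Nonempty := ⟨c₁, h₁.mem⟩
  have hqq : q₁ = q₂ := (h₁.Sup hθ₁).unique hC one_pos (h₂.Sup hθ₂)
  subst hqq
  have hsup := h₁.Sup hθ₁
  have hzD : z ∈ DD C 1 := fun x hx => by rw [one_pow]; exact (hz x hx).le
  obtain ⟨act1, act1'⟩ := h₁.active
  obtain ⟨act2, act2'⟩ := h₂.active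
  -- signs of the second coordinates
  obtain ⟨-, -, p1, p1'⟩ := arc_facts h₁.ha h₁.ha' hθ₁
  obtain ⟨-, -, p2, p2'⟩ := arc_facts h₂.ha h₂.ha' hθ₂
  have e1 : T θ q₁ - T θ c₁ < 0 := by
    rw [T_of h₁.h0 h₁.h1]
    have : ν₁ - a₁ - θ = -(θ - ν₁ + a₁) := by ring
    rw [this, Real.sin_neg]; linarith
  have e1' : 0 < T θ q₁ - T θ c₁' := by
    rw [T_of h₁.h0' h₁.h1']
    have : ν₁ + a₁ - θ = a₁ - (θ - ν₁) := by ring
    rw [this]; linarith
  have e2 : T θ q₁ - T θ c₂ < 0 := by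
    rw [T_of h₂.h0 h₂.h1]
    have : ν₂ - a₂ - θ = -(θ - ν₂ + a₂) := by ring
    rw [this, Real.sin_neg]; linarith
  have e2' : 0 < T θ q₁ - T θ c₂' := by
    rw [T_of h₂.h0' h₂.h1']
    have : ν₂ + a₂ - θ = a₂ - (θ - ν₂) := by ring
    rw [this]; linarith
  -- Slater half-plane
  have hzq : Dsq z q₁ ≠ 0 := by
    intro hcon
    have := Dsq_eq_zero hcon
    have h1 := hz c₁ h₁.mem
    rw [this, act1] at h1
    exact lt_irrefl _ h1
  have hpos : 0 < S θ q₁ - S θ z := by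
    have h1 := hsup.ineq hC one_pos hzD
    have h2 : 0 < Dsq z q₁ := lt_of_le_of_ne (Dsq_nonneg _ _) (Ne.symm hzq)
    nlinarith
  have hh : ∀ x ∈ C, Dsq q₁ x = 1 →
      0 < (S θ q₁ - S θ z) * (S θ q₁ - S θ x) + (T θ q₁ - T θ z) * (T θ q₁ - T θ x) := by
    intro x hx hax
    have h1 := hz x hx
    rw [Dsq_ST θ] at h1 hax
    nlinarith [sq_nonneg (S θ q₁ - S θ z), sq_nonneg (T θ q₁ - T θ z)]
  have hdet : ∀ x ∈ C, ∀ y ∈ C, Dsq q₁ x = 1 → Dsq q₁ y = 1 → T θ q₁ - T θ x < 0 →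
      0 < T θ q₁ - T θ y →
      0 < (S θ q₁ - S θ x) * (T θ q₁ - T θ y) - (T θ q₁ - T θ x) * (S θ q₁ - S θ y) := by
    intro x hx y hy hax hay htx hty
    have k1 := hh x hx hax
    have k2 := hh y hy hay
    have k3 : 0 < (S θ q₁ - S θ z) *
        ((S θ q₁ - S θ x) * (T θ q₁ - T θ y) - (T θ q₁ - T θ x) * (S θ q₁ - S θ y)) := by
      nlinarith [mul_pos hty k1, mul_pos (neg_pos.2 htx) k2]
    exact (mul_pos_iff_of_pos_left hpos).1 k3
  have a1 := hh c₁ h₁.mem act1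
  have a1' := hh c₁' h₁.mem' act1'
  have a2 := hh c₂ h₂.mem act2
  have a2' := hh c₂' h₂.mem' act2'
  have d11 := hdet c₁ h₁.mem c₁' h₁.mem' act1 act1' e1 e1'
  have d12 := hdet c₁ h₁.mem c₂' h₂.mem' act1 act2' e1 e2'
  have d21 := hdet c₂ h₂.mem c₁' h₁.mem' act2 act1' e2 e1'
  have d22 := hdet c₂ h₂.mem c₂' h₂.mem' act2 act2' e2 e2'
  constructor
  · rcases lt_trichotomy
      ((S θ q₁ - S θ c₁) * (T θ q₁ - T θ c₂) - (T θ q₁ - T θ c₁) * (S θ q₁ - S θ c₂)) 0 with h | h | h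
    · exact (no_between hI h₂.mem h₁.mem h₂.mem' θ act2 act1 act2' (by nlinarith) d12 d22).elim
    · rw [Dsq_ST θ] at act1 act2
      obtain ⟨g1, g2⟩ := unit_eq act1 act2 h a1 a2
      exact ext_ST θ (by linarith) (by linarith)
    · exact (no_between hI h₁.mem h₂.mem h₁.mem' θ act1 act2 act1' h d21 d11).elim
  · rcases lt_trichotomy
      ((S θ q₁ - S θ c₁') * (T θ q₁ - T θ c₂') - (T θ q₁ - T θ c₁') * (S θ q₁ - S θ c₂')) 0
      with h | h | h
    · exact (no_between hI h₁.mem h₂.mem' h₁.mem' θ act1 act2' act1' d12 (by nlinarith) d11).elim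
    · rw [Dsq_ST θ] at act1' act2'
      obtain ⟨g1, g2⟩ := unit_eq act1' act2' h a1' a2'
      exact ext_ST θ (by linarith) (by linarith)
    · exact (no_between hI h₂.mem h₁.mem' h₂.mem' θ act2 act1' act2' d21 h d22).elim

end Pool.Agent.V11159.DP
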