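import Pool.Agent.V11159.DP7
import Pool.Agent.V11159.DP3

/-!
Disk-polygons, part 8: comparison of the bad directions for the radii `1` and `t`.
-/

set_option autoImplicit false

namespace Pool.Agent.V11159.DP

open Real Filter Topology MeasureTheory Set

/-- A direction which is not good belongs to the arc of an edge. -/
theorem exists_edge {C : Finset E2} (hC : C.Nonempty) {z : E2} (hz : ∀ x ∈ C, Dsq z x < 1)
    {θ : ℝ} (hθ : θ ∉ Good C 1) :
    ∃ c c' q : E2, ∃ ν a : ℝ, EdgeData C c c' q ν a ∧ θ ∈ Arc ν a := by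
  have hz1 : ∀ x ∈ C, Dsq z x < 1 ^ 2 := fun x hx => by rw [one_pow]; exact hz x hx
  have hzD : z ∈ DD C 1 := fun x hx => (hz1 x hx).le
  obtain ⟨q, hq⟩ := exists_Sup hC zero_le_one ⟨z, hzD⟩ θ
  rcases hq.kkt hC one_pos hz1 with ⟨c, hc, h⟩ | ⟨c, hc, c', hc', h1, h2, h3, h4, h5⟩
  · exfalso
    apply hθ
    refine ⟨c, hc, ?_⟩
    rw [pt_eq, ← h]
    exact hq.1
  · have u1 : (q 0 - c 0) ^ 2 + (q 1 - c 1) ^ 2 = 1 := by
      have := h1; unfold Dsq at this; linarith
    have u2 : (q 0 - c' 0) ^ 2 + (q 1 - c' 1) ^ 2 = 1 := by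
      have := h2; unfold Dsq at this; linarith
    obtain ⟨α, hα0, hα1⟩ := exists_angle u1
    obtain ⟨β, hβ0, hβ1⟩ := exists_angle u2
    have hdet : 0 < sin (β - α) := by
      have e : sin (β - α) = (S θ q - S θ c) * (T θ q - T θ c') -
          (T θ q - T θ c) * (S θ q - S θ c') := by
        rw [Real.sin_sub, hα0, hα1, hβ0, hβ1]
        unfold S T
        linear_combination (-(q 0 - c 0) * (q 1 - c' 1) + (q 1 - c 1) * (q 0 - c' 0)) *
          Real.sin_sq_add_cos_sq θ
      rw [e]; exact h5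
    set φ := Real.arccos (cos (β - α)) with hφ
    have hcφ : cos φ = cos (β - α) := Real.cos_arccos (Real.neg_one_le_cos _) (Real.cos_le_one _)
    have hsφ : sin φ = sin (β - α) := by
      rw [hφ, Real.sin_arccos]
      have : 1 - cos (β - α) ^ 2 = sin (β - α) ^ 2 := by
        have := Real.sin_sq_add_cos_sq (β - α); linarith
      rw [this, Real.sqrt_sq hdet.le]
    have hφ0 : 0 < φ := by
      rcases eq_or_lt_of_le (Real.arccos_nonneg (cos (β - α))) with h | h
      · rw [← hφ] at h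
        rw [← h, Real.sin_zero] at hsφ
        linarith
      · exact h
    have hφπ : φ < π := by
      rcases eq_or_lt_of_le (Real.arccos_le_pi (cos (β - α))) with h | h
      · rw [← hφ] at h
        rw [h, Real.sin_pi] at hsφ
        linarith
      · exact h
    have e0 : cos (α + φ) = cos β := by
      have : β = α + (β - α) := by ring
      rw [this, Real.cos_add, Real.cos_add, hcφ, hsφ]
      try (have e : α + (β - α) - α = β - α := by ring
           rw [e])
    have e1 : sin (α + φ) = sin β := by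
      have : β = α + (β - α) := by ring
      rw [this, Real.sin_add, Real.sin_add, hcφ, hsφ]
      try (have e : α + (β - α) - α = β - α := by ring
           rw [e])
    have f1 : α + φ / 2 - φ / 2 = α := by ring
    have f2 : α + φ / 2 + φ / 2 = α + φ := by ring
    have hE : EdgeData C c c' q (α + φ / 2) (φ / 2) :=
      { mem := hc
        mem' := hc'
        hq := hq.1
        ha := by linarith
        ha' := by linarith
        h0 := by rw [f1, hα0]; ring
        h1 := by rw [f1, hα1]; ring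
        h0' := by rw [f2, e0, hβ0]; ring
        h1' := by rw [f2, e1, hβ1]; ring }
    refine ⟨c, c', q, α + φ / 2, φ / 2, hE, ?_⟩
    apply mem_arc hE.ha hE.ha'
    · have := T_of hE.h0 hE.h1 θ
      linarith
    · have := T_of hE.h0' hE.h1' θ
      linarith

/-- The shortened arc of an edge is bad for the larger radius. -/
theorem arc_bad {C : Finset E2} (hI : Irr C) {c c' q : E2} {ν a b t : ℝ}
    (h : EdgeData C c c' q ν a) (ht : 1 ≤ t) (hb : 0 < b) (hb' : b < π / 2)
    (hab : t * sin b = sin a) {θ : ℝ} (hθ : θ ∈ Arc ν b) : θ ∉ Good C t := by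
  rintro ⟨m, hm, hmθ⟩
  have ht0 : 0 < t := by linarith
  obtain ⟨hκ, hσ, -, -⟩ := arc_facts hb hb' hθ
  have hca : 0 < cos a := Real.cos_pos_of_mem_Ioo ⟨by linarith [h.ha, h.ha'], h.ha'⟩
  have hsa : 0 < sin a := Real.sin_pos_of_pos_of_lt_pi h.ha (by linarith [Real.pi_pos, h.ha'])
  have hS := S_of h.h0 h.h1 ν
  have hT := T_of h.h0 h.h1 ν
  have hS' := S_of h.h0' h.h1' ν
  have hT' := T_of h.h0' h.h1' ν
  have e1 : ν - a - ν = -a := by ring
  have e2 : ν + a - ν = a := by ring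
  rw [e1, Real.cos_neg] at hS
  rw [e1, Real.sin_neg] at hT
  rw [e2] at hS' hT'
  have hSm : S ν (pt m t θ) = S ν m + t * cos (θ - ν) := by
    unfold pt S; rw [mk_zero, mk_one, Real.cos_sub]; ring
  have hTm : T ν (pt m t θ) = T ν m + t * sin (θ - ν) := by
    unfold pt T; rw [mk_zero, mk_one, Real.sin_sub]; ring
  have k1 := hmθ c h.mem
  have k2 := hmθ c' h.mem'
  rw [Dsq_ST ν, hSm, hTm, hS, hT] at k1
  rw [Dsq_ST ν, hSm, hTm, hS', hT'] at k2
  have k3 := h.hq m hm
  rw [Dsq_ST ν] at k3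
  set σ := sin (θ - ν) with hσd
  set κ := cos (θ - ν) with hκd
  have hσκ : σ ^ 2 + κ ^ 2 = 1 := Real.sin_sq_add_cos_sq _
  have hσt : |t * σ| < sin a := by
    rw [abs_mul, abs_of_pos ht0, ← hab]
    exact mul_lt_mul_of_pos_left hσ ht0
  have hkh : sin a ^ 2 + cos a ^ 2 = 1 := Real.sin_sq_add_cos_sq a
  set A := T ν m - T ν q with hA
  set B := S ν m - (S ν q - cos a) with hB
  have g1 : A ^ 2 + (B - cos a) ^ 2 ≤ 1 := by
    have e : A ^ 2 + (B - cos a) ^ 2 = (S ν q - S ν m) ^ 2 + (T ν q - T ν m) ^ 2 := by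
      rw [hA, hB]; ring
    rw [e]; linarith
  have g2 : (A + t * σ - sin a) ^ 2 + (B + t * κ) ^ 2 ≤ t ^ 2 := by
    have e : (A + t * σ - sin a) ^ 2 + (B + t * κ) ^ 2 =
      (S ν m + t * κ - (S ν q - cos a)) ^ 2 + (T ν m + t * σ - (T ν q - -sin a)) ^ 2 := by
      rw [hA, hB]; ring
    rw [e]; exact k1
  have g3 : (A + t * σ + sin a) ^ 2 + (B + t * κ) ^ 2 ≤ t ^ 2 := by
    have e : (A + t * σ + sin a) ^ 2 + (B + t * κ) ^ 2 =
      (S ν m + t * κ - (S ν q - cos a)) ^ 2 + (T ν m + t * σ - (T ν q - sin a)) ^ 2 := by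
      rw [hA, hB]; ring
    rw [e]; exact k2
  obtain ⟨hB0, hA0⟩ := lens_pos hsa hca.le hkh ht0 hσκ hκ hσt g1 g2 g3
  apply hI m hm
  intro z hz
  have hcm : c ≠ m := by
    rintro rfl
    have hA1 : A = sin a := by rw [hA, hT]; ring
    have hB1 : B = 0 := by rw [hB, hS]; ring
    rw [hA1, hB1] at g3
    have k4 := (abs_lt.1 hσt).1
    have k5 : t ^ 2 * (σ ^ 2 + κ ^ 2) = t ^ 2 := by rw [hσκ, mul_one]
    have k6 : 4 * sin a * (sin a + t * σ) ≤ 0 := by
      have e : (sin a + t * σ + sin a) ^ 2 + (0 + t * κ) ^ 2 =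
        4 * sin a * (sin a + t * σ) + t ^ 2 * (σ ^ 2 + κ ^ 2) := by ring
      rw [e, k5] at g3
      linarith
    have k7 : 0 < 4 * sin a * (sin a + t * σ) := by
      apply mul_pos (by linarith); linarith
    linarith
  have hcm' : c' ≠ m := by
    rintro rfl
    have hA1 : A = -sin a := by rw [hA, hT']; ring
    have hB1 : B = 0 := by rw [hB, hS']; ring
    rw [hA1, hB1] at g2
    have k4 := (abs_lt.1 hσt).2
    have k5 : t ^ 2 * (σ ^ 2 + κ ^ 2) = t ^ 2 := by rw [hσκ, mul_one]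
    have k6 : 4 * sin a * (sin a - t * σ) ≤ 0 := by
      have e : (-sin a + t * σ - sin a) ^ 2 + (0 + t * κ) ^ 2 =
        4 * sin a * (sin a - t * σ) + t ^ 2 * (σ ^ 2 + κ ^ 2) := by ring
      rw [e, k5] at g2
      linarith
    have k7 : 0 < 4 * sin a * (sin a - t * σ) := by
      apply mul_pos (by linarith); linarith
    linarith
  have z1 := hz c h.mem hcm
  have z2 := hz c' h.mem' hcm'
  rw [Dsq_ST ν, hS, hT] at z1
  rw [Dsq_ST ν, hS', hT'] at z2
  rw [Dsq_ST ν]
  have z1' : (T ν z - T ν q - sin a) ^ 2 + (S ν z - (S ν q - cos a)) ^ 2 ≤ 1 := by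
    have e : (T ν z - T ν q - sin a) ^ 2 + (S ν z - (S ν q - cos a)) ^ 2 =
      (S ν z - (S ν q - cos a)) ^ 2 + (T ν z - (T ν q - -sin a)) ^ 2 := by ring
    rw [e]; exact z1
  have z2' : (T ν z - T ν q + sin a) ^ 2 + (S ν z - (S ν q - cos a)) ^ 2 ≤ 1 := by
    have e : (T ν z - T ν q + sin a) ^ 2 + (S ν z - (S ν q - cos a)) ^ 2 =
      (S ν z - (S ν q - cos a)) ^ 2 + (T ν z - (T ν q - sin a)) ^ 2 := by ring
    rw [e]; exact z2
  have key := lens_red hsa hca.le hkh g1 hB0 hA0 z1' z2'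
  have e : (S ν z - S ν m) ^ 2 + (T ν z - T ν m) ^ 2 =
      (T ν z - T ν q - A) ^ 2 + (S ν z - (S ν q - cos a) - B) ^ 2 := by
    rw [hA, hB]; ring
  rw [e]; exact key

end Pool.Agent.V11159.DP
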