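import Pool.Agent.V11159.DP8

/-!
Disk-polygons, part 9: the perimeter inequality.
-/

set_option autoImplicit false

namespace Pool.Agent.V11159.DP

open Real Filter Topology MeasureTheory Set
open scoped ENNReal

/-! ### an inequality for the sine -/

theorem sin_aux {K x : ℝ} (hK : 1 ≤ K) (hx : 0 ≤ x) (hxK : K * x ≤ π / 2) :
    K * cos (K * x) * sin x ≤ sin (K * x) * cos x := by
  let N : ℝ → ℝ := fun y => sin (K * y) * cos y - K * cos (K * y) * sin y
  have hder : ∀ y, HasDerivAt N ((K ^ 2 - 1) * (sin (K * y) * sin y)) y := by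
    intro y
    have h0 : HasDerivAt (fun y : ℝ => K * y) K y := by
      simpa using (hasDerivAt_id y).const_mul K
    have h1 := h0.sin
    have h2 := h0.cos
    have h3 := (h1.mul (Real.hasDerivAt_cos y)).sub ((h2.const_mul K).mul (Real.hasDerivAt_sin y))
    refine HasDerivAt.congr_deriv h3 ?_
    ring
  have hmono : MonotoneOn N (Icc 0 x) := by
    apply monotoneOn_of_deriv_nonneg (convex_Icc 0 x)
    · exact fun y _ => (hder y).continuousAt.continuousWithinAt
    · exact fun y _ => (hder y).differentiableAt.differentiableWithinAt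
    · intro y hy
      rw [interior_Icc] at hy
      rw [(hder y).deriv]
      have h1 : 0 ≤ sin (K * y) := by
        apply Real.sin_nonneg_of_nonneg_of_le_pi
        · have := hy.1; positivity
        · have : K * y ≤ K * x := by
            apply mul_le_mul_of_nonneg_left hy.2.le; linarith
          linarith [Real.pi_pos]
      have h2 : 0 ≤ sin y := by
        apply Real.sin_nonneg_of_nonneg_of_le_pi hy.1.le
        have : y ≤ K * x := by nlinarith [hy.1, hy.2]
        linarith [Real.pi_pos]
      have h3 : 0 ≤ K ^ 2 - 1 := by nlinarith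
      positivity
  have := hmono (left_mem_Icc.2 hx) (right_mem_Icc.2 hx) hx
  simp only [N, mul_zero, Real.sin_zero, Real.cos_zero, zero_mul, sub_zero] at this
  linarith

theorem sin_ratio {K x y : ℝ} (hK : 1 ≤ K) (hx : 0 < x) (hxy : x ≤ y) (hyK : K * y ≤ π / 2) :
    sin (K * y) * sin x ≤ sin (K * x) * sin y := by
  have hsin : ∀ u, x ≤ u → u ≤ y → 0 < sin u := by
    intro u h1 h2
    apply Real.sin_pos_of_pos_of_lt_pi (by linarith)
    have : u ≤ K * y := by nlinarith
    linarith [Real.pi_pos]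
  let f : ℝ → ℝ := fun u => sin (K * u) / sin u
  have hder : ∀ u ∈ Icc x y, HasDerivAt f
      ((K * cos (K * u) * sin u - sin (K * u) * cos u) / sin u ^ 2) u := by
    intro u hu
    have h0 : HasDerivAt (fun y : ℝ => K * y) K u := by
      simpa using (hasDerivAt_id u).const_mul K
    have h1 := h0.sin.div (Real.hasDerivAt_sin u) (hsin u hu.1 hu.2).ne'
    refine HasDerivAt.congr_deriv h1 ?_
    ring
  have hanti : AntitoneOn f (Icc x y) := by
    apply antitoneOn_of_deriv_nonpos (convex_Icc x y)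
    · exact fun u hu => (hder u hu).continuousAt.continuousWithinAt
    · intro u hu
      rw [interior_Icc] at hu
      exact (hder u (Ioo_subset_Icc_self hu)).differentiableAt.differentiableWithinAt
    · intro u hu
      rw [interior_Icc] at hu
      rw [(hder u (Ioo_subset_Icc_self hu)).deriv]
      apply div_nonpos_of_nonpos_of_nonneg _ (sq_nonneg _)
      have : K * u ≤ π / 2 := by
        have : K * u ≤ K * y := by
          apply mul_le_mul_of_nonneg_left hu.2.le; linarith
        linarith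
      linarith [sin_aux hK (hx.le.trans hu.1.le) this]
  have h1 := hanti (left_mem_Icc.2 hxy) (right_mem_Icc.2 hxy) hxy
  have h2 : sin (K * y) / sin y ≤ sin (K * x) / sin x := h1
  rw [div_le_div_iff₀ (hsin y hxy le_rfl) (hsin x le_rfl hxy)] at h2
  exact h2

theorem arc_compare {t a b : ℝ} (ht : 1 ≤ t) (ht2 : t < 2) (ha' : a < π / 2)
    (hb : 0 < b) (hb6 : b ≤ π / 6) (hab : t * sin b = sin a) :
    a ≤ 6 * Real.arcsin (t / 2) / π * b := by
  set K := 6 * Real.arcsin (t / 2) / π with hKd
  have hπ := Real.pi_pos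
  have h1 : π / 6 ≤ Real.arcsin (t / 2) := by
    rw [Real.le_arcsin_iff_sin_le' ⟨by linarith, by linarith⟩, Real.sin_pi_div_six]
    linarith
  have hK : 1 ≤ K := by
    rw [hKd, le_div_iff₀ hπ]; linarith
  have hK6 : K * (π / 6) = Real.arcsin (t / 2) := by rw [hKd]; field_simp
  have h2 : sin (K * (π / 6)) = t / 2 := by
    rw [hK6, Real.sin_arcsin (by linarith) (by linarith)]
  have hle : K * (π / 6) ≤ π / 2 := by rw [hK6]; exact Real.arcsin_le_pi_div_two _
  have h3 := sin_ratio hK hb hb6 hle
  rw [h2, Real.sin_pi_div_six] at h3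
  have h4 : sin a ≤ sin (K * b) := by rw [← hab]; linarith
  have hKb : K * b ≤ π / 2 := by
    have : K * b ≤ K * (π / 6) := by
      apply mul_le_mul_of_nonneg_left hb6; linarith
    linarith
  by_contra hcon
  push Not at hcon
  have h5 : sin (K * b) < sin a := by
    apply Real.sin_lt_sin_of_lt_of_le_pi_div_two _ ha'.le hcon
    have : 0 ≤ K * b := by positivity
    linarith
  linarith

/-! ### the measure of periodic sets of directions -/

/-- Measure of a set of directions. -/
noncomputable def M (A : Set ℝ) : ℝ := ∫ θ in (0 : ℝ)..(2 * π), A.indicator (fun _ => (1 : ℝ)) θ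

theorem integrable_ind {A : Set ℝ} (hA : MeasurableSet A) (a b : ℝ) :
    IntervalIntegrable (A.indicator fun _ => (1 : ℝ)) volume a b := by
  rw [intervalIntegrable_iff]
  exact (integrableOn_const (by
    rw [uIoc, Real.volume_Ioc]; exact ENNReal.ofReal_ne_top)).indicator hA

theorem M_eq {A : Set ℝ} (hA : MeasurableSet A) : M A = (volume (A ∩ Ico 0 (2 * π))).toReal := by
  unfold M
  rw [intervalIntegral.integral_of_le (by positivity), setIntegral_indicator hA,
    setIntegral_const, smul_eq_mul, mul_one, Measure.real]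
  congr 1
  rw [inter_comm]
  apply measure_congr
  exact (ae_eq_refl _).inter Ioc_ae_eq_Icc |>.trans ((ae_eq_refl _).inter Ico_ae_eq_Icc.symm)

theorem M_compl {A : Set ℝ} (hA : MeasurableSet A) : M Aᶜ = 2 * π - M A := by
  have h : M A + M Aᶜ = 2 * π := by
    unfold M
    rw [← intervalIntegral.integral_add (integrable_ind hA _ _) (integrable_ind hA.compl _ _)]
    have : ∀ θ : ℝ, A.indicator (fun _ => (1 : ℝ)) θ + Aᶜ.indicator (fun _ => (1 : ℝ)) θ = 1 := by
      intro θ
      by_cases h : θ ∈ A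
      · rw [indicator_of_mem h, indicator_of_notMem (show θ ∉ Aᶜ from fun h' => h' h), add_zero]
      · rw [indicator_of_notMem h, indicator_of_mem (show θ ∈ Aᶜ from h), zero_add]
    simp only [this]
    rw [intervalIntegral.integral_const]
    simp
  linarith

theorem measurable_Arc (ν a : ℝ) : MeasurableSet (Arc ν a) := by
  have : IsOpen (Arc ν a) := by
    unfold Arc
    exact isOpen_lt continuous_const (by fun_prop)
  exact this.measurableSet

theorem M_Arc {ν a : ℝ} (ha : 0 ≤ a) (ha' : a ≤ π) : M (Arc ν a) = 2 * a := by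
  have hper : Function.Periodic ((Arc ν a).indicator fun _ => (1 : ℝ)) (2 * π) := by
    intro θ
    have : θ + 2 * π ∈ Arc ν a ↔ θ ∈ Arc ν a := by
      show cos a < cos (θ + 2 * π - ν) ↔ cos a < cos (θ - ν)
      have : θ + 2 * π - ν = (θ - ν) + 2 * π := by ring
      rw [this, Real.cos_add_two_pi]
    by_cases h : θ ∈ Arc ν a
    · rw [indicator_of_mem h, indicator_of_mem (this.2 h)]
    · rw [indicator_of_notMem h, indicator_of_notMem (fun h' => h (this.1 h'))]
  have h1 := hper.intervalIntegral_add_eq 0 (ν - π)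
  rw [zero_add] at h1
  unfold M
  rw [h1, intervalIntegral.integral_of_le (by linarith [Real.pi_pos]),
    setIntegral_indicator (measurable_Arc ν a), setIntegral_const, smul_eq_mul, mul_one,
    Measure.real]
  have h2 : Ioc (ν - π) (ν - π + 2 * π) ∩ Arc ν a = Ioo (ν - a) (ν + a) := by
    ext θ
    simp only [mem_inter_iff, mem_Ioc, mem_Ioo]
    have key : |θ - ν| ≤ π → (θ ∈ Arc ν a ↔ |θ - ν| < a) := by
      intro h
      show cos a < cos (θ - ν) ↔ _
      rw [← Real.cos_abs (θ - ν)]
      exact Real.strictAntiOn_cos.lt_iff_gt ⟨ha, ha'⟩ ⟨abs_nonneg _, h⟩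
    constructor
    · rintro ⟨⟨h3, h4⟩, h5⟩
      have h6 := (key (abs_le.2 ⟨by linarith, by linarith⟩)).1 h5
      rw [abs_lt] at h6
      constructor <;> linarith
    · rintro ⟨h3, h4⟩
      have h6 : |θ - ν| < a := abs_lt.2 ⟨by linarith, by linarith⟩
      refine ⟨⟨by linarith, by linarith⟩, (key (by linarith)).2 h6⟩
  rw [h2, Real.volume_Ioo, ENNReal.toReal_ofReal (by linarith)]
  ring

theorem integrable_sum {ι : Type} (s : Finset ι) {B : ι → Set ℝ}
    (hB : ∀ i, MeasurableSet (B i)) (a b : ℝ) :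
    IntervalIntegrable (fun θ => ∑ i ∈ s, (B i).indicator (fun _ => (1 : ℝ)) θ) volume a b := by
  have h := IntervalIntegrable.sum (μ := volume) (a := a) (b := b) s
    (f := fun i => (B i).indicator fun _ => (1 : ℝ)) (fun i _ => integrable_ind (hB i) a b)
  have e : (fun θ => ∑ i ∈ s, (B i).indicator (fun _ => (1 : ℝ)) θ) =
      ∑ i ∈ s, (B i).indicator fun _ => (1 : ℝ) := by
    ext θ; rw [Finset.sum_apply]
  rw [e]; exact h

theorem M_mono_sum {ι : Type} (s : Finset ι) {A : Set ℝ} {B : ι → Set ℝ} (hA : MeasurableSet A)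
    (hB : ∀ i, MeasurableSet (B i))
    (h : ∀ θ, A.indicator (fun _ => (1 : ℝ)) θ ≤ ∑ i ∈ s, (B i).indicator (fun _ => (1 : ℝ)) θ) :
    M A ≤ ∑ i ∈ s, M (B i) := by
  unfold M
  rw [← intervalIntegral.integral_finsetSum fun i _ => integrable_ind (hB i) _ _]
  apply intervalIntegral.integral_mono_on (by positivity) (integrable_ind hA _ _)
  · exact integrable_sum s hB _ _
  · exact fun θ _ => h θ

theorem M_sum_mono {ι : Type} (s : Finset ι) {A : Set ℝ} {B : ι → Set ℝ} (hA : MeasurableSet A)
    (hB : ∀ i, MeasurableSet (B i))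
    (h : ∀ θ, ∑ i ∈ s, (B i).indicator (fun _ => (1 : ℝ)) θ ≤ A.indicator (fun _ => (1 : ℝ)) θ) :
    ∑ i ∈ s, M (B i) ≤ M A := by
  unfold M
  rw [← intervalIntegral.integral_finsetSum fun i _ => integrable_ind (hB i) _ _]
  apply intervalIntegral.integral_mono_on (by positivity) _ (integrable_ind hA _ _)
  · exact fun θ _ => h θ
  · exact integrable_sum s hB _ _

/-! ### the main estimate -/

theorem edge_arc_eq {C : Finset E2} {c c' q q' : E2} {ν a ν' a' : ℝ}
    (h : EdgeData C c c' q ν a) (h' : EdgeData C c c' q' ν' a') : Arc ν a = Arc ν' a' := by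
  have hsa : 0 < sin a := Real.sin_pos_of_pos_of_lt_pi h.ha (by linarith [Real.pi_pos, h.ha'])
  have hsa' : 0 < sin a' := Real.sin_pos_of_pos_of_lt_pi h'.ha (by linarith [Real.pi_pos, h'.ha'])
  have e0 : sin ν * sin a = sin ν' * sin a' := by
    have h1 := h.h0
    have h2 := h.h0'
    have h3 := h'.h0
    have h4 := h'.h0'
    rw [Real.cos_sub] at h1 h3
    rw [Real.cos_add] at h2 h4
    linarith
  have e1 : cos ν * sin a = cos ν' * sin a' := by
    have h1 := h.h1
    have h2 := h.h1'
    have h3 := h'.h1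
    have h4 := h'.h1'
    rw [Real.sin_sub] at h1 h3
    rw [Real.sin_add] at h2 h4
    linarith
  have e2 : sin a ^ 2 = sin a' ^ 2 := by
    have h1 := Real.sin_sq_add_cos_sq ν
    have h2 := Real.sin_sq_add_cos_sq ν'
    calc sin a ^ 2 = (sin ν * sin a) ^ 2 + (cos ν * sin a) ^ 2 := by
          linear_combination (-sin a ^ 2) * h1
      _ = (sin ν' * sin a') ^ 2 + (cos ν' * sin a') ^ 2 := by rw [e0, e1]
      _ = sin a' ^ 2 := by linear_combination (sin a' ^ 2) * h2
  have e3 : sin a = sin a' := by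
    have h3 : (sin a - sin a') * (sin a + sin a') = 0 := by linarith
    rcases mul_eq_zero.1 h3 with h | h
    · linarith
    · linarith
  have e4 : a = a' := by
    apply Real.injOn_sin _ _ e3
    · exact ⟨by linarith [h.ha, h.ha'], h.ha'.le⟩
    · exact ⟨by linarith [h'.ha, h'.ha'], h'.ha'.le⟩
  subst e4
  have e5 : sin ν = sin ν' := mul_right_cancel₀ hsa.ne' e0
  have e6 : cos ν = cos ν' := mul_right_cancel₀ hsa.ne' e1
  ext θ
  show cos a < cos (θ - ν) ↔ cos a < cos (θ - ν')
  rw [Real.cos_sub, Real.cos_sub, e5, e6]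

theorem main_irr {C : Finset E2} (hC : C.Nonempty) (hI : Irr C) {t : ℝ} (ht : 1 ≤ t)
    (ht3 : t < √3) (hD : ∀ x ∈ C, ∀ y ∈ C, Dsq x y ≤ t ^ 2) :
    M (Good C 1)ᶜ ≤ 6 * Real.arcsin (t / 2) := by
  classical
  have ht0 : 0 < t := by linarith
  have ht33 : t ^ 2 < 3 := by
    have h1 : √3 ^ 2 = 3 := Real.sq_sqrt (by norm_num)
    nlinarith [Real.sqrt_nonneg 3]
  have ht2 : t < 2 := by nlinarith
  obtain ⟨z, hz⟩ := jung C hC (t ^ 2) hD
  have hz1 : ∀ x ∈ C, Dsq z x < 1 := fun x hx => lt_of_le_of_lt (hz x hx) (by linarith)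
  have hzt : ∀ x ∈ C, Dsq z x < t ^ 2 := fun x hx => lt_of_lt_of_le (hz1 x hx) (by nlinarith)
  have hdiam : ∀ c ∈ C, c ∈ DD C t := fun c hc x hx => hD c hc x hx
  have hgt := partC hC ht0 hzt hdiam
  have hm1 : MeasurableSet (Good C 1) := (isClosed_Good C 1).measurableSet
  have hmt : MeasurableSet (Good C t) := (isClosed_Good C t).measurableSet
  have hMt : M (Good C t)ᶜ ≤ π := by
    rw [M_compl hmt, M_eq hmt]
    rw [ENNReal.ofReal_le_iff_le_toReal] at hgt
    · linarith
    · apply ne_of_lt
      calc volume (Good C t ∩ Ico 0 (2 * π)) ≤ volume (Ico 0 (2 * π)) :=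
            measure_mono inter_subset_right
        _ < ∞ := by rw [Real.volume_Ico]; exact ENNReal.ofReal_lt_top
  -- edges
  let P : Finset (E2 × E2) := (C ×ˢ C).filter fun p => ∃ q ν a, EdgeData C p.1 p.2 q ν a
  have hP : ∀ p : P, ∃ q ν a, EdgeData C p.1.1 p.1.2 q ν a := fun p =>
    (Finset.mem_filter.1 p.2).2
  choose q ν a hE using hP
  let b : P → ℝ := fun p => Real.arcsin (sin (a p) / t)
  have hsa : ∀ p, 0 < sin (a p) := fun p =>
    Real.sin_pos_of_pos_of_lt_pi (hE p).ha (by linarith [Real.pi_pos, (hE p).ha'])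
  have hsa2 : ∀ p, sin (a p) ≤ t / 2 := by
    intro p
    have h1 := hD _ (hE p).mem _ (hE p).mem'
    have h2 : Dsq p.1.1 p.1.2 = (2 * sin (a p)) ^ 2 := by
      unfold Dsq
      rw [(hE p).h0, (hE p).h1, (hE p).h0', (hE p).h1', Real.cos_sub, Real.cos_add, Real.sin_sub,
        Real.sin_add]
      linear_combination (4 * sin (a p) ^ 2) * Real.sin_sq_add_cos_sq (ν p)
    rw [h2] at h1
    have := abs_le_of_sq_le_sq h1 ht0.le
    rw [abs_of_pos (by linarith [hsa p])] at this
    linarith
  have hdiv1 : ∀ p, sin (a p) / t ≤ 1 / 2 := by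
    intro p
    rw [div_le_iff₀ ht0]; linarith [hsa2 p]
  have hdiv0 : ∀ p, 0 < sin (a p) / t := fun p => div_pos (hsa p) ht0
  have hb0 : ∀ p, 0 < b p := fun p => Real.arcsin_pos.2 (hdiv0 p)
  have hb6 : ∀ p, b p ≤ π / 6 := by
    intro p
    have h1 : Real.arcsin (1 / 2) = π / 6 := by
      rw [← Real.sin_pi_div_six, Real.arcsin_sin] <;> linarith [Real.pi_pos]
    rw [← h1]
    exact Real.monotone_arcsin (hdiv1 p)
  have hb2 : ∀ p, b p < π / 2 := fun p => by linarith [hb6 p, Real.pi_pos]
  have hab : ∀ p, t * sin (b p) = sin (a p) := by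
    intro p
    have h1 : sin (b p) = sin (a p) / t :=
      Real.sin_arcsin (by linarith [hdiv0 p]) (by linarith [hdiv1 p])
    rw [h1]; field_simp
  have hba : ∀ p, b p ≤ a p := by
    intro p
    by_contra hcon
    push Not at hcon
    have h1 : sin (a p) < sin (b p) :=
      Real.sin_lt_sin_of_lt_of_le_pi_div_two (by linarith [(hE p).ha, Real.pi_pos]) (hb2 p).le hcon
    have h2 : 0 < sin (b p) := (hsa p).trans h1
    have := hab p
    nlinarith
  have hsub : ∀ p, Arc (ν p) (b p) ⊆ Arc (ν p) (a p) := by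
    intro p θ hθ
    have h1 : cos (b p) < cos (θ - ν p) := hθ
    have h2 : cos (a p) ≤ cos (b p) :=
      Real.cos_le_cos_of_nonneg_of_le_pi (hb0 p).le (by linarith [(hE p).ha', Real.pi_pos]) (hba p)
    exact lt_of_le_of_lt h2 h1
  -- upper bound
  have hup : M (Good C 1)ᶜ ≤ ∑ p : P, M (Arc (ν p) (a p)) := by
    apply M_mono_sum _ hm1.compl (fun p => measurable_Arc _ _)
    intro θ
    by_cases hθ : θ ∈ Good C 1
    · rw [indicator_of_notMem (show θ ∉ (Good C 1)ᶜ from fun h => h hθ)]
      exact Finset.sum_nonneg fun p _ => indicator_nonneg (fun _ _ => zero_le_one) _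
    · obtain ⟨c, c', q', ν', a', hE', hθ'⟩ := exists_edge hC hz1 hθ
      have hmem : (c, c') ∈ P := by
        simp only [P, Finset.mem_filter, Finset.mem_product]
        exact ⟨⟨hE'.mem, hE'.mem'⟩, q', ν', a', hE'⟩
      have h1 : θ ∈ Arc (ν ⟨(c, c'), hmem⟩) (a ⟨(c, c'), hmem⟩) := by
        rw [edge_arc_eq (hE ⟨(c, c'), hmem⟩) hE']
        exact hθ'
      rw [indicator_of_mem (show θ ∈ (Good C 1)ᶜ from hθ)]
      calc (1 : ℝ) = (Arc (ν ⟨(c, c'), hmem⟩) (a ⟨(c, c'), hmem⟩)).indicator (fun _ => 1) θ := by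
            rw [indicator_of_mem h1]
        _ ≤ _ := Finset.single_le_sum (f := fun p : P =>
            (Arc (ν p) (a p)).indicator (fun _ => (1 : ℝ)) θ)
            (fun p _ => indicator_nonneg (fun _ _ => zero_le_one) _) (Finset.mem_univ _)
  -- lower bound
  have hlow : ∑ p : P, M (Arc (ν p) (b p)) ≤ M (Good C t)ᶜ := by
    apply M_sum_mono _ hmt.compl (fun p => measurable_Arc _ _)
    intro θ
    by_cases hθ : ∃ p, θ ∈ Arc (ν p) (b p)
    · obtain ⟨p, hp⟩ := hθ
      have hbad : θ ∉ Good C t := arc_bad hI (hE p) ht (hb0 p) (hb2 p) (hab p) hp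
      rw [indicator_of_mem (show θ ∈ (Good C t)ᶜ from hbad), Finset.sum_eq_single p]
      · rw [indicator_of_mem hp]
      · intro p' _ hne
        rw [indicator_of_notMem]
        intro hp'
        apply hne
        obtain ⟨h1, h2⟩ := edge_unique hI hz1 (hE p) (hE p') (hsub p hp) (hsub p' hp')
        exact Subtype.ext (Prod.ext h1.symm h2.symm)
      · intro h; exact absurd (Finset.mem_univ p) h
    · push Not at hθ
      rw [Finset.sum_eq_zero fun p _ => indicator_of_notMem (hθ p) _]
      exact indicator_nonneg (fun _ _ => zero_le_one) _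
  have hπ := Real.pi_pos
  have hKpos : 0 ≤ 6 * Real.arcsin (t / 2) / π := by
    have : 0 ≤ Real.arcsin (t / 2) := Real.arcsin_nonneg.2 (by linarith)
    positivity
  calc M (Good C 1)ᶜ ≤ ∑ p : P, M (Arc (ν p) (a p)) := hup
    _ = ∑ p : P, 2 * a p := by
        apply Finset.sum_congr rfl
        intro p _
        exact M_Arc (hE p).ha.le (by linarith [(hE p).ha'])
    _ ≤ ∑ p : P, 6 * Real.arcsin (t / 2) / π * (2 * b p) := by
        apply Finset.sum_le_sum
        intro p _
        have := arc_compare ht ht2 (hE p).ha' (hb0 p) (hb6 p) (hab p)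
        linarith
    _ = 6 * Real.arcsin (t / 2) / π * ∑ p : P, M (Arc (ν p) (b p)) := by
        rw [Finset.mul_sum]
        apply Finset.sum_congr rfl
        intro p _
        rw [M_Arc (hb0 p).le (by linarith [hb2 p])]
    _ ≤ 6 * Real.arcsin (t / 2) / π * π := by
        apply mul_le_mul_of_nonneg_left _ hKpos
        linarith
    _ = 6 * Real.arcsin (t / 2) := by field_simp

theorem main {t : ℝ} (ht : 1 ≤ t) (ht3 : t < √3) (n : ℕ) : ∀ C : Finset E2, C.card = n →
    C.Nonempty → (∀ x ∈ C, ∀ y ∈ C, Dsq x y ≤ t ^ 2) →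
    ENNReal.ofReal (2 * π - 6 * Real.arcsin (t / 2)) ≤
      Measure.hausdorffMeasure 1 (frontier (DD C 1)) := by
  classical
  induction n using Nat.strong_induction_on with
  | _ n ih =>
  intro C hn hC hD
  by_cases hI : Irr C
  · have h1 := main_irr hC hI ht ht3 hD
    have hm1 : MeasurableSet (Good C 1) := (isClosed_Good C 1).measurableSet
    rw [M_compl hm1, M_eq hm1] at h1
    refine le_trans ?_ (partA C)
    rw [ENNReal.ofReal_le_iff_le_toReal]
    · linarith
    · apply ne_of_lt
      calc volume (Good C 1 ∩ Ico 0 (2 * π)) ≤ volume (Ico 0 (2 * π)) :=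
            measure_mono inter_subset_right
        _ < ∞ := by rw [Real.volume_Ico]; exact ENNReal.ofReal_lt_top
  · unfold Irr at hI
    push Not at hI
    obtain ⟨m, hm, hred⟩ := hI
    have hDD : DD (C.erase m) 1 = DD C 1 := by
      ext z
      constructor
      · intro h x hx
        by_cases hxm : x = m
        · rw [hxm, one_pow]
          apply hred z
          intro y hy hym
          have := h y (Finset.mem_erase.2 ⟨hym, hy⟩)
          rwa [one_pow] at this
        · exact h x (Finset.mem_erase.2 ⟨hxm, hx⟩)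
      · intro h x hx
        exact h x (Finset.mem_of_mem_erase hx)
    have hne : (C.erase m).Nonempty := by
      rw [Finset.nonempty_iff_ne_empty]
      intro h0
      have h1 := hred (mk (m 0 + 2) (m 1)) (by
        intro x hx hxm
        have : x ∈ C.erase m := Finset.mem_erase.2 ⟨hxm, hx⟩
        rw [h0] at this
        simp at this)
      unfold Dsq at h1
      rw [mk_zero, mk_one] at h1
      norm_num at h1
    rw [← hDD]
    apply ih (C.erase m).card _ (C.erase m) rfl hne
    · intro x hx y hy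
      exact hD x (Finset.mem_of_mem_erase hx) y (Finset.mem_of_mem_erase hy)
    · rw [← hn]
      exact Finset.card_erase_lt_of_mem hm

end Pool.Agent.V11159.DP
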