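import Mathlib

/-!
Self-maximising sets, part 1: a compact convex set whose perimeter-to-area ratio is at most that of
every finite union of compact convex subsets of it is self-maximising.
-/

set_option autoImplicit false

namespace Pool.Agent.V11159.SM

open MeasureTheory Set
open scoped ENNReal

/-- The plane. -/
abbrev E2 : Type := EuclideanSpace ℝ (Fin 2)

/-- Length. -/
noncomputable abbrev H1 : Measure E2 := Measure.hausdorffMeasure 1

theorem frontier_submod (μ : Measure E2) {A B : Set E2} (hA : IsClosed A) (hB : IsClosed B) :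
    μ (frontier (A ∪ B)) + μ (frontier (A ∩ B)) ≤ μ (frontier A) + μ (frontier B) := by
  have hm : MeasurableSet (frontier (A ∩ B)) := isClosed_frontier.measurableSet
  have hm' : MeasurableSet (frontier B) := isClosed_frontier.measurableSet
  rw [← measure_union_add_inter _ hm, ← measure_union_add_inter _ hm']
  have hsub1 : frontier (A ∪ B) ⊆ frontier A ∪ frontier B := by
    refine (frontier_union_subset A B).trans ?_
    exact union_subset_union inter_subset_left inter_subset_right
  have hsub2 : frontier (A ∩ B) ⊆ frontier A ∪ frontier B := by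
    refine (frontier_inter_subset A B).trans ?_
    exact union_subset_union inter_subset_left inter_subset_right
  apply add_le_add
  · exact measure_mono (union_subset hsub1 hsub2)
  · apply measure_mono
    rintro x ⟨h1, h2⟩
    have h3 : x ∈ A ∩ B := (hA.inter hB).frontier_subset h2
    rw [(hA.union hB).frontier_eq] at h1
    refine ⟨?_, ?_⟩
    · rw [hA.frontier_eq]
      exact ⟨h3.1, fun h => h1.2 (interior_mono subset_union_left h)⟩
    · rw [hB.frontier_eq]
      exact ⟨h3.2, fun h => h1.2 (interior_mono subset_union_right h)⟩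

theorem H1_image (f : E2 ≃ᵢ E2) (s : Set E2) : H1 (f '' s) = H1 s := by
  exact f.hausdorffMeasure_image 1 s

theorem frontier_image (f : E2 ≃ᵢ E2) (s : Set E2) : frontier (f '' s) = f '' frontier s := by
  exact (f.toHomeomorph.image_frontier s).symm

theorem volume_image (f : E2 ≃ᵢ E2) (s : Set E2) : volume (f '' s) = volume s := by
  have h := f.isometry.euclideanHausdorffMeasure_image (d := 2) s
  rwa [EuclideanSpace.euclideanHausdorffMeasure_eq_volume 2] at h

theorem convex_image (f : E2 ≃ᵢ E2) {s : Set E2} (hs : Convex ℝ s) : Convex ℝ (f '' s) := by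
  have : (f : E2 → E2) = f.toRealAffineIsometryEquiv.toAffineEquiv.toAffineMap := by
    ext x; rfl
  rw [this]
  exact hs.affine_image _

/-- The Cheeger-type inequality for finite unions of compact convex subsets of `C`. -/
def Cheeger (C : Set E2) (l : ℝ≥0∞) : Prop :=
  ∀ (n : ℕ) (K : Fin n → Set E2), (∀ i, IsCompact (K i)) → (∀ i, Convex ℝ (K i)) →
    (∀ i, K i ⊆ C) → l * volume (⋃ i, K i) ≤ H1 (frontier (⋃ i, K i))

theorem cheeger_union {C : Set E2} (hC : IsCompact C) (hconv : Convex ℝ C) {l : ℝ≥0∞}
    (hl : l ≠ ∞) (h1 : H1 (frontier C) ≤ l * volume C) (h2 : Cheeger C l) :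
    ∀ (n : ℕ) (f : Fin n → (E2 ≃ᵢ E2)),
      H1 (frontier (⋃ i, f i '' C)) ≤ l * volume (⋃ i, f i '' C) := by
  intro n
  induction n with
  | zero => intro f; simp
  | succ n ih =>
    intro f
    set U : Set E2 := ⋃ i : Fin n, f i.castSucc '' C with hU
    set g := f (Fin.last n) with hg
    have hUeq : (⋃ i, f i '' C) = U ∪ g '' C := by
      ext x
      simp only [mem_iUnion, mem_union, hU, hg]
      constructor
      · rintro ⟨i, hi⟩
        induction i using Fin.lastCases with
        | last => exact Or.inr hi
        | cast j => exact Or.inl ⟨j, hi⟩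
      · rintro (⟨j, hj⟩ | h)
        · exact ⟨j.castSucc, hj⟩
        · exact ⟨Fin.last n, h⟩
    rw [hUeq]
    have hcomp : ∀ g : E2 ≃ᵢ E2, IsCompact (g '' C) := fun g => hC.image g.continuous
    have hUc : IsCompact U := isCompact_iUnion fun i => hcomp _
    have hgc : IsCompact (g '' C) := hcomp g
    -- the intersection
    set K : Fin n → Set E2 := fun i => g.symm '' (f i.castSucc '' C) ∩ C with hK
    have hKc : ∀ i, IsCompact (K i) := fun i =>
      ((hcomp _).image g.symm.continuous).inter hC
    have hKconv : ∀ i, Convex ℝ (K i) := fun i =>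
      (convex_image _ (convex_image _ hconv)).inter hconv
    have hKi : g '' (⋃ i, K i) = U ∩ g '' C := by
      rw [image_iUnion, hU, iUnion_inter]
      congr 1
      ext1 i
      rw [hK]
      simp only
      rw [image_inter g.injective]
      congr 1
      ext x
      simp only [mem_image]
      constructor
      · rintro ⟨y, ⟨z, hz, rfl⟩, rfl⟩
        simpa using hz
      · intro hx
        exact ⟨g.symm x, ⟨x, hx, rfl⟩, by simp⟩
    have hch := h2 n K hKc hKconv (fun i => inter_subset_right)
    have e1 : volume (⋃ i, K i) = volume (U ∩ g '' C) := by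
      rw [← hKi, volume_image]
    have e2 : H1 (frontier (⋃ i, K i)) = H1 (frontier (U ∩ g '' C)) := by
      rw [← hKi, frontier_image, H1_image]
    rw [e1, e2] at hch
    have hsub := frontier_submod H1 hUc.isClosed hgc.isClosed
    have h3 := ih fun i => f i.castSucc
    have h4 : H1 (frontier (g '' C)) ≤ l * volume (g '' C) := by
      rw [frontier_image, H1_image, volume_image]
      exact h1
    have h5 : l * volume (U ∪ g '' C) + l * volume (U ∩ g '' C) =
        l * volume U + l * volume (g '' C) := by
      rw [← mul_add, ← mul_add, measure_union_add_inter _ hgc.measurableSet]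
    have h6 : H1 (frontier (U ∪ g '' C)) + H1 (frontier (U ∩ g '' C)) ≤
        l * volume (U ∪ g '' C) + l * volume (U ∩ g '' C) := by
      rw [h5]
      exact hsub.trans (add_le_add h3 h4)
    have h7 : H1 (frontier (U ∩ g '' C)) ≠ ∞ := by
      have hfin : l * volume (U ∪ g '' C) + l * volume (U ∩ g '' C) < ∞ := by
        apply ENNReal.add_lt_top.2
        exact ⟨ENNReal.mul_lt_top hl.lt_top (hUc.union hgc).measure_lt_top,
          ENNReal.mul_lt_top hl.lt_top (hUc.inter hgc).measure_lt_top⟩
      exact ne_of_lt ((le_add_self.trans h6).trans_lt hfin)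
    have h8 := h6.trans (add_le_add_right hch _)
    exact (ENNReal.add_le_add_iff_right h7).1 h8

/-- The main reduction. -/
theorem self_maximising {C : Set E2} (hC : IsCompact C) (hconv : Convex ℝ C) {l : ℝ≥0∞}
    (hl : l ≠ ∞) (h1 : H1 (frontier C) ≤ l * volume C) (h2 : Cheeger C l)
    (n : ℕ) (f : Fin n → (E2 ≃ᵢ E2)) :
    H1 (frontier (⋃ i, f i '' C)) * volume C ≤ H1 (frontier C) * volume (⋃ i, f i '' C) := by
  have h3 := cheeger_union hC hconv hl h1 h2 n f
  have h4 : l * volume C ≤ H1 (frontier C) := by
    have := h2 1 (fun _ => C) (fun _ => hC) (fun _ => hconv) (fun _ => Subset.rfl)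
    rwa [iUnion_const] at this
  calc H1 (frontier (⋃ i, f i '' C)) * volume C ≤ (l * volume (⋃ i, f i '' C)) * volume C := by
        gcongr
    _ = (l * volume C) * volume (⋃ i, f i '' C) := by ring
    _ ≤ H1 (frontier C) * volume (⋃ i, f i '' C) := by gcongr

end Pool.Agent.V11159.SM
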