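import Pool.Agent.V11159.SM1

/-!
Self-maximising sets, part 2: the boundary of a convex set is cut into pieces with almost constant
normal direction.
-/

set_option autoImplicit false

namespace Pool.Agent.V11159.SM

open MeasureTheory Set
open scoped ENNReal RealInnerProductSpace

/-- Points of `A` with a supporting normal in `N`. -/
def Npt (A N : Set E2) : Set E2 := {b | b ∈ A ∧ ∃ n ∈ N, ∀ z ∈ A, ⟪n, z - b⟫ ≤ 0}

theorem isCompact_Npt {A N : Set E2} (hA : IsCompact A) (hN : IsCompact N) :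
    IsCompact (Npt A N) := by
  have h1 : IsCompact ((A ×ˢ N) ∩ ⋂ z ∈ A, {p : E2 × E2 | ⟪p.2, z - p.1⟫ ≤ 0}) := by
    apply (hA.prod hN).inter_right
    apply isClosed_biInter
    intro z _
    exact isClosed_le (by fun_prop) continuous_const
  have h2 : Npt A N = Prod.fst '' ((A ×ˢ N) ∩ ⋂ z ∈ A, {p : E2 × E2 | ⟪p.2, z - p.1⟫ ≤ 0}) := by
    ext b
    simp only [Npt, mem_ofPred_eq, mem_image, mem_inter_iff, mem_prod, mem_iInter, Prod.exists,
      exists_and_right, exists_eq_right]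
    constructor
    · rintro ⟨hb, n, hn, h⟩
      exact ⟨n, ⟨hb, hn⟩, h⟩
    · rintro ⟨n, ⟨hb, hn⟩, h⟩
      exact ⟨hb, n, hn, h⟩
  rw [h2]
  exact h1.image continuous_fst

theorem exists_normal {A : Set E2} (hA : IsCompact A) (hconv : Convex ℝ A) {b : E2} (hb : b ∈ A)
    (hb' : b ∉ interior A) : b ∈ Npt A (Metric.sphere 0 1) := by
  have hcl : IsClosed (Npt A (Metric.sphere 0 1)) :=
    (isCompact_Npt hA (isCompact_sphere 0 1)).isClosed
  rw [← hcl.closure_eq, Metric.mem_closure_iff]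
  intro ε hε
  -- a point outside A near b
  have h1 : ∃ p, dist p b < ε / 2 ∧ p ∉ A := by
    by_contra hcon
    push Not at hcon
    apply hb'
    rw [mem_interior_iff_mem_nhds, Metric.mem_nhds_iff]
    exact ⟨ε / 2, by positivity, fun p hp => hcon p hp⟩
  obtain ⟨p, hp, hpA⟩ := h1
  obtain ⟨v, hv, hmin⟩ := exists_norm_eq_iInf_of_complete_convex ⟨b, hb⟩ hA.isComplete hconv p
  have hin := (norm_eq_iInf_iff_real_inner_le_zero hconv hv).1 hmin
  have hpv : p - v ≠ 0 := by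
    intro h
    rw [sub_eq_zero] at h
    exact hpA (h ▸ hv)
  have hpos : 0 < ‖p - v‖ := norm_pos_iff.2 hpv
  refine ⟨v, ⟨hv, (‖p - v‖)⁻¹ • (p - v), ?_, ?_⟩, ?_⟩
  · rw [mem_sphere_zero_iff_norm, norm_smul, norm_inv, norm_norm, inv_mul_cancel₀ hpos.ne']
  · intro z hz
    rw [real_inner_smul_left]
    exact mul_nonpos_of_nonneg_of_nonpos (by positivity) (hin z hz)
  · have h2 : ‖p - v‖ ≤ dist p b := by
      rw [hmin, dist_eq_norm]
      exact ciInf_le ⟨0, by rintro _ ⟨w, rfl⟩; exact norm_nonneg _⟩ (⟨b, hb⟩ : A)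
    calc dist b v ≤ dist b p + dist p v := dist_triangle _ _ _
      _ ≤ dist p b + dist p b := by
          rw [dist_comm b p, dist_eq_norm p v]
          linarith
      _ < ε := by linarith

theorem secant {A N : Set E2} {u : E2} {η : ℝ} (hN : N ⊆ Metric.closedBall u η) {b b' : E2}
    (hb : b ∈ Npt A N) (hb' : b' ∈ Npt A N) : |⟪u, b' - b⟫| ≤ η * ‖b' - b‖ := by
  obtain ⟨hbA, n, hn, h⟩ := hb
  obtain ⟨hbA', n', hn', h'⟩ := hb'
  have h1 := h b' hbA'
  have h2 := h' b hbA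
  have e1 : ⟪u, b' - b⟫ = ⟪n, b' - b⟫ + ⟪u - n, b' - b⟫ := by
    rw [← inner_add_left]; congr 1; abel
  have e2 : ⟪u, b' - b⟫ = -⟪n', b - b'⟫ + ⟪u - n', b' - b⟫ := by
    rw [← inner_neg_right, ← neg_sub b' b, neg_neg, ← inner_add_left]
    congr 1
    abel
  have f1 : |⟪u - n, b' - b⟫| ≤ η * ‖b' - b‖ := by
    refine (abs_real_inner_le_norm _ _).trans ?_
    have := hN hn
    rw [Metric.mem_closedBall, dist_comm, dist_eq_norm] at this
    gcongr
  have f2 : |⟪u - n', b' - b⟫| ≤ η * ‖b' - b‖ := by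
    refine (abs_real_inner_le_norm _ _).trans ?_
    have := hN hn'
    rw [Metric.mem_closedBall, dist_comm, dist_eq_norm] at this
    gcongr
  rw [abs_le]
  have g1 := abs_le.1 f1
  have g2 := abs_le.1 f2
  constructor
  · rw [e2]; linarith [g2.1]
  · rw [e1]; linarith [g1.2]

theorem inner_E2 (u w : E2) : ⟪u, w⟫ = u 0 * w 0 + u 1 * w 1 := by
  rw [PiLp.inner_apply, Fin.sum_univ_two]
  simp only [RCLike.inner_apply, conj_trivial]
  ring

theorem norm_sq_E2 (w : E2) : ‖w‖ ^ 2 = w 0 ^ 2 + w 1 ^ 2 := by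
  rw [EuclideanSpace.norm_sq_eq, Fin.sum_univ_two, Real.norm_eq_abs, Real.norm_eq_abs, sq_abs,
    sq_abs]

theorem coord_bound {u w : E2} {η : ℝ} (hu : ‖u‖ = 1) (h : |⟪u, w⟫| ≤ η * ‖w‖) :
    |w 0| ≤ (|u 1| + η) * ‖w‖ ∧ |w 1| ≤ (|u 0| + η) * ‖w‖ := by
  have hu2 : u 0 ^ 2 + u 1 ^ 2 = 1 := by rw [← norm_sq_E2, hu]; norm_num
  have hw2 := norm_sq_E2 w
  rw [inner_E2] at h
  set t := -(w 0 * u 1) + w 1 * u 0 with ht
  set s := u 0 * w 0 + u 1 * w 1 with hs
  have hst : s ^ 2 + t ^ 2 = ‖w‖ ^ 2 := by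
    rw [hw2, hs, ht]
    linear_combination (w 0 ^ 2 + w 1 ^ 2) * hu2
  have hn : 0 ≤ ‖w‖ := norm_nonneg w
  have ht' : |t| ≤ ‖w‖ := abs_le_of_sq_le_sq (by nlinarith [sq_nonneg s]) hn
  have hu0 : |u 0| ≤ 1 := abs_le_one_iff_mul_self_le_one.2 (by nlinarith [sq_nonneg (u 1)])
  have hu1 : |u 1| ≤ 1 := abs_le_one_iff_mul_self_le_one.2 (by nlinarith [sq_nonneg (u 0)])
  have e0 : w 0 = s * u 0 - t * u 1 := by rw [hs, ht]; linear_combination (-w 0) * hu2
  have e1 : w 1 = s * u 1 + t * u 0 := by rw [hs, ht]; linear_combination (-w 1) * hu2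
  constructor
  · calc |w 0| = |s * u 0 - t * u 1| := by rw [← e0]
      _ ≤ |s * u 0| + |t * u 1| := abs_sub _ _
      _ = |s| * |u 0| + |t| * |u 1| := by rw [abs_mul, abs_mul]
      _ ≤ (η * ‖w‖) * 1 + ‖w‖ * |u 1| := by
          have h0' : 0 ≤ η * ‖w‖ := (abs_nonneg _).trans h
          gcongr
      _ = (|u 1| + η) * ‖w‖ := by ring
  · calc |w 1| = |s * u 1 + t * u 0| := by rw [← e1]
      _ ≤ |s * u 1| + |t * u 0| := abs_add_le _ _
      _ = |s| * |u 1| + |t| * |u 0| := by rw [abs_mul, abs_mul]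
      _ ≤ (η * ‖w‖) * 1 + ‖w‖ * |u 0| := by
          have h0' : 0 ≤ η * ‖w‖ := (abs_nonneg _).trans h
          gcongr
      _ = (|u 0| + η) * ‖w‖ := by ring

/-- The extreme abscissae of `A`. -/
def Zs (A : Set E2) : Set ℝ :=
  {x | ∃ b ∈ A, b 0 = x ∧ ∀ z ∈ A, z 0 ≤ x} ∪ {x | ∃ b ∈ A, b 0 = x ∧ ∀ z ∈ A, x ≤ z 0}

theorem countable_Zs (A : Set E2) : (Zs A).Countable := by
  apply Countable.union
  · apply Set.Subsingleton.countable
    rintro x ⟨b, hb, rfl, h⟩ y ⟨b', hb', rfl, h'⟩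
    exact le_antisymm (h' b hb) (h b' hb')
  · apply Set.Subsingleton.countable
    rintro x ⟨b, hb, rfl, h⟩ y ⟨b', hb', rfl, h'⟩
    exact le_antisymm (h b' hb') (h' b hb)

theorem vert_aux {A : Set E2} {b n : E2} (hb : b ∈ A) (hn : ‖n‖ = 1) (hn1 : n 1 = 0)
    (h : ∀ z ∈ A, ⟪n, z - b⟫ ≤ 0) : b 0 ∈ Zs A := by
  have hn2 : n 0 ^ 2 = 1 := by
    have := norm_sq_E2 n
    rw [hn, hn1] at this
    linarith
  have h01 : n 0 = 1 ∨ n 0 = -1 := by
    have : (n 0 - 1) * (n 0 + 1) = 0 := by linear_combination hn2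
    rcases mul_eq_zero.1 this with h | h
    · left; linarith
    · right; linarith
  rcases h01 with h1 | h1
  · left
    refine ⟨b, hb, rfl, fun z hz => ?_⟩
    have := h z hz
    rw [inner_E2, hn1, h1] at this
    simp only [PiLp.sub_apply] at this
    linarith
  · right
    refine ⟨b, hb, rfl, fun z hz => ?_⟩
    have := h z hz
    rw [inner_E2, hn1, h1] at this
    simp only [PiLp.sub_apply] at this
    linarith

theorem vert {A N : Set E2} (hN : N ⊆ Metric.sphere 0 1)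
    (hs : (∀ n ∈ N, 0 ≤ n 1) ∨ (∀ n ∈ N, n 1 ≤ 0)) {b b' : E2} (hb : b ∈ Npt A N)
    (hb' : b' ∈ Npt A N) (h0 : b 0 = b' 0) (h1 : b 1 < b' 1) : b 0 ∈ Zs A := by
  obtain ⟨hbA, n, hn, h⟩ := hb
  obtain ⟨hbA', n', hn', h'⟩ := hb'
  have e1 := h b' hbA'
  have e2 := h' b hbA
  rw [inner_E2] at e1 e2
  simp only [PiLp.sub_apply] at e1 e2
  rw [h0, sub_self, mul_zero, zero_add] at e1
  rw [h0, sub_self, mul_zero, zero_add] at e2
  have f1 : n 1 ≤ 0 := by
    by_contra hcon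
    push Not at hcon
    nlinarith [mul_pos hcon (sub_pos.2 h1)]
  have f2 : 0 ≤ n' 1 := by
    by_contra hcon
    push Not at hcon
    nlinarith [mul_pos (neg_pos.2 hcon) (sub_pos.2 h1)]
  rcases hs with hs | hs
  · exact vert_aux hbA (by simpa using hN hn) (le_antisymm f1 (hs n hn)) h
  · rw [h0]
    exact vert_aux hbA' (by simpa using hN hn') (le_antisymm (hs n' hn') f2) h'

theorem pieces {n : ℕ} (K : Fin n → Set E2) (hc : ∀ i, IsCompact (K i))
    (hconv : ∀ i, Convex ℝ (K i)) {η : ℝ} (hη : 0 < η) :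
    ∃ (m : ℕ) (Γ : Fin m → Set E2) (s c : Fin m → ℝ), (∀ α, IsCompact (Γ α)) ∧
      (∀ α, 0 ≤ s α ∧ 0 ≤ c α ∧ s α ^ 2 + c α ^ 2 ≤ 1) ∧
      (∀ i, ∀ b ∈ K i, b ∉ interior (K i) → ∃ α, b ∈ Γ α) ∧
      (∀ α, ∀ b ∈ Γ α, ∀ b' ∈ Γ α, |b 0 - b' 0| ≤ (s α + η) * dist b b' ∧
        |b 1 - b' 1| ≤ (c α + η) * dist b b') ∧
      (∀ α, ∀ b ∈ Γ α, ∀ b' ∈ Γ α, b 0 = b' 0 → b ≠ b' → b 0 ∈ ⋃ i, Zs (K i)) := by
  classical
  obtain ⟨T, hT, hTf, hcov⟩ :=
    (isCompact_sphere (0 : E2) 1).finite_cover_balls hη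
  -- index type
  let N : E2 → Bool → Set E2 := fun u σ =>
    (Metric.sphere 0 1 ∩ Metric.closedBall u η) ∩ {w : E2 | if σ then 0 ≤ w 1 else w 1 ≤ 0}
  have hNc : ∀ u σ, IsCompact (N u σ) := by
    intro u σ
    apply IsCompact.inter_right
    · exact (isCompact_sphere 0 1).inter_right Metric.isClosed_closedBall
    · cases σ
      · simp only [Bool.false_eq_true, if_false]
        exact isClosed_le (by fun_prop) continuous_const
      · simp only [if_true]
        exact isClosed_le continuous_const (by fun_prop)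
  haveI : Fintype T := hTf.fintype
  let ι := Fin n × T × Bool
  let e : ι ≃ Fin (Fintype.card ι) := Fintype.equivFin ι
  refine ⟨Fintype.card ι, fun α => Npt (K (e.symm α).1) (N (e.symm α).2.1 (e.symm α).2.2),
    fun α => |((e.symm α).2.1 : E2) 1|, fun α => |((e.symm α).2.1 : E2) 0|, ?_, ?_, ?_, ?_, ?_⟩
  · intro α
    exact isCompact_Npt (hc _) (hNc _ _)
  · intro α
    refine ⟨abs_nonneg _, abs_nonneg _, ?_⟩
    have h1 : ‖((e.symm α).2.1 : E2)‖ = 1 := by
      have := hT (e.symm α).2.1.2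
      simpa using this
    have := norm_sq_E2 ((e.symm α).2.1 : E2)
    rw [h1] at this
    rw [sq_abs, sq_abs]
    linarith
  · intro i b hb hb'
    obtain ⟨-, ν, hν, h⟩ := exists_normal (hc i) (hconv i) hb hb'
    have := hcov hν
    simp only [mem_iUnion, exists_prop] at this
    obtain ⟨u, hu, hνu⟩ := this
    refine ⟨e (i, ⟨u, hu⟩, decide (0 ≤ ν 1)), ?_⟩
    simp only [Equiv.symm_apply_apply]
    refine ⟨hb, ν, ⟨⟨hν, Metric.ball_subset_closedBall hνu⟩, ?_⟩, h⟩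
    by_cases h0 : 0 ≤ ν 1
    · simp [h0]
    · simp [h0]
      exact (not_le.1 h0).le
  · intro α b hb b' hb'
    have h1 : ‖((e.symm α).2.1 : E2)‖ = 1 := by
      have := hT (e.symm α).2.1.2
      simpa using this
    have h2 : N (e.symm α).2.1 (e.symm α).2.2 ⊆ Metric.closedBall ((e.symm α).2.1 : E2) η :=
      fun w hw => hw.1.2
    have h3 := coord_bound h1 (secant h2 hb' hb)
    rw [dist_eq_norm]
    simpa using h3
  · intro α b hb b' hb' h0 hne
    have h1 : N (e.symm α).2.1 (e.symm α).2.2 ⊆ Metric.sphere 0 1 := fun w hw => hw.1.1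
    have h2 : (∀ w ∈ N (e.symm α).2.1 (e.symm α).2.2, 0 ≤ w 1) ∨
        (∀ w ∈ N (e.symm α).2.1 (e.symm α).2.2, w 1 ≤ 0) := by
      cases hσ : (e.symm α).2.2
      · right
        intro w hw
        have := hw.2
        simpa using this
      · left
        intro w hw
        have := hw.2
        simpa using this
    rw [mem_iUnion]
    refine ⟨(e.symm α).1, ?_⟩
    have h3 : b 1 ≠ b' 1 := by
      intro h
      apply hne
      ext i
      fin_cases i
      · exact h0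
      · exact h
    rcases lt_or_gt_of_ne h3 with h4 | h4
    · exact vert h1 h2 hb hb' h0 h4
    · rw [h0]
      exact vert h1 h2 hb' hb h0.symm h4

end Pool.Agent.V11159.SM
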