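import Pool.Agent.V11159.SM2

/-!
Self-maximising sets, part 3: length of the boundary in a vertical strip.
-/

set_option autoImplicit false

namespace Pool.Agent.V11159.SM

open MeasureTheory Set
open scoped ENNReal NNReal symmDiff

/-- The point with given coordinates. -/
noncomputable def pt (x y : ℝ) : E2 := !₂[x, y]

@[simp] theorem pt_zero (x y : ℝ) : pt x y 0 = x := rfl
@[simp] theorem pt_one (x y : ℝ) : pt x y 1 = y := rfl

theorem pt_eta (p : E2) : pt (p 0) (p 1) = p := by
  ext i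
  fin_cases i
  · rfl
  · rfl

theorem continuous_pt_right (x : ℝ) : Continuous (pt x) := by
  have : pt x = fun y => !₂[x, y] := rfl
  rw [this]
  fun_prop

theorem continuous_pt_left (y : ℝ) : Continuous fun x => pt x y := by
  have : (fun x => pt x y) = fun x => !₂[x, y] := rfl
  rw [this]
  fun_prop

theorem dist_pt_same (x y y' : ℝ) : dist (pt x y) (pt x y') = |y - y'| := by
  rw [EuclideanSpace.dist_eq, Fin.sum_univ_two]
  simp [Real.dist_eq, Real.sqrt_sq_eq_abs]

/-- Vertical slice. -/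
def sl (U : Set E2) (x : ℝ) : Set ℝ := {y | pt x y ∈ U}

/-- Vertical strip. -/
def strip (a b : ℝ) : Set E2 := {p | a ≤ p 0 ∧ p 0 ≤ b}

theorem isClosed_strip (a b : ℝ) : IsClosed (strip a b) := by
  have h1 : IsClosed {p : E2 | a ≤ p 0} := isClosed_le continuous_const (by fun_prop)
  have h2 : IsClosed {p : E2 | p 0 ≤ b} := isClosed_le (by fun_prop) continuous_const
  exact h1.inter h2

theorem isCompact_sl {U : Set E2} (hU : IsCompact U) (x : ℝ) : IsCompact (sl U x) := by
  have h : sl U x = (fun p : E2 => p 1) '' (U ∩ {p : E2 | p 0 = x}) := by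
    ext y
    simp only [sl, mem_ofPred_eq, mem_image, mem_inter_iff]
    constructor
    · intro hy
      exact ⟨pt x y, ⟨hy, rfl⟩, rfl⟩
    · rintro ⟨p, ⟨hp, rfl⟩, rfl⟩
      rwa [pt_eta]
  rw [h]
  apply IsCompact.image _ (by fun_prop)
  exact hU.inter_right (isClosed_eq (by fun_prop) continuous_const)

theorem exists_two {U : Set E2} (hU : IsCompact U) {x : ℝ} (hx : volume (sl U x) ≠ 0) :
    ∃ y y', y ≠ y' ∧ pt x y ∈ frontier U ∧ pt x y' ∈ frontier U := by
  have hc := isCompact_sl hU x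
  have hne : (sl U x).Nonempty := by
    by_contra h
    rw [not_nonempty_iff_eq_empty] at h
    rw [h, measure_empty] at hx
    exact hx rfl
  obtain ⟨y, hy, hmax⟩ := hc.exists_isMaxOn hne continuous_id.continuousOn
  obtain ⟨y', hy', hmin⟩ := hc.exists_isMinOn hne continuous_id.continuousOn
  have hfr : ∀ z ∈ sl U x, (∀ ε > 0, ∃ w, |w - z| < ε ∧ w ∉ sl U x) → pt x z ∈ frontier U := by
    intro z hz h
    rw [hU.isClosed.frontier_eq]
    refine ⟨hz, fun hint => ?_⟩
    rw [mem_interior_iff_mem_nhds, Metric.mem_nhds_iff] at hint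
    obtain ⟨ε, hε, hball⟩ := hint
    obtain ⟨w, hw, hw'⟩ := h ε hε
    apply hw'
    apply hball
    rw [Metric.mem_ball, dist_pt_same]
    exact hw
  refine ⟨y, y', ?_, hfr y hy ?_, hfr y' hy' ?_⟩
  · intro heq
    apply hx
    apply Set.Subsingleton.measure_zero
    intro u hu v hv
    have h1 := hmax hu
    have h2 := hmin hu
    have h3 := hmax hv
    have h4 := hmin hv
    simp only [id, mem_ofPred_eq] at h1 h2 h3 h4
    linarith
  · intro ε hε
    refine ⟨y + ε / 2, ?_, ?_⟩
    · rw [add_sub_cancel_left, abs_of_pos (by positivity)]; linarith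
    · intro h
      have := hmax h
      simp only [id, mem_ofPred_eq] at this
      linarith
  · intro ε hε
    refine ⟨y' - ε / 2, ?_, ?_⟩
    · rw [sub_sub_cancel_left, abs_neg, abs_of_pos (by positivity)]; linarith
    · intro h
      have := hmin h
      simp only [id, mem_ofPred_eq] at this
      linarith

theorem preconn_frontier {T U : Set E2} (hT : IsPreconnected T) (h1 : (T ∩ U).Nonempty)
    (h2 : (T ∩ Uᶜ).Nonempty) : (T ∩ frontier U).Nonempty := by
  by_contra hcon
  rw [not_nonempty_iff_eq_empty] at hcon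
  have hsub : T ⊆ interior U ∪ (closure U)ᶜ := by
    intro x hx
    by_cases hxi : x ∈ interior U
    · exact Or.inl hxi
    · refine Or.inr fun hxc => ?_
      have : x ∈ T ∩ frontier U := ⟨hx, hxc, hxi⟩
      rw [hcon] at this
      exact this
  have h3 : (T ∩ interior U).Nonempty := by
    obtain ⟨x, hx, hxU⟩ := h1
    rcases hsub hx with h | h
    · exact ⟨x, hx, h⟩
    · exact absurd (subset_closure hxU) h
  have h4 : (T ∩ (closure U)ᶜ).Nonempty := by
    obtain ⟨x, hx, hxU⟩ := h2
    rcases hsub hx with h | h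
    · exact absurd (interior_subset h) hxU
    · exact ⟨x, hx, h⟩
  obtain ⟨x, -, hx1, hx2⟩ := hT _ _ isOpen_interior isClosed_closure.isOpen_compl hsub h3 h4
  exact hx2 (subset_closure (interior_subset hx1))

theorem cross {U : Set E2} {a b y : ℝ} (hab : a ≤ b) (hy : y ∈ sl U a ∆ sl U b) :
    ∃ x ∈ Icc a b, pt x y ∈ frontier U := by
  have hpre : IsPreconnected ((fun x => pt x y) '' Icc a b) :=
    isPreconnected_Icc.image _ (continuous_pt_left y).continuousOn
  have hma : pt a y ∈ (fun x => pt x y) '' Icc a b := ⟨a, left_mem_Icc.2 hab, rfl⟩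
  have hmb : pt b y ∈ (fun x => pt x y) '' Icc a b := ⟨b, right_mem_Icc.2 hab, rfl⟩
  have h : ((fun x => pt x y) '' Icc a b ∩ frontier U).Nonempty := by
    rcases hy with ⟨h1, h2⟩ | ⟨h1, h2⟩
    · exact preconn_frontier hpre ⟨_, hma, h1⟩ ⟨_, hmb, h2⟩
    · exact preconn_frontier hpre ⟨_, hmb, h1⟩ ⟨_, hma, h2⟩
  obtain ⟨_, ⟨x, hx, rfl⟩, hf⟩ := h
  exact ⟨x, hx, hf⟩

theorem lip_image {A : Set E2} {i : Fin 2} {k : ℝ}
    (h : ∀ b ∈ A, ∀ b' ∈ A, |b i - b' i| ≤ k * dist b b') :
    volume ((fun p : E2 => p i) '' A) ≤ ENNReal.ofReal k * H1 A := by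
  have h1 : LipschitzOnWith (Real.toNNReal k) (fun p : E2 => p i) A := by
    apply LipschitzOnWith.of_dist_le_mul
    intro b hb b' hb'
    rw [Real.dist_eq]
    refine (h b hb b' hb').trans ?_
    gcongr
    exact Real.le_coe_toNNReal k
  have h2 := h1.hausdorffMeasure_image_le (d := 1) zero_le_one
  rw [hausdorffMeasure_real, ENNReal.rpow_one] at h2
  exact h2

theorem strip_eta {n : ℕ} (K : Fin n → Set E2) (hc : ∀ i, IsCompact (K i))
    (hconv : ∀ i, Convex ℝ (K i)) (hfin : H1 (frontier (⋃ i, K i)) ≠ ∞) {η : ℝ} (hη : 0 < η)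
    {a b p q : ℝ} (hab : a ≤ b) (hp : 0 ≤ p) (hq : 0 ≤ q) (hpq : p ^ 2 + q ^ 2 ≤ 1)
    (hL : p = 0 ∨ ∀ x ∈ Icc a b, volume (sl (⋃ i, K i) x) ≠ 0) :
    2 * p * (b - a) + q * (volume (sl (⋃ i, K i) a ∆ sl (⋃ i, K i) b)).toReal ≤
      (1 + 2 * η) * (H1 (frontier (⋃ i, K i) ∩ strip a b)).toReal := by
  classical
  obtain ⟨m, Γ, s, c, hΓc, hsc, hcov, hlip, hvert⟩ := pieces K hc hconv hη
  set U := ⋃ i, K i with hU
  have hUc : IsCompact U := isCompact_iUnion hc
  set F := frontier U ∩ strip a b with hF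
  have hFm : MeasurableSet F := (isClosed_frontier.inter (isClosed_strip a b)).measurableSet
  set A : Fin m → Set E2 := fun α => (F ∩ Γ α) \ ⋃ β : Fin m, ⋃ _ : β < α, Γ β with hA
  have hAm : ∀ α, MeasurableSet (A α) := by
    intro α
    apply MeasurableSet.diff (hFm.inter (hΓc α).measurableSet)
    exact MeasurableSet.iUnion fun β => MeasurableSet.iUnion fun _ => (hΓc β).measurableSet
  have hAsub : ∀ α, A α ⊆ Γ α := fun α x hx => hx.1.2
  have hAF : ∀ α, A α ⊆ F := fun α x hx => hx.1.1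
  have hdisj : Pairwise (Function.onFun Disjoint A) := by
    intro α β hne
    rw [Function.onFun, Set.disjoint_left]
    intro x hx hx'
    rcases lt_or_gt_of_ne hne with h | h
    · apply hx'.2
      simp only [mem_iUnion]
      exact ⟨α, h, hx.1.2⟩
    · apply hx.2
      simp only [mem_iUnion]
      exact ⟨β, h, hx'.1.2⟩
  have hcovA : ∀ x ∈ F, ∃ α, x ∈ A α := by
    intro x hx
    have h1 : ∃ α, x ∈ Γ α := by
      have h2 := hx.1
      rw [hUc.isClosed.frontier_eq] at h2
      obtain ⟨i, hi⟩ := mem_iUnion.1 h2.1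
      refine hcov i x hi fun h => h2.2 ?_
      exact interior_mono (subset_iUnion K i) h
    have h3 : (Finset.univ.filter fun α => x ∈ Γ α).Nonempty := by
      obtain ⟨α, hα⟩ := h1
      exact ⟨α, by simpa using hα⟩
    refine ⟨(Finset.univ.filter fun α => x ∈ Γ α).min' h3, ⟨hx, ?_⟩, ?_⟩
    · have := Finset.min'_mem _ h3
      simpa using this
    · simp only [mem_iUnion, not_exists]
      intro β hβ hxβ
      have := Finset.min'_le (Finset.univ.filter fun α => x ∈ Γ α) β (by simpa using hxβ)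
      exact absurd hβ (not_lt.2 this)
  have hsum : ∑ α, H1 (A α) ≤ H1 F := by
    have h1 := measure_iUnion (μ := H1) hdisj hAm
    rw [tsum_fintype] at h1
    rw [← h1]
    exact measure_mono (iUnion_subset hAF)
  -- projection to the second axis
  have hprojy : volume (sl U a ∆ sl U b) ≤ ∑ α, volume ((fun p : E2 => p 1) '' A α) := by
    have h1 : sl U a ∆ sl U b ⊆ ⋃ α, (fun p : E2 => p 1) '' A α := by
      intro y hy
      obtain ⟨x, hx, hf⟩ := cross hab hy
      obtain ⟨α, hα⟩ := hcovA (pt x y) ⟨hf, hx⟩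
      exact mem_iUnion.2 ⟨α, pt x y, hα, rfl⟩
    refine (measure_mono h1).trans ?_
    have := measure_iUnion_le (μ := (volume : Measure ℝ)) fun α => (fun p : E2 => p 1) '' A α
    rwa [tsum_fintype] at this
  -- projection to the first axis
  have hprojx : ENNReal.ofReal (2 * p * (b - a)) ≤
      ENNReal.ofReal p * ∑ α, volume ((fun p : E2 => p 0) '' A α) := by
    rcases hL with h0 | hL
    · rw [h0]; simp
    have hZ : (⋃ i, Zs (K i)).Countable := countable_iUnion fun i => countable_Zs (K i)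
    have hZ0 : volume (⋃ i, Zs (K i)) = 0 := hZ.measure_zero _
    set B : Fin m → Set ℝ := fun α => toMeasurable volume ((fun p : E2 => p 0) '' A α) with hB
    have hBm : ∀ α, MeasurableSet (B α) := fun α => measurableSet_toMeasurable _ _
    have hBv : ∀ α, volume (B α) = volume ((fun p : E2 => p 0) '' A α) := fun α =>
      measure_toMeasurable _
    have hpt : ∀ x ∈ Icc a b \ ⋃ i, Zs (K i), (2 : ℝ≥0∞) ≤ ∑ α, (B α).indicator 1 x := by
      rintro x ⟨hx, hxZ⟩
      obtain ⟨y, y', hne, h1, h2⟩ := exists_two hUc (hL x hx)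
      obtain ⟨α, hα⟩ := hcovA (pt x y) ⟨h1, hx⟩
      obtain ⟨β, hβ⟩ := hcovA (pt x y') ⟨h2, hx⟩
      have hαβ : α ≠ β := by
        rintro rfl
        apply hxZ
        have := hvert α _ (hAsub α hα) _ (hAsub α hβ) rfl (by
          intro h
          apply hne
          have := congrArg (fun p : E2 => p 1) h
          simpa using this)
        simpa using this
      have hxα : x ∈ B α := subset_toMeasurable _ _ ⟨pt x y, hα, rfl⟩
      have hxβ : x ∈ B β := subset_toMeasurable _ _ ⟨pt x y', hβ, rfl⟩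
      calc (2 : ℝ≥0∞) = ∑ γ ∈ ({α, β} : Finset (Fin m)), (B γ).indicator 1 x := by
            rw [Finset.sum_pair hαβ, indicator_of_mem hxα, indicator_of_mem hxβ]
            norm_num
        _ ≤ ∑ γ, (B γ).indicator 1 x :=
            Finset.sum_le_sum_of_subset (Finset.subset_univ _)
    have h2 : 2 * volume (Icc a b \ ⋃ i, Zs (K i)) ≤ ∑ α, volume (B α) := by
      calc 2 * volume (Icc a b \ ⋃ i, Zs (K i))
          = ∫⁻ x in Icc a b \ ⋃ i, Zs (K i), 2 := by
            rw [setLIntegral_const]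
        _ ≤ ∫⁻ x in Icc a b \ ⋃ i, Zs (K i), ∑ α, (B α).indicator 1 x :=
            setLIntegral_mono' (measurableSet_Icc.diff hZ.measurableSet) hpt
        _ ≤ ∫⁻ x, ∑ α, (B α).indicator 1 x := setLIntegral_le_lintegral _ _
        _ = ∑ α, volume (B α) := by
            rw [lintegral_finsetSum _ fun α _ => measurable_one.indicator (hBm α)]
            apply Finset.sum_congr rfl
            intro α _
            exact lintegral_indicator_one (hBm α)
    rw [measure_sdiff_null hZ0, Real.volume_Icc] at h2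
    simp only [hBv] at h2
    calc ENNReal.ofReal (2 * p * (b - a)) = ENNReal.ofReal p * (2 * ENNReal.ofReal (b - a)) := by
          rw [show (2 : ℝ≥0∞) = ENNReal.ofReal 2 by simp, ← ENNReal.ofReal_mul (by norm_num),
            ← ENNReal.ofReal_mul hp]
          congr 1; ring
      _ ≤ _ := by gcongr
  -- the combination
  have hcomb : ∀ α, p * (s α + η) + q * (c α + η) ≤ 1 + 2 * η := by
    intro α
    obtain ⟨h1, h2, h3⟩ := hsc α
    have h4 : p * s α + q * c α ≤ 1 := by
      nlinarith [sq_nonneg (p - s α), sq_nonneg (q - c α)]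
    have h5 : p ≤ 1 := by nlinarith [sq_nonneg q, sq_nonneg (p - 1)]
    have h6 : q ≤ 1 := by nlinarith [sq_nonneg p, sq_nonneg (q - 1)]
    nlinarith
  have hmain : ENNReal.ofReal (2 * p * (b - a)) + ENNReal.ofReal q * volume (sl U a ∆ sl U b) ≤
      ENNReal.ofReal (1 + 2 * η) * H1 F := by
    calc ENNReal.ofReal (2 * p * (b - a)) + ENNReal.ofReal q * volume (sl U a ∆ sl U b)
        ≤ ENNReal.ofReal p * ∑ α, volume ((fun p : E2 => p 0) '' A α) +
          ENNReal.ofReal q * ∑ α, volume ((fun p : E2 => p 1) '' A α) := by gcongr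
      _ ≤ ENNReal.ofReal p * ∑ α, (ENNReal.ofReal (s α + η) * H1 (A α)) +
          ENNReal.ofReal q * ∑ α, (ENNReal.ofReal (c α + η) * H1 (A α)) := by
          gcongr with α _ α _
          · exact lip_image fun x hx y hy => (hlip α x (hAsub α hx) y (hAsub α hy)).1
          · exact lip_image fun x hx y hy => (hlip α x (hAsub α hx) y (hAsub α hy)).2
      _ = ∑ α, ENNReal.ofReal (p * (s α + η) + q * (c α + η)) * H1 (A α) := by
          rw [Finset.mul_sum, Finset.mul_sum, ← Finset.sum_add_distrib]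
          apply Finset.sum_congr rfl
          intro α _
          obtain ⟨h1, h2, h3⟩ := hsc α
          rw [ENNReal.ofReal_add (mul_nonneg hp (by linarith)) (mul_nonneg hq (by linarith)),
            ENNReal.ofReal_mul hp, ENNReal.ofReal_mul hq]
          ring
      _ ≤ ∑ α, ENNReal.ofReal (1 + 2 * η) * H1 (A α) := by
          apply Finset.sum_le_sum
          intro α _
          exact mul_le_mul_left (ENNReal.ofReal_le_ofReal (hcomb α)) _
      _ = ENNReal.ofReal (1 + 2 * η) * ∑ α, H1 (A α) := by rw [Finset.mul_sum]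
      _ ≤ ENNReal.ofReal (1 + 2 * η) * H1 F := by gcongr
  have hF' : H1 F ≠ ∞ := ne_top_of_le_ne_top hfin (measure_mono inter_subset_left)
  have hrhs : ENNReal.ofReal (1 + 2 * η) * H1 F ≠ ∞ := ENNReal.mul_ne_top ENNReal.ofReal_ne_top hF'
  have hv : volume (sl U a ∆ sl U b) ≠ ∞ := by
    apply ne_top_of_le_ne_top _ (measure_mono (symmDiff_subset_union))
    exact ((isCompact_sl hUc a).union (isCompact_sl hUc b)).measure_ne_top
  have h7 := ENNReal.toReal_mono hrhs hmain
  rw [ENNReal.toReal_add ENNReal.ofReal_ne_top (ENNReal.mul_ne_top ENNReal.ofReal_ne_top hv),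
    ENNReal.toReal_mul, ENNReal.toReal_mul, ENNReal.toReal_ofReal hq,
    ENNReal.toReal_ofReal (by positivity),
    ENNReal.toReal_ofReal (by have := sub_nonneg.2 hab; positivity)] at h7
  exact h7

theorem strip_main {n : ℕ} (K : Fin n → Set E2) (hc : ∀ i, IsCompact (K i))
    (hconv : ∀ i, Convex ℝ (K i)) (hfin : H1 (frontier (⋃ i, K i)) ≠ ∞)
    {a b p q : ℝ} (hab : a ≤ b) (hp : 0 ≤ p) (hq : 0 ≤ q) (hpq : p ^ 2 + q ^ 2 ≤ 1)
    (hL : p = 0 ∨ ∀ x ∈ Icc a b, volume (sl (⋃ i, K i) x) ≠ 0) :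
    2 * p * (b - a) + q * (volume (sl (⋃ i, K i) a ∆ sl (⋃ i, K i) b)).toReal ≤
      (H1 (frontier (⋃ i, K i) ∩ strip a b)).toReal := by
  apply le_of_forall_pos_le_add
  intro ε hε
  set ν := (H1 (frontier (⋃ i, K i) ∩ strip a b)).toReal with hν
  have hν0 : 0 ≤ ν := ENNReal.toReal_nonneg
  have h := strip_eta K hc hconv hfin (η := ε / (2 * (ν + 1))) (by positivity) hab hp hq hpq hL
  have h2 : 2 * (ε / (2 * (ν + 1))) * ν ≤ ε := by
    have : 2 * (ε / (2 * (ν + 1))) * ν = ε * (ν / (ν + 1)) := by field_simp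
    rw [this]
    have h3 : ν / (ν + 1) ≤ 1 := by rw [div_le_one (by positivity)]; linarith
    nlinarith
  rw [← hν] at h
  nlinarith

end Pool.Agent.V11159.SM
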