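import Pool.Agent.V11159.SM3

/-!
Self-maximising sets, part 4: the basic inequality between perimeter, area and the longest slice.
-/

set_option autoImplicit false

namespace Pool.Agent.V11159.SM

open MeasureTheory Set
open scoped ENNReal NNReal symmDiff

/-- The primitive of `√(1 - s²)`. -/
noncomputable def G (x : ℝ) : ℝ := ∫ s in (0 : ℝ)..x, √(1 - s ^ 2)

theorem continuous_sqrt_one_sub : Continuous fun s : ℝ => √(1 - s ^ 2) := by fun_prop

theorem G_zero : G 0 = 0 := intervalIntegral.integral_same

theorem G_sub {m u v : ℝ} (hm : 0 ≤ m) (hmu : m ≤ u) (huv : u ≤ v) :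
    0 ≤ G v - G u ∧ G v - G u ≤ √(1 - m ^ 2) * (v - u) := by
  have h : G v - G u = ∫ s in u..v, √(1 - s ^ 2) := by
    unfold G
    rw [intervalIntegral.integral_interval_sub_left]
    · exact continuous_sqrt_one_sub.intervalIntegrable _ _
    · exact continuous_sqrt_one_sub.intervalIntegrable _ _
  rw [h]
  constructor
  · exact intervalIntegral.integral_nonneg huv fun s _ => Real.sqrt_nonneg _
  · have h1 : ∫ s in u..v, √(1 - s ^ 2) ≤ ∫ s in u..v, √(1 - m ^ 2) := by
      apply intervalIntegral.integral_mono_on huv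
      · exact continuous_sqrt_one_sub.intervalIntegrable _ _
      · exact intervalIntegrable_const
      · intro s hs
        apply Real.sqrt_le_sqrt
        nlinarith [hs.1]
    rw [intervalIntegral.integral_const, smul_eq_mul] at h1
    linarith

theorem G_abs {m u v : ℝ} (hm : 0 ≤ m) (hu : m ≤ u) (hv : m ≤ v) :
    |G v - G u| ≤ √(1 - m ^ 2) * |v - u| := by
  rcases le_total u v with h | h
  · obtain ⟨h1, h2⟩ := G_sub hm hu h
    rw [abs_of_nonneg h1, abs_of_nonneg (sub_nonneg.2 h)]
    exact h2
  · obtain ⟨h1, h2⟩ := G_sub hm hv h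
    rw [abs_sub_comm, abs_of_nonneg h1, abs_sub_comm, abs_of_nonneg (sub_nonneg.2 h)]
    exact h2

theorem mp_pt : MeasurePreserving (fun p : ℝ × ℝ => pt p.1 p.2) volume volume := by
  have h1 := (volume_preserving_finTwoArrow ℝ).symm
  have h2 := PiLp.volume_preserving_toLp (Fin 2)
  have h3 := h2.comp h1
  have h4 : (fun p : ℝ × ℝ => pt p.1 p.2) =
      WithLp.toLp 2 ∘ (MeasurableEquiv.finTwoArrow (α := ℝ)).symm := by
    funext p
    rfl
  rw [h4]
  exact h3

theorem volume_eq_slices {S : Set E2} (hS : MeasurableSet S) :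
    volume S = ∫⁻ x, volume (sl S x) := by
  rw [← mp_pt.measure_preimage hS.nullMeasurableSet, Measure.volume_eq_prod,
    Measure.prod_apply (mp_pt.measurable hS)]
  rfl

theorem measurableSet_sl {S : Set E2} (hS : MeasurableSet S) (x : ℝ) : MeasurableSet (sl S x) :=
  (continuous_pt_right x).measurable hS

section

variable {n : ℕ} (K : Fin n → Set E2)

/-- Length of the vertical slice. -/
noncomputable def L (U : Set E2) (x : ℝ) : ℝ := (volume (sl U x)).toReal

/-- Length of the boundary in a vertical strip. -/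
noncomputable def nu (U : Set E2) (a b : ℝ) : ℝ := (H1 (frontier U ∩ strip a b)).toReal

/-- Area in a vertical strip. -/
noncomputable def V (U : Set E2) (a b : ℝ) : ℝ := (volume (U ∩ strip a b)).toReal

theorem L_sub_le {U : Set E2} (hU : IsCompact U) (a b : ℝ) :
    |L U b - L U a| ≤ (volume (sl U a ∆ sl U b)).toReal := by
  have ha := (isCompact_sl hU a).measure_ne_top (μ := volume)
  have hb := (isCompact_sl hU b).measure_ne_top (μ := volume)
  have hv : volume (sl U a ∆ sl U b) ≠ ∞ := by
    apply ne_top_of_le_ne_top _ (measure_mono (symmDiff_subset_union))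
    exact ((isCompact_sl hU a).union (isCompact_sl hU b)).measure_ne_top
  have h1 : L U b ≤ L U a + (volume (sl U a ∆ sl U b)).toReal := by
    unfold L
    rw [← ENNReal.toReal_add ha hv]
    apply ENNReal.toReal_mono (ENNReal.add_ne_top.2 ⟨ha, hv⟩)
    refine (measure_mono ?_).trans (measure_union_le _ _)
    intro y hy
    by_cases h : y ∈ sl U a
    · exact Or.inl h
    · exact Or.inr (Or.inr ⟨hy, h⟩)
  have h2 : L U a ≤ L U b + (volume (sl U a ∆ sl U b)).toReal := by
    unfold L
    rw [← ENNReal.toReal_add hb hv]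
    apply ENNReal.toReal_mono (ENNReal.add_ne_top.2 ⟨hb, hv⟩)
    refine (measure_mono ?_).trans (measure_union_le _ _)
    intro y hy
    by_cases h : y ∈ sl U b
    · exact Or.inl h
    · exact Or.inr (Or.inl ⟨hy, h⟩)
  rw [abs_le]
  constructor <;> linarith

theorem nu_mono {U : Set E2} (hfin : H1 (frontier U) ≠ ∞) {a b a' b' : ℝ} (h1 : a ≤ a')
    (h2 : b' ≤ b) : nu U a' b' ≤ nu U a b := by
  unfold nu
  apply ENNReal.toReal_mono (ne_top_of_le_ne_top hfin (measure_mono inter_subset_left))
  apply measure_mono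
  apply inter_subset_inter_right
  rintro p ⟨h3, h4⟩
  exact ⟨h1.trans h3, h4.trans h2⟩

theorem V_le {U : Set E2} (hU : IsCompact U) {a b s : ℝ} (hab : a ≤ b) (hs : 0 ≤ s)
    (h : ∀ x ∈ Icc a b, L U x ≤ s) : V U a b ≤ s * (b - a) := by
  unfold V
  have hm : MeasurableSet (U ∩ strip a b) := (hU.isClosed.inter (isClosed_strip a b)).measurableSet
  have h1 : volume (U ∩ strip a b) ≤ ENNReal.ofReal (s * (b - a)) := by
    rw [volume_eq_slices hm]
    calc ∫⁻ x, volume (sl (U ∩ strip a b) x)
        ≤ ∫⁻ x, (Icc a b).indicator (fun _ => ENNReal.ofReal s) x := by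
          apply lintegral_mono
          intro x
          by_cases hx : x ∈ Icc a b
          · rw [indicator_of_mem hx]
            have hsub : sl (U ∩ strip a b) x ⊆ sl U x := fun y hy => hy.1
            refine (measure_mono hsub).trans ?_
            rw [← ENNReal.ofReal_toReal ((isCompact_sl hU x).measure_ne_top (μ := volume))]
            exact ENNReal.ofReal_le_ofReal (h x hx)
          · rw [indicator_of_notMem hx]
            have : sl (U ∩ strip a b) x = ∅ := by
              ext y
              simp only [mem_empty_iff_false, iff_false]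
              intro hy
              exact hx hy.2
            show volume (sl (U ∩ strip a b) x) ≤ 0
            rw [this, measure_empty]
      _ = ENNReal.ofReal (s * (b - a)) := by
          rw [lintegral_indicator measurableSet_Icc, setLIntegral_const, Real.volume_Icc,
            ← ENNReal.ofReal_mul hs]
  have h2 := ENNReal.toReal_mono ENNReal.ofReal_ne_top h1
  rwa [ENNReal.toReal_ofReal (mul_nonneg hs (sub_nonneg.2 hab))] at h2

theorem base_step (hc : ∀ i, IsCompact (K i))
    (hconv : ∀ i, Convex ℝ (K i)) (hfin : H1 (frontier (⋃ i, K i)) ≠ ∞)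
    (hL2 : ∀ x, L (⋃ i, K i) x ≤ 2) {a b : ℝ} (hab : a ≤ b) :
    V (⋃ i, K i) a b + 2 * |G (L (⋃ i, K i) b / 2) - G (L (⋃ i, K i) a / 2)| ≤
      nu (⋃ i, K i) a b + (b - a) * nu (⋃ i, K i) a b := by
  set U := ⋃ i, K i with hU
  have hUc : IsCompact U := isCompact_iUnion hc
  set ν := nu U a b with hν
  have hL0 : ∀ x, 0 ≤ L U x := fun x => ENNReal.toReal_nonneg
  have hbdd : BddBelow (L U '' Icc a b) := ⟨0, by rintro _ ⟨x, -, rfl⟩; exact hL0 x⟩
  have hne : (L U '' Icc a b).Nonempty := ⟨_, a, left_mem_Icc.2 hab, rfl⟩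
  set m := sInf (L U '' Icc a b) / 2 with hm
  have hm0 : 0 ≤ m := by
    have : 0 ≤ sInf (L U '' Icc a b) := le_csInf hne (by rintro _ ⟨x, -, rfl⟩; exact hL0 x)
    rw [hm]; linarith
  have hmL : ∀ x ∈ Icc a b, 2 * m ≤ L U x := by
    intro x hx
    have : sInf (L U '' Icc a b) ≤ L U x := csInf_le hbdd ⟨x, hx, rfl⟩
    rw [hm]; linarith
  have hosc : ∀ x ∈ Icc a b, ∀ x' ∈ Icc a b, L U x - L U x' ≤ ν := by
    intro x hx x' hx'
    have key : ∀ u v, u ∈ Icc a b → v ∈ Icc a b → u ≤ v → |L U v - L U u| ≤ ν := by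
      intro u v hu hv huv
      have h1 := strip_main K hc hconv hfin (p := 0) (q := 1) huv le_rfl zero_le_one
        (by norm_num) (Or.inl rfl)
      have h2 := L_sub_le hUc u v
      have h3 : nu U u v ≤ ν := nu_mono hfin hu.1 hv.2
      have h4 : 2 * 0 * (v - u) + 1 * (volume (sl U u ∆ sl U v)).toReal ≤ nu U u v := h1
      linarith
    rcases le_total x x' with h | h
    · have := key x x' hx hx' h
      rw [abs_le] at this
      linarith
    · have := key x' x hx' hx h
      rw [abs_le] at this
      linarith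
  have hLs : ∀ x ∈ Icc a b, L U x ≤ 2 * m + ν := by
    intro x hx
    have : L U x - ν ≤ sInf (L U '' Icc a b) := by
      apply le_csInf hne
      rintro _ ⟨x', hx', rfl⟩
      have := hosc x hx x' hx'
      linarith
    rw [hm]; linarith
  have hν0 : 0 ≤ ν := ENNReal.toReal_nonneg
  have hV := V_le hUc hab (by positivity) hLs
  have hm1 : m ≤ 1 := by
    have := hmL a (left_mem_Icc.2 hab)
    have := hL2 a
    linarith
  have hsq : m ^ 2 + √(1 - m ^ 2) ^ 2 ≤ 1 := by
    rw [Real.sq_sqrt (by nlinarith)]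
    linarith
  have hpos : m = 0 ∨ ∀ x ∈ Icc a b, volume (sl U x) ≠ 0 := by
    rcases hm0.eq_or_lt with h | h
    · exact Or.inl h.symm
    · right
      intro x hx h0
      have := hmL x hx
      unfold L at this
      rw [h0, ENNReal.toReal_zero] at this
      linarith
  have hmain := strip_main K hc hconv hfin hab hm0 (Real.sqrt_nonneg _) hsq hpos
  have hmain' : 2 * m * (b - a) + √(1 - m ^ 2) * (volume (sl U a ∆ sl U b)).toReal ≤ ν := hmain
  have hG := G_abs (u := L U a / 2) (v := L U b / 2) hm0
    (by have := hmL a (left_mem_Icc.2 hab); linarith)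
    (by have := hmL b (right_mem_Icc.2 hab); linarith)
  have h5 : |L U b / 2 - L U a / 2| = |L U b - L U a| / 2 := by
    rw [← sub_div, abs_div, abs_of_pos (by norm_num : (0 : ℝ) < 2)]
  rw [h5] at hG
  have h6 := L_sub_le hUc a b
  have h7 : √(1 - m ^ 2) * |L U b - L U a| ≤
      √(1 - m ^ 2) * (volume (sl U a ∆ sl U b)).toReal := by gcongr
  nlinarith

end

end Pool.Agent.V11159.SM
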