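import Pool.Agent.V11159.SM4

/-!
Self-maximising sets, part 5: the basic inequality, integrated form.
-/

set_option autoImplicit false

namespace Pool.Agent.V11159.SM

open MeasureTheory Set
open scoped ENNReal NNReal symmDiff

/-- Abscissae of vertical lines which meet the boundary in a null set. -/
def good (U : Set E2) : Set ℝ := {c | H1 (frontier U ∩ {p : E2 | p 0 = c}) = 0}

theorem countable_bad {U : Set E2} (hfin : H1 (frontier U) ≠ ∞) : (good U)ᶜ.Countable := by
  haveI : IsFiniteMeasure (H1.restrict (frontier U)) := by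
    refine ⟨?_⟩
    rw [Measure.restrict_apply_univ]
    exact hfin.lt_top
  have h := Measure.countable_meas_level_set_pos (μ := H1.restrict (frontier U))
    (g := fun p : E2 => p 0) (by fun_prop)
  apply h.mono
  intro c hc
  have h1 : MeasurableSet {p : E2 | p 0 = c} :=
    (isClosed_eq (by fun_prop) continuous_const).measurableSet
  show 0 < (H1.restrict (frontier U)) {p : E2 | p 0 = c}
  rw [Measure.restrict_apply h1, inter_comm]
  exact pos_iff_ne_zero.2 hc

theorem exists_good {U : Set E2} (hfin : H1 (frontier U) ≠ ∞) {a b : ℝ} (hab : a < b) :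
    ∃ c ∈ good U, c ∈ Ioo a b := by
  have h := (countable_bad hfin).dense_compl ℝ
  rw [compl_compl] at h
  exact h.exists_between hab

theorem nu_add {U : Set E2} (hfin : H1 (frontier U) ≠ ∞) {a b c : ℝ} (hc : c ∈ good U)
    (hac : a ≤ c) (hcb : c ≤ b) : nu U a c + nu U c b = nu U a b := by
  unfold nu
  have hf : ∀ s, H1 (frontier U ∩ s) ≠ ∞ := fun s =>
    ne_top_of_le_ne_top hfin (measure_mono inter_subset_left)
  rw [← ENNReal.toReal_add (hf _) (hf _)]
  congr 1
  have hm : MeasurableSet (frontier U ∩ strip c b) :=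
    (isClosed_frontier.inter (isClosed_strip c b)).measurableSet
  rw [← measure_union_add_inter _ hm, ← inter_union_distrib_left, ← inter_inter_distrib_left]
  have e1 : strip a c ∪ strip c b = strip a b := by
    ext p
    constructor
    · rintro (⟨h1, h2⟩ | ⟨h1, h2⟩)
      · exact ⟨h1, h2.trans hcb⟩
      · exact ⟨hac.trans h1, h2⟩
    · rintro ⟨h1, h2⟩
      rcases le_total (p 0) c with h | h
      · exact Or.inl ⟨h1, h⟩
      · exact Or.inr ⟨h, h2⟩
  have e2 : H1 (frontier U ∩ (strip a c ∩ strip c b)) = 0 := by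
    apply measure_mono_null _ hc
    apply inter_subset_inter_right
    rintro p ⟨⟨-, h1⟩, ⟨h2, -⟩⟩
    exact le_antisymm h1 h2
  rw [e1, e2, add_zero]

theorem V_add {U : Set E2} (hU : IsCompact U) {a b c : ℝ} :
    V U a b ≤ V U a c + V U c b := by
  unfold V
  have hf : ∀ s, volume (U ∩ s) ≠ ∞ := fun s =>
    ne_top_of_le_ne_top hU.measure_ne_top (measure_mono inter_subset_left)
  rw [← ENNReal.toReal_add (hf _) (hf _)]
  apply ENNReal.toReal_mono (ENNReal.add_ne_top.2 ⟨hf _, hf _⟩)
  refine (measure_mono ?_).trans (measure_union_le _ _)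
  rw [← inter_union_distrib_left]
  apply inter_subset_inter_right
  rintro p ⟨h1, h2⟩
  rcases le_total (p 0) c with h | h
  · exact Or.inl ⟨h1, h⟩
  · exact Or.inr ⟨h, h2⟩

section

variable {n : ℕ} (K : Fin n → Set E2)

theorem ind_step (hc : ∀ i, IsCompact (K i))
    (hconv : ∀ i, Convex ℝ (K i)) (hfin : H1 (frontier (⋃ i, K i)) ≠ ∞)
    (hL2 : ∀ x, L (⋃ i, K i) x ≤ 2) {δ : ℝ} (hδ : 0 < δ) (N : ℕ) :
    ∀ a b : ℝ, a ≤ b → b - a ≤ N * (δ / 2) →
    V (⋃ i, K i) a b + 2 * |G (L (⋃ i, K i) b / 2) - G (L (⋃ i, K i) a / 2)| ≤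
      (1 + δ) * nu (⋃ i, K i) a b := by
  have hbase : ∀ a b : ℝ, a ≤ b → b - a ≤ δ →
      V (⋃ i, K i) a b + 2 * |G (L (⋃ i, K i) b / 2) - G (L (⋃ i, K i) a / 2)| ≤
      (1 + δ) * nu (⋃ i, K i) a b := by
    intro a b hab h
    have h1 := base_step K hc hconv hfin hL2 hab
    have h2 : 0 ≤ nu (⋃ i, K i) a b := ENNReal.toReal_nonneg
    nlinarith
  have hUc : IsCompact (⋃ i, K i) := isCompact_iUnion hc
  induction N with
  | zero =>
    intro a b hab h
    apply hbase a b hab
    simp only [Nat.cast_zero, zero_mul] at h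
    linarith
  | succ N ih =>
    intro a b hab h
    by_cases hd : b - a ≤ δ
    · exact hbase a b hab hd
    push Not at hd
    obtain ⟨c, hcg, hc1, hc2⟩ := exists_good hfin (a := a + δ / 2) (b := a + δ) (by linarith)
    have h1 := hbase a c (by linarith) (by linarith)
    have h2 := ih c b (by linarith) (by push_cast at h; nlinarith)
    have h3 := nu_add hfin hcg (a := a) (b := b) (by linarith) (by linarith)
    have h4 := V_add hUc (a := a) (b := b) (c := c)
    have h5 := abs_sub_le (G (L (⋃ i, K i) b / 2)) (G (L (⋃ i, K i) c / 2))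
      (G (L (⋃ i, K i) a / 2))
    rw [← h3]
    linarith

theorem strip_final (hc : ∀ i, IsCompact (K i))
    (hconv : ∀ i, Convex ℝ (K i)) (hfin : H1 (frontier (⋃ i, K i)) ≠ ∞)
    (hL2 : ∀ x, L (⋃ i, K i) x ≤ 2) {a b : ℝ} (hab : a ≤ b) :
    V (⋃ i, K i) a b + 2 * |G (L (⋃ i, K i) b / 2) - G (L (⋃ i, K i) a / 2)| ≤
      nu (⋃ i, K i) a b := by
  apply le_of_forall_pos_le_add
  intro ε hε
  set ν := nu (⋃ i, K i) a b with hν
  have hν0 : 0 ≤ ν := ENNReal.toReal_nonneg
  have hδ : 0 < ε / (ν + 1) := by positivity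
  obtain ⟨N, hN⟩ := exists_nat_ge ((b - a) / (ε / (ν + 1) / 2))
  have h := ind_step K hc hconv hfin hL2 hδ N a b hab (by
    rwa [div_le_iff₀ (by positivity)] at hN)
  have h2 : ε / (ν + 1) * ν ≤ ε := by
    have : ε / (ν + 1) * ν = ε * (ν / (ν + 1)) := by field_simp
    rw [this]
    have h3 : ν / (ν + 1) ≤ 1 := by rw [div_le_one (by positivity)]; linarith
    nlinarith
  rw [← hν] at h
  nlinarith

/-- The basic inequality: for a finite union `U` of compact convex sets whose vertical slices have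
length at most `2`, the perimeter is at least the area plus `4 G(L(x)/2)` for every good `x`. -/
theorem basic (hc : ∀ i, IsCompact (K i))
    (hconv : ∀ i, Convex ℝ (K i)) (hfin : H1 (frontier (⋃ i, K i)) ≠ ∞)
    (hL2 : ∀ x, L (⋃ i, K i) x ≤ 2) {c : ℝ} (hcg : c ∈ good (⋃ i, K i)) :
    (volume (⋃ i, K i)).toReal + 4 * G (L (⋃ i, K i) c / 2) ≤
      (H1 (frontier (⋃ i, K i))).toReal := by
  set U := ⋃ i, K i with hU
  have hUc : IsCompact U := isCompact_iUnion hc
  obtain ⟨R, hR⟩ := hUc.isBounded.subset_closedBall (0 : E2)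
  have habs : ∀ p ∈ U, |p 0| ≤ R := by
    intro p hp
    have h1 := hR hp
    rw [mem_closedBall_zero_iff] at h1
    have h2 : |p 0| ≤ ‖p‖ := by
      rw [← Real.norm_eq_abs]
      exact PiLp.norm_apply_le p 0
    linarith
  set M := max R |c| + 1 with hM
  have hMR : R < M := by have := le_max_left R |c|; linarith
  have hMc : |c| < M := by have := le_max_right R |c|; linarith
  have hempty : ∀ x, M ≤ |x| → L U x = 0 := by
    intro x hx
    have : sl U x = ∅ := by
      ext y
      simp only [mem_empty_iff_false, iff_false]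
      intro hy
      have := habs _ hy
      rw [pt_zero] at this
      linarith
    unfold L
    rw [this, measure_empty, ENNReal.toReal_zero]
  have hM0 : 0 < M := by have := abs_nonneg c; linarith
  have e1 := hempty (-M) (by rw [abs_neg, abs_of_pos hM0])
  have e2 := hempty M (by rw [abs_of_pos hM0])
  rw [abs_lt] at hMc
  have h1 := strip_final K hc hconv hfin hL2 (a := -M) (b := c) hMc.1.le
  have h2 := strip_final K hc hconv hfin hL2 (a := c) (b := M) hMc.2.le
  rw [← hU] at h1 h2
  rw [e1, zero_div, G_zero, sub_zero] at h1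
  rw [e2, zero_div, G_zero, zero_sub, abs_neg] at h2
  have h3 := nu_add hfin hcg (a := -M) (b := M) hMc.1.le hMc.2.le
  have h4 := V_add hUc (a := -M) (b := M) (c := c)
  have h5 : G (L U c / 2) ≤ |G (L U c / 2)| := le_abs_self _
  have hin : ∀ p ∈ U, p ∈ strip (-M) M := by
    intro p hp
    have := habs p hp
    rw [abs_le] at this
    exact ⟨by linarith [this.1], by linarith [this.2]⟩
  have h6 : V U (-M) M = (volume U).toReal := by
    unfold V
    rw [inter_eq_left.2 hin]
  have h7 : nu U (-M) M = (H1 (frontier U)).toReal := by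
    unfold nu
    rw [inter_eq_left.2 (fun p hp => hin p (hUc.isClosed.frontier_subset hp))]
  rw [h6] at h4
  rw [h7] at h3
  linarith

end

end Pool.Agent.V11159.SM
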