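import Pool.Agent.V11159.SM5

/-!
Self-maximising sets, part 6: the stadium.
-/

set_option autoImplicit false

namespace Pool.Agent.V11159.SM

open MeasureTheory Set Real
open scoped ENNReal NNReal symmDiff

/-! ### facts on `G` -/

theorem integral_symm_eq (M : ℝ) : ∫ s in (-M)..M, √(1 - s ^ 2) = 2 * G M := by
  have h1 : ∫ s in (-M)..M, √(1 - s ^ 2) =
      (∫ s in (-M)..0, √(1 - s ^ 2)) + ∫ s in (0 : ℝ)..M, √(1 - s ^ 2) := by
    rw [intervalIntegral.integral_add_adjacent_intervals]
    · exact continuous_sqrt_one_sub.intervalIntegrable _ _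
    · exact continuous_sqrt_one_sub.intervalIntegrable _ _
  have h2 : ∫ s in (-M)..0, √(1 - s ^ 2) = ∫ s in (0 : ℝ)..M, √(1 - s ^ 2) := by
    have := intervalIntegral.integral_comp_neg (a := 0) (b := M) fun s => √(1 - s ^ 2)
    simp only [neg_sq, neg_zero] at this
    exact this.symm
  rw [h1, h2]
  unfold G
  ring

theorem G_one : G 1 = π / 4 := by
  have h := integral_symm_eq 1
  rw [integral_sqrt_one_sub_sq] at h
  linarith

theorem G_ge {M : ℝ} (h0 : 0 ≤ M) (h1 : M ≤ 1) : π * M ≤ 4 * G M := by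
  rcases h0.eq_or_lt with h | h
  · rw [← h, G_zero]; simp
  have e1 := intervalIntegral.integral_comp_mul_left (a := 0) (b := 1)
    (fun s => √(1 - s ^ 2)) h.ne'
  rw [mul_zero, mul_one, smul_eq_mul] at e1
  have e2 : G M = M * ∫ x in (0 : ℝ)..1, √(1 - (M * x) ^ 2) := by
    rw [e1]
    unfold G
    rw [← mul_assoc, mul_inv_cancel₀ h.ne', one_mul]
  have e3 : G 1 ≤ ∫ x in (0 : ℝ)..1, √(1 - (M * x) ^ 2) := by
    unfold G
    apply intervalIntegral.integral_mono_on zero_le_one
    · exact continuous_sqrt_one_sub.intervalIntegrable _ _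
    · exact Continuous.intervalIntegrable (by fun_prop) _ _
    · intro x hx
      apply Real.sqrt_le_sqrt
      nlinarith [hx.1, hx.2, mul_nonneg h0 hx.1, mul_le_mul_of_nonneg_right h1 hx.1]
  rw [G_one] at e3
  rw [e2]
  nlinarith

/-! ### the stadium -/

/-- The stadium. -/
def stad : Set E2 := {p | ∃ c ∈ Icc (-1 : ℝ) 1, (p 0 - c) ^ 2 + (p 1) ^ 2 ≤ 1}

/-- The part of the stadium in a horizontal strip. -/
def RM (M : ℝ) : Set E2 := {p | |p 1| ≤ M ∧ |p 0| ≤ 1 + √(1 - (p 1) ^ 2)}

theorem stad_eq : stad = RM 1 := by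
  ext p
  constructor
  · rintro ⟨c, hc, h⟩
    have h1 : (p 1) ^ 2 ≤ 1 := by nlinarith [sq_nonneg (p 0 - c)]
    refine ⟨abs_le_one_iff_mul_self_le_one.2 (by nlinarith), ?_⟩
    have h2 : |p 0 - c| ≤ √(1 - (p 1) ^ 2) := by
      apply Real.le_sqrt_of_sq_le
      rw [sq_abs]
      linarith
    have h3 : |c| ≤ 1 := abs_le.2 hc
    calc |p 0| = |c + (p 0 - c)| := by congr 1; ring
      _ ≤ |c| + |p 0 - c| := abs_add_le _ _
      _ ≤ 1 + √(1 - (p 1) ^ 2) := by linarith
  · rintro ⟨h1, h2⟩
    have h3 : (p 1) ^ 2 ≤ 1 := by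
      rw [← sq_abs]
      nlinarith [abs_nonneg (p 1)]
    have hs := Real.sq_sqrt (sub_nonneg.2 h3)
    have hs0 := Real.sqrt_nonneg (1 - (p 1) ^ 2)
    rw [abs_le] at h2
    by_cases ha : p 0 ≤ -1
    · refine ⟨-1, ⟨le_rfl, by norm_num⟩, ?_⟩
      nlinarith
    · push Not at ha
      by_cases hb : 1 ≤ p 0
      · refine ⟨1, ⟨by norm_num, le_rfl⟩, ?_⟩
        nlinarith
      · push Not at hb
        refine ⟨p 0, ⟨ha.le, hb.le⟩, ?_⟩
        rw [sub_self]
        linarith

theorem isClosed_RM (M : ℝ) : IsClosed (RM M) := by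
  have h1 : IsClosed {p : E2 | |p 1| ≤ M} := isClosed_le (by fun_prop) continuous_const
  have h2 : IsClosed {p : E2 | |p 0| ≤ 1 + √(1 - (p 1) ^ 2)} :=
    isClosed_le (by fun_prop) (by fun_prop)
  exact h1.inter h2

theorem isCompact_stad : IsCompact stad := by
  apply (isCompact_closedBall (0 : E2) 3).of_isClosed_subset
  · rw [stad_eq]; exact isClosed_RM 1
  · rintro p ⟨c, hc, h⟩
    rw [mem_closedBall_zero_iff]
    apply abs_le_of_sq_le_sq' _ (by norm_num) |>.2
    rw [norm_sq_E2]
    have h1 : (p 0 - c) ^ 2 ≤ 1 := by nlinarith [sq_nonneg (p 1)]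
    have h2 : |p 0 - c| ≤ 1 := abs_le_one_iff_mul_self_le_one.2 (by nlinarith)
    rw [abs_le] at h2
    nlinarith [hc.1, hc.2]

theorem convex_stad : Convex ℝ stad := by
  rintro p ⟨c, hc, h⟩ q ⟨d, hd, h'⟩ a b ha hb hab
  refine ⟨a * c + b * d, ?_, ?_⟩
  · have h1 : (-1 : ℝ) = a * (-1) + b * (-1) := by linear_combination (1 : ℝ) * hab
    have h2 : (1 : ℝ) = a * 1 + b * 1 := by linear_combination (-1 : ℝ) * hab
    constructor
    · nlinarith [hc.1, hd.1, mul_le_mul_of_nonneg_left hc.1 ha, mul_le_mul_of_nonneg_left hd.1 hb]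
    · nlinarith [hc.2, hd.2, mul_le_mul_of_nonneg_left hc.2 ha, mul_le_mul_of_nonneg_left hd.2 hb]
  · simp only [PiLp.add_apply, PiLp.smul_apply, smul_eq_mul]
    have hb' : b = 1 - a := by linarith
    subst hb'
    have e : (a * p 0 + (1 - a) * q 0 - (a * c + (1 - a) * d)) ^ 2 +
        (a * p 1 + (1 - a) * q 1) ^ 2 = a * ((p 0 - c) ^ 2 + (p 1) ^ 2) +
        (1 - a) * ((q 0 - d) ^ 2 + (q 1) ^ 2) - a * (1 - a) *
          (((p 0 - c) - (q 0 - d)) ^ 2 + (p 1 - q 1) ^ 2) := by ring
    rw [e]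
    have h3 : 0 ≤ a * (1 - a) * (((p 0 - c) - (q 0 - d)) ^ 2 + (p 1 - q 1) ^ 2) := by positivity
    nlinarith [mul_le_mul_of_nonneg_left h ha, mul_le_mul_of_nonneg_left h' hb]

/-! ### area -/

theorem volume_eq_slices' {S : Set E2} (hS : MeasurableSet S) :
    volume S = ∫⁻ y, volume {x | pt x y ∈ S} := by
  rw [← mp_pt.measure_preimage hS.nullMeasurableSet, Measure.volume_eq_prod,
    Measure.prod_apply_symm (mp_pt.measurable hS)]
  rfl

theorem volume_RM {M : ℝ} (h0 : 0 ≤ M) : volume (RM M) = ENNReal.ofReal (4 * M + 4 * G M) := by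
  rw [volume_eq_slices' (isClosed_RM M).measurableSet]
  have h1 : ∀ y, volume {x | pt x y ∈ RM M} =
      (Icc (-M) M).indicator (fun y => ENNReal.ofReal (2 * (1 + √(1 - y ^ 2)))) y := by
    intro y
    by_cases hy : y ∈ Icc (-M) M
    · rw [indicator_of_mem hy]
      have : {x | pt x y ∈ RM M} = Icc (-(1 + √(1 - y ^ 2))) (1 + √(1 - y ^ 2)) := by
        ext x
        simp only [RM, mem_ofPred_eq, pt_zero, pt_one, mem_Icc]
        rw [abs_le, abs_le]
        exact ⟨fun h => h.2, fun h => ⟨hy, h⟩⟩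
      rw [this, Real.volume_Icc]
      congr 1
      ring
    · rw [indicator_of_notMem hy]
      have : {x | pt x y ∈ RM M} = ∅ := by
        ext x
        simp only [RM, mem_ofPred_eq, pt_zero, pt_one, mem_empty_iff_false, iff_false]
        rw [abs_le]
        exact fun h => hy h.1
      rw [this, measure_empty]
  simp_rw [h1]
  rw [lintegral_indicator measurableSet_Icc]
  have hcont : Continuous fun y : ℝ => 2 * (1 + √(1 - y ^ 2)) := by fun_prop
  rw [← ofReal_integral_eq_lintegral_ofReal]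
  · congr 1
    rw [integral_Icc_eq_integral_Ioc, ← intervalIntegral.integral_of_le (by linarith),
      intervalIntegral.integral_const_mul, intervalIntegral.integral_add,
      integral_symm_eq, intervalIntegral.integral_const, smul_eq_mul]
    · ring
    · exact intervalIntegrable_const
    · exact continuous_sqrt_one_sub.intervalIntegrable _ _
  · exact hcont.continuousOn.integrableOn_Icc
  · exact ae_of_all _ fun y => by positivity

theorem volume_stad : volume stad = ENNReal.ofReal (4 + π) := by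
  rw [stad_eq, volume_RM zero_le_one, G_one]
  congr 1
  ring

theorem volume_le_RM {U : Set E2} (hU : IsCompact U) (hsub : U ⊆ stad) {M : ℝ} (h0 : 0 ≤ M)
    (h1 : M ≤ 1) {s : Set ℝ} (hs : sᶜ.Countable) (h : ∀ x ∈ s, L U x ≤ 2 * M) :
    volume U ≤ volume (RM M) := by
  rw [volume_eq_slices hU.isClosed.measurableSet, volume_eq_slices (isClosed_RM M).measurableSet]
  apply lintegral_mono_ae
  have hae : ∀ᵐ x ∂(volume : Measure ℝ), x ∈ s := by
    rw [ae_iff]
    exact hs.measure_zero _
  filter_upwards [hae] with x hx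
  by_cases hM : |x| ≤ 1 + √(1 - M ^ 2)
  · have h2 : Icc (-M) M ⊆ sl (RM M) x := by
      intro y hy
      have hy' : |y| ≤ M := abs_le.2 hy
      refine ⟨by rw [pt_one]; exact hy', ?_⟩
      rw [pt_zero, pt_one]
      refine hM.trans ?_
      gcongr 1 + √(1 - ?_)
      rw [← sq_abs]
      gcongr
    calc volume (sl U x) = ENNReal.ofReal (L U x) := by
          unfold L
          rw [ENNReal.ofReal_toReal ((isCompact_sl hU x).measure_ne_top)]
      _ ≤ ENNReal.ofReal (2 * M) := ENNReal.ofReal_le_ofReal (h x hx)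
      _ = volume (Icc (-M) M) := by rw [Real.volume_Icc]; congr 1; ring
      _ ≤ volume (sl (RM M) x) := measure_mono h2
  · apply measure_mono
    intro y hy
    have h2 := hsub hy
    rw [stad_eq] at h2
    obtain ⟨h3, h4⟩ := h2
    refine ⟨?_, h4⟩
    by_contra hcon
    apply hM
    push Not at hcon
    rw [pt_one] at hcon
    rw [pt_zero, pt_one] at h4
    refine h4.trans ?_
    gcongr 1 + √(1 - ?_)
    rw [← sq_abs y]
    gcongr

/-! ### the Cheeger inequality for the stadium -/

/-- The Cheeger constant of the stadium. -/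
noncomputable def lam : ℝ≥0∞ := ENNReal.ofReal ((4 + 2 * π) / (4 + π))

theorem cheeger_stad : Cheeger stad lam := by
  intro n K hc hconv hsub
  set U := ⋃ i, K i with hU
  have hUc : IsCompact U := isCompact_iUnion hc
  have hUs : U ⊆ stad := iUnion_subset hsub
  by_cases hfin : H1 (frontier U) = ∞
  · rw [hfin]; exact le_top
  have hL0 : ∀ x, 0 ≤ L U x := fun x => ENNReal.toReal_nonneg
  have hL2 : ∀ x, L U x ≤ 2 := by
    intro x
    have h1 : sl U x ⊆ Icc (-1) 1 := by
      intro y hy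
      have h2 := hUs hy
      rw [stad_eq] at h2
      have h3 := h2.1
      rw [pt_one, abs_le] at h3
      exact h3
    have h2 := ENNReal.toReal_mono (by rw [Real.volume_Icc]; exact ENNReal.ofReal_ne_top)
      (measure_mono (μ := volume) h1)
    rw [Real.volume_Icc, ENNReal.toReal_ofReal (by norm_num)] at h2
    unfold L
    linarith
  have hπ := Real.pi_pos
  -- the supremum
  have hgne : (L U '' good U).Nonempty := by
    obtain ⟨c, hcg, -⟩ := exists_good hfin (zero_lt_one : (0 : ℝ) < 1)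
    exact ⟨_, c, hcg, rfl⟩
  have hgb : BddAbove (L U '' good U) := ⟨2, by rintro _ ⟨x, -, rfl⟩; exact hL2 x⟩
  set M := sSup (L U '' good U) / 2 with hM
  have hLM : ∀ x ∈ good U, L U x ≤ 2 * M := by
    intro x hx
    have : L U x ≤ sSup (L U '' good U) := le_csSup hgb ⟨x, hx, rfl⟩
    rw [hM]; linarith
  have hM1 : M ≤ 1 := by
    have : sSup (L U '' good U) ≤ 2 := csSup_le hgne (by rintro _ ⟨x, -, rfl⟩; exact hL2 x)
    rw [hM]; linarith
  have hM0 : 0 ≤ M := by
    obtain ⟨_, c, hcg, rfl⟩ := hgne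
    have := hLM c hcg
    have := hL0 c
    linarith
  set a := (volume U).toReal with ha
  set p := (H1 (frontier U)).toReal with hp
  have h1 : a + 4 * G M ≤ p := by
    apply le_of_forall_pos_le_add
    intro ε hε
    obtain ⟨_, ⟨c, hcg, rfl⟩, hcM⟩ := exists_lt_of_lt_csSup hgne
      (show sSup (L U '' good U) - ε / 2 < sSup (L U '' good U) by linarith)
    have h2 := basic K hc hconv hfin hL2 hcg
    rw [← hU] at h2
    have h3 := (G_sub (m := 0) (u := L U c / 2) (v := M) le_rfl
      (by have := hL0 c; linarith) (by have := hLM c hcg; linarith)).2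
    have h4 : √(1 - (0 : ℝ) ^ 2) = 1 := by norm_num
    rw [h4, one_mul] at h3
    have h5 : M - L U c / 2 ≤ ε / 4 := by rw [hM]; linarith
    have h6 : a + 4 * G (L U c / 2) ≤ p := h2
    linarith
  have h2 : a ≤ 4 * M + 4 * G M := by
    have h3 := volume_le_RM hUc hUs hM0 hM1 (countable_bad hfin) hLM
    rw [volume_RM hM0] at h3
    have h4 := ENNReal.toReal_mono ENNReal.ofReal_ne_top h3
    have h5 : 0 ≤ G M := by nlinarith [G_ge hM0 hM1, mul_nonneg hπ.le hM0]
    rwa [ENNReal.toReal_ofReal (by positivity)] at h4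
  have h3 := G_ge hM0 hM1
  have h4 : (4 + 2 * π) / (4 + π) * a ≤ p := by
    rw [div_mul_eq_mul_div, div_le_iff₀ (by positivity)]
    nlinarith
  have hv : volume U = ENNReal.ofReal a := by
    rw [ha, ENNReal.ofReal_toReal hUc.measure_ne_top]
  have hh : H1 (frontier U) = ENNReal.ofReal p := by
    rw [hp, ENNReal.ofReal_toReal hfin]
  rw [hv, hh, lam, ← ENNReal.ofReal_mul (by positivity)]
  exact ENNReal.ofReal_le_ofReal h4

end Pool.Agent.V11159.SM
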