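import Pool.Agent.V11159.SM6

/-!
Self-maximising sets, part 7: the perimeter of the stadium.
-/

set_option autoImplicit false

namespace Pool.Agent.V11159.SM

open MeasureTheory Set Real
open scoped ENNReal NNReal symmDiff

theorem dist_sq_pt (x y x' y' : ℝ) : dist (pt x y) (pt x' y') ^ 2 = (x - x') ^ 2 + (y - y') ^ 2 := by
  rw [EuclideanSpace.dist_eq, Real.sq_sqrt (by positivity), Fin.sum_univ_two, Real.dist_eq,
    Real.dist_eq, sq_abs, sq_abs]
  rfl

theorem H1_curve_le {f : ℝ → E2} {a b : ℝ} (h : ∀ x y, dist (f x) (f y) ≤ |x - y|) :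
    H1 (f '' Icc a b) ≤ ENNReal.ofReal (b - a) := by
  have h1 : LipschitzWith 1 f := by
    apply LipschitzWith.of_dist_le_mul
    intro x y
    rw [NNReal.coe_one, one_mul, Real.dist_eq]
    exact h x y
  have h2 := h1.lipschitzOnWith (s := Icc a b) |>.hausdorffMeasure_image_le (d := 1) zero_le_one
  rw [hausdorffMeasure_real, ENNReal.coe_one, ENNReal.one_rpow, one_mul, Real.volume_Icc] at h2
  exact h2

theorem arc_lip (s c : ℝ) (hs : s ^ 2 = 1) (x y : ℝ) :
    dist (pt (s * (c + cos x)) (sin x)) (pt (s * (c + cos y)) (sin y)) ≤ |x - y| := by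
  apply abs_le_of_sq_le_sq' _ (abs_nonneg _) |>.2
  rw [dist_sq_pt, sq_abs]
  have h1 := Real.one_sub_sq_div_two_le_cos (x := x - y)
  rw [Real.cos_sub] at h1
  have h2 := Real.sin_sq_add_cos_sq x
  have h3 := Real.sin_sq_add_cos_sq y
  have e : (s * (c + cos x) - s * (c + cos y)) ^ 2 + (sin x - sin y) ^ 2 =
      2 - 2 * (cos x * cos y + sin x * sin y) := by
    linear_combination h2 + h3 + (cos x - cos y) ^ 2 * hs
  rw [e]
  linarith

/-- An open subset of the stadium. -/
def Ost : Set E2 := {p | |p 1| < 1 ∧ |p 0| < 1 + √(1 - (p 1) ^ 2)}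

theorem isOpen_Ost : IsOpen Ost := by
  have h1 : IsOpen {p : E2 | |p 1| < 1} := isOpen_lt (by fun_prop) continuous_const
  have h2 : IsOpen {p : E2 | |p 0| < 1 + √(1 - (p 1) ^ 2)} :=
    isOpen_lt (by fun_prop) (by fun_prop)
  exact h1.inter h2

theorem Ost_sub : Ost ⊆ interior stad := by
  apply interior_maximal _ isOpen_Ost
  rintro p ⟨h1, h2⟩
  rw [stad_eq]
  exact ⟨h1.le, h2.le⟩

theorem frontier_sub : frontier stad ⊆
    ((fun x => pt x 1) '' Icc (-1) 1 ∪ (fun x => pt x (-1)) '' Icc (-1) 1) ∪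
    ((fun x => pt (1 * (1 + cos x)) (sin x)) '' Icc (-(π / 2)) (π / 2) ∪
      (fun x => pt (-1 * (1 + cos x)) (sin x)) '' Icc (-(π / 2)) (π / 2)) := by
  intro p hp
  rw [isCompact_stad.isClosed.frontier_eq] at hp
  obtain ⟨h1, h2⟩ := hp
  have h3 : p ∉ Ost := fun h => h2 (Ost_sub h)
  rw [stad_eq] at h1
  obtain ⟨h4, h5⟩ := h1
  by_cases h6 : |p 1| = 1
  · left
    have h7 : |p 0| ≤ 1 := by
      have : (p 1) ^ 2 = 1 := by rw [← sq_abs, h6]; norm_num
      rw [this, sub_self, Real.sqrt_zero, add_zero] at h5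
      exact h5
    rcases (abs_eq (by norm_num)).1 h6 with h | h
    · left
      refine ⟨p 0, abs_le.1 h7, ?_⟩
      show pt (p 0) 1 = p
      rw [← h, pt_eta]
    · right
      refine ⟨p 0, abs_le.1 h7, ?_⟩
      show pt (p 0) (-1) = p
      rw [← h, pt_eta]
  · right
    have h7 : |p 1| < 1 := lt_of_le_of_ne h4 h6
    have h8 : |p 0| = 1 + √(1 - (p 1) ^ 2) := by
      apply le_antisymm h5
      by_contra hcon
      push Not at hcon
      exact h3 ⟨h7, hcon⟩
    have h9 : arcsin (p 1) ∈ Icc (-(π / 2)) (π / 2) :=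
      ⟨Real.neg_pi_div_two_le_arcsin _, Real.arcsin_le_pi_div_two _⟩
    rw [abs_le] at h4
    have h10 : sin (arcsin (p 1)) = p 1 := Real.sin_arcsin h4.1 h4.2
    rcases abs_cases (p 0) with ⟨ha, -⟩ | ⟨ha, -⟩
    · left
      refine ⟨arcsin (p 1), h9, ?_⟩
      show pt (1 * (1 + cos (arcsin (p 1)))) (sin (arcsin (p 1))) = p
      rw [Real.cos_arcsin, h10, one_mul, ← h8, ha, pt_eta]
    · right
      refine ⟨arcsin (p 1), h9, ?_⟩
      show pt (-1 * (1 + cos (arcsin (p 1)))) (sin (arcsin (p 1))) = p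
      rw [Real.cos_arcsin, h10, ← h8, ha, neg_one_mul, neg_neg, pt_eta]

theorem H1_frontier_stad : H1 (frontier stad) ≤ lam * volume stad := by
  have hπ := Real.pi_pos
  have h1 : ∀ y : ℝ, H1 ((fun x => pt x y) '' Icc (-1) 1) ≤ ENNReal.ofReal 2 := by
    intro y
    have := H1_curve_le (f := fun x => pt x y) (a := -1) (b := 1) (by
      intro u v
      apply abs_le_of_sq_le_sq' _ (abs_nonneg _) |>.2
      rw [dist_sq_pt, sq_abs]
      linarith [sq_nonneg (y - y), sub_self y])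
    refine this.trans_eq ?_
    congr 1; norm_num
  have h2 : ∀ s : ℝ, s ^ 2 = 1 →
      H1 ((fun x => pt (s * (1 + cos x)) (sin x)) '' Icc (-(π / 2)) (π / 2)) ≤
      ENNReal.ofReal π := by
    intro s hs
    have := H1_curve_le (f := fun x => pt (s * (1 + cos x)) (sin x)) (a := -(π / 2))
      (b := π / 2) (arc_lip s 1 hs)
    refine this.trans_eq ?_
    congr 1; ring
  have h3 : H1 (frontier stad) ≤ (ENNReal.ofReal 2 + ENNReal.ofReal 2) +
      (ENNReal.ofReal π + ENNReal.ofReal π) := by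
    refine (measure_mono frontier_sub).trans ?_
    refine (measure_union_le _ _).trans ?_
    apply add_le_add
    · exact (measure_union_le _ _).trans (add_le_add (h1 1) (h1 (-1)))
    · exact (measure_union_le _ _).trans
        (add_le_add (h2 1 (by norm_num)) (h2 (-1) (by norm_num)))
  refine h3.trans_eq ?_
  rw [volume_stad, lam, ← ENNReal.ofReal_mul (by positivity), ← ENNReal.ofReal_add (by norm_num)
    (by norm_num), ← ENNReal.ofReal_add hπ.le hπ.le, ← ENNReal.ofReal_add (by norm_num)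
    (by positivity)]
  congr 1
  field_simp
  ring

theorem stad_not_ball (x : E2) (r : ℝ) : stad ≠ Metric.closedBall x r := by
  intro h
  have h1 : pt 2 0 ∈ stad := by
    refine ⟨1, ⟨by norm_num, le_rfl⟩, ?_⟩
    rw [pt_zero, pt_one]; norm_num
  have h2 : pt (-2) 0 ∈ stad := by
    refine ⟨-1, ⟨le_rfl, by norm_num⟩, ?_⟩
    rw [pt_zero, pt_one]; norm_num
  rw [h] at h1 h2
  have hx : x = pt (x 0) (x 1) := (pt_eta x).symm
  rw [Metric.mem_closedBall] at h1 h2
  have hr : 2 ≤ r := by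
    have h3 : dist (pt 2 0) (pt (-2) 0) ≤ r + r :=
      (dist_triangle_right _ _ x).trans (add_le_add h1 h2)
    have h4 : dist (pt 2 0) (pt (-2) 0) = 4 := by
      have h5 := dist_sq_pt 2 0 (-2) 0
      have h6 : dist (pt 2 0) (pt (-2) 0) ^ 2 = 4 ^ 2 := by rw [h5]; norm_num
      exact (pow_left_inj₀ dist_nonneg (by norm_num) two_ne_zero).1 h6
    linarith
  have h3 : pt (x 0) (x 1 + r) ∈ stad := by
    rw [h, Metric.mem_closedBall]
    nth_rewrite 3 [hx]
    rw [dist_pt_same]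
    rw [add_sub_cancel_left, abs_of_nonneg (by linarith)]
  have h4 : pt (x 0) (x 1 - r) ∈ stad := by
    rw [h, Metric.mem_closedBall]
    nth_rewrite 3 [hx]
    rw [dist_pt_same, sub_sub_cancel_left, abs_neg, abs_of_nonneg (by linarith)]
  rw [stad_eq] at h3 h4
  have h5 := h3.1
  have h6 := h4.1
  rw [pt_one, abs_le] at h5 h6
  linarith [h5.2, h6.1]

end Pool.Agent.V11159.SM
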